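import Mathlib

set_option autoImplicit false
set_option linter.unusedSectionVars false
set_option linter.unusedVariables false

/-!
# Extension of nonarchimedean absolute values to algebraic extensions
-/

namespace Pool.Agent.Y206.V

open UniformSpace

universe u w

instance compl_ultra (E : Type u) [NormedField E] [IsUltrametricDist E] :
    IsUltrametricDist (Completion E) := by
  refine ⟨fun x y z => ?_⟩
  induction x, y, z using Completion.induction_on₃ with
  | hp =>
    apply isClosed_le
    · fun_prop
    · fun_prop
  | ih a b c =>
    rw [Completion.dist_eq, Completion.dist_eq, Completion.dist_eq]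
    exact IsUltrametricDist.dist_triangle_max a b c

theorem ext_complete (E : Type u) [NontriviallyNormedField E] [IsUltrametricDist E] (K : Type w)
    [Field K] [Algebra E K] [Algebra.IsAlgebraic E K] :
    ∃ b : AbsoluteValue K ℝ, IsNonarchimedean b ∧ ∀ x : E, b (algebraMap E K x) = ‖x‖ := by
  let : NontriviallyNormedField (Completion E) :=
    { (inferInstance : NormedField (Completion E)) with
      non_trivial := by
        obtain ⟨x, hx⟩ := NontriviallyNormedField.non_trivial (α := E)
        exact ⟨(x : Completion E), by rwa [Completion.norm_coe]⟩ }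
  let Ω := AlgebraicClosure (Completion E)
  obtain ⟨bΩ, h1, h2⟩ : ∃ b : AbsoluteValue Ω ℝ, IsNonarchimedean b ∧
      ∀ x : Completion E, b (algebraMap _ Ω x) = ‖x‖ := by
    refine ⟨{
      toFun := spectralNorm (Completion E) Ω
      map_mul' := fun x y => map_mul (spectralMulAlgNorm (Completion E) Ω) x y
      nonneg' := fun x => spectralNorm_nonneg x
      eq_zero' := fun x => map_eq_zero_iff_eq_zero (spectralMulAlgNorm (Completion E) Ω)
      add_le' := fun x y => map_add_le_add (spectralMulAlgNorm (Completion E) Ω) x y },
      fun x y => isNonarchimedean_spectralNorm x y, fun x => spectralNorm_extends x⟩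
  let : Algebra E Ω := ((algebraMap (Completion E) Ω).comp (Completion.coeRingHom (α := E))).toAlgebra
  obtain ⟨φ⟩ : Nonempty (K →ₐ[E] Ω) := ⟨IsAlgClosed.lift⟩
  refine ⟨bΩ.comp φ.injective, ?_, ?_⟩
  · intro x y
    change bΩ (φ (x + y)) ≤ max (bΩ (φ x)) (bΩ (φ y))
    rw [map_add]
    exact h1 _ _
  · intro x
    change bΩ (φ (algebraMap E K x)) = _
    rw [φ.commutes]
    change bΩ (algebraMap (Completion E) Ω (x : Completion E)) = _
    rw [h2, Completion.norm_coe]

end Pool.Agent.Y206.V
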