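import Pool.Agent.Y206.V.Base
import Pool.Agent.Y206.V.Ext

set_option autoImplicit false
set_option linter.unusedSectionVars false
set_option linter.unusedVariables false

/-!
# Existence of absolute values with prescribed values
-/

namespace Pool.Agent.Y206.V

open Pool.Agent.Y206

universe u w

section absV

variable {E : Type u} [Field E] (v0 : Val E)

/-- the absolute value of a valuation, as a function -/
noncomputable def absF (x : E) : ℝ := open Classical in if x = 0 then 0 else Real.exp (-(r1 (v0.v x)))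

theorem absF_zero : absF v0 0 = 0 := if_pos rfl

theorem absF_ne {x : E} (hx : x ≠ 0) : absF v0 x = Real.exp (-(r1 (v0.v x))) := if_neg hx

theorem absF_nonneg (x : E) : 0 ≤ absF v0 x := by
  unfold absF
  split_ifs
  · exact le_rfl
  · exact (Real.exp_pos _).le

theorem absF_add (x y : E) : absF v0 (x + y) ≤ max (absF v0 x) (absF v0 y) := by
  by_cases hx : x = 0
  · rw [hx, zero_add]; exact le_max_right _ _
  by_cases hy : y = 0
  · rw [hy, add_zero]; exact le_max_left _ _
  by_cases hxy : x + y = 0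
  · rw [hxy, absF_zero]; exact le_max_of_le_left (absF_nonneg _ _)
  rw [absF_ne v0 hx, absF_ne v0 hy, absF_ne v0 hxy]
  have h := v0.add' hx hy hxy
  rcases le_total (v0.v x) (v0.v y) with h1 | h1
  · rw [min_eq_left h1] at h
    apply le_max_of_le_left
    exact Real.exp_le_exp.2 (neg_le_neg (r1_mono h))
  · rw [min_eq_right h1] at h
    apply le_max_of_le_right
    exact Real.exp_le_exp.2 (neg_le_neg (r1_mono h))

/-- the absolute value of a valuation -/
noncomputable def absV : AbsoluteValue E ℝ where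
  toFun := absF v0
  map_mul' x y := by
    by_cases hx : x = 0
    · rw [hx, zero_mul, absF_zero, zero_mul]
    by_cases hy : y = 0
    · rw [hy, mul_zero, absF_zero, mul_zero]
    rw [absF_ne v0 hx, absF_ne v0 hy, absF_ne v0 (mul_ne_zero hx hy), v0.mul' hx hy, r1_add,
      neg_add, Real.exp_add]
  nonneg' := absF_nonneg v0
  eq_zero' x := by
    constructor
    · intro h
      by_contra hx
      rw [absF_ne v0 hx] at h
      exact (Real.exp_pos _).ne' h
    · intro h
      rw [h]
      exact absF_zero v0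
  add_le' x y := (absF_add v0 x y).trans (max_le_add_of_nonneg (absF_nonneg _ _) (absF_nonneg _ _))

theorem absV_ne {x : E} (hx : x ≠ 0) : absV v0 x = Real.exp (-(r1 (v0.v x))) := absF_ne v0 hx

theorem absV_nonarch : IsNonarchimedean (absV v0) := absF_add v0

end absV

theorem ext_abs {E : Type u} [Field E] (a : AbsoluteValue E ℝ) (ha : IsNonarchimedean a)
    (hnt : ∃ x, 1 < a x) (K : Type w) [Field K] [Algebra E K] [Algebra.IsAlgebraic E K] :
    ∃ b : AbsoluteValue K ℝ, IsNonarchimedean b ∧ ∀ x : E, b (algebraMap E K x) = a x := by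
  let : NontriviallyNormedField E := { a.toNormedField with non_trivial := hnt }
  have : IsUltrametricDist E := by
    refine ⟨fun x y z => ?_⟩
    change a (-x + z) ≤ max (a (-x + y)) (a (-y + z))
    have := ha (-x + y) (-y + z)
    rwa [show -x + y + (-y + z) = -x + z by ring] at this
  exact ext_complete E K

theorem isAlg_mono {A B K : Type*} [CommRing A] [CommRing B] [Field K] [Algebra A K] [Algebra B K]
    (f : A →+* B) (hf : (algebraMap B K).comp f = algebraMap A K) (hinj : Function.Injective f)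
    (h : Algebra.IsAlgebraic A K) : Algebra.IsAlgebraic B K := by
  refine ⟨fun x => ?_⟩
  obtain ⟨p, hp, hpx⟩ := h.isAlgebraic x
  refine ⟨p.map f, (Polynomial.map_ne_zero_iff hinj).2 hp, ?_⟩
  rw [Polynomial.aeval_def, Polynomial.eval₂_map, hf, ← Polynomial.aeval_def]
  exact hpx

theorem isAlg_of_surj {A B K : Type*} [CommRing A] [CommRing B] [Field K] [Algebra A K]
    [Algebra B K] (f : A →+* B) (hf : (algebraMap B K).comp f = algebraMap A K)
    (hsurj : Function.Surjective f)
    (h : Algebra.IsAlgebraic B K) : Algebra.IsAlgebraic A K := by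
  refine ⟨fun x => ?_⟩
  obtain ⟨p, hp, hpx⟩ := h.isAlgebraic x
  obtain ⟨q, hq⟩ := Polynomial.map_surjective f hsurj p
  refine ⟨q, ?_, ?_⟩
  · rintro rfl
    apply hp
    rw [← hq, Polynomial.map_zero]
  · rw [Polynomial.aeval_def, ← hf, ← Polynomial.eval₂_map, hq, ← Polynomial.aeval_def]
    exact hpx

/-- the algebraic case -/
theorem exists_abs_alg {R : Type u} [CommRing R] [IsDomain R] [WfDvdMonoid R]
    {K : Type w} [Field K] [Algebra R K] {s : K} (hs : Transcendental R s)
    (halg : Algebra.IsAlgebraic (Algebra.adjoin R {s}) K) {β : ℝ}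
    (hβ : Irrational β) {ϖ : R} (hϖ : Prime ϖ) :
    ∃ b : AbsoluteValue K ℝ, IsNonarchimedean b ∧ b (algebraMap R K ϖ) = Real.exp (-1) ∧
      b s = Real.exp (-β) ∧ ∀ a : R, ¬ ϖ ∣ a → b (algebraMap R K a) = 1 := by
  obtain ⟨φ, hφ⟩ : ∃ φ : AR R →+* K, φ = ((Polynomial.aeval s : Polynomial R →ₐ[R] K) :
    Polynomial R →+* K).comp ((Polynomial.toFinsuppIso R).symm : AR R →+* Polynomial R) := ⟨_, rfl⟩
  have hφs : ∀ (p : ℕ) (a : R), φ (AddMonoidAlgebra.single p a) = algebraMap R K a * s ^ p := by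
    intro p a
    rw [hφ]
    have h1 : (Polynomial.toFinsuppIso R).symm (AddMonoidAlgebra.single p a) =
        Polynomial.monomial p a := rfl
    change (Polynomial.aeval s) ((Polynomial.toFinsuppIso R).symm (AddMonoidAlgebra.single p a)) = _
    rw [h1, Polynomial.aeval_monomial]
  have hinj : Function.Injective φ := by
    rw [hφ]
    have h1 := transcendental_iff_injective.1 hs
    exact h1.comp (Polynomial.toFinsuppIso R).symm.injective
  obtain ⟨ψ, hψ⟩ : ∃ ψ : KK R →+* K, ψ = IsFractionRing.lift hinj := ⟨_, rfl⟩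
  have hψa : ∀ x : AR R, ψ (algebraMap (AR R) (KK R) x) = φ x := by
    intro x
    rw [hψ, IsFractionRing.lift_algebraMap]
  have hψe : ∀ (p : ℕ) (a : R), ψ (emb p a) = algebraMap R K a * s ^ p := by
    intro p a
    rw [emb, hψa, hφs]
  let : Algebra (KK R) K := ψ.toAlgebra
  let : Algebra (AR R) K := φ.toAlgebra
  have : IsScalarTower (AR R) (KK R) K := by
    refine IsScalarTower.of_algebraMap_eq fun x => ?_
    exact (hψa x).symm
  have hmem : ∀ x : AR R, φ x ∈ Algebra.adjoin R {s} := by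
    intro x
    rw [hφ]
    change Polynomial.aeval s ((Polynomial.toFinsuppIso R).symm x) ∈ _
    exact Polynomial.aeval_mem_adjoin_singleton _ _
  have halg1 : Algebra.IsAlgebraic (AR R) K := by
    refine isAlg_of_surj (φ.codRestrict (Algebra.adjoin R {s}) hmem) ?_ ?_ halg
    · rfl
    · intro y
      obtain ⟨y, hy⟩ := y
      rw [Algebra.adjoin_singleton_eq_range_aeval] at hy
      obtain ⟨p, hp⟩ := hy
      refine ⟨(Polynomial.toFinsuppIso R) p, Subtype.ext ?_⟩
      change φ _ = y
      rw [hφ, ← hp]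
      change Polynomial.aeval s ((Polynomial.toFinsuppIso R).symm ((Polynomial.toFinsuppIso R) p)) = _
      rw [RingEquiv.symm_apply_apply]
      rfl
  have halg2 : Algebra.IsAlgebraic (KK R) K :=
    (IsFractionRing.comap_isAlgebraic_iff (A := AR R) (K := KK R) (C := K)).1 halg1
  have hϖ0 : ϖ ≠ 0 := hϖ.ne_zero
  have h01 : (1 : R) ≠ 0 := one_ne_zero
  have hm1 : multiplicity ϖ (1 : R) = 0 := by
    rw [multiplicity_eq_zero]
    exact fun h => hϖ.not_isUnit (isUnit_of_dvd_one h)
  have e1 : absV (vK hϖ hβ) (emb 0 ϖ) = Real.exp (-1) := by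
    rw [absV_ne _ (emb_ne hϖ0), vK_emb hϖ hβ 0 hϖ0, multiplicity_self]
    simp
  have e2 : absV (vK hϖ hβ) (emb 1 1) = Real.exp (-β) := by
    rw [absV_ne _ (emb_ne h01), vK_emb hϖ hβ 1 h01, hm1]
    simp
  have e3 : ∀ a : R, ¬ ϖ ∣ a → absV (vK hϖ hβ) (emb 0 a) = 1 := by
    intro a ha
    have ha0 : a ≠ 0 := by
      rintro rfl
      exact ha (dvd_zero _)
    rw [absV_ne _ (emb_ne ha0), vK_emb hϖ hβ 0 ha0, multiplicity_eq_zero.2 ha]
    simp
  obtain ⟨b, hb1, hb2⟩ := ext_abs (absV (vK hϖ hβ)) (absV_nonarch _)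
    ⟨(emb 0 ϖ)⁻¹, by rw [map_inv₀, e1, ← Real.exp_neg]; simp⟩ K
  have hb3 : ∀ x : KK R, b (ψ x) = absV (vK hϖ hβ) x := hb2
  refine ⟨b, hb1, ?_, ?_, ?_⟩
  · rw [← e1, ← hb3, hψe, pow_zero, mul_one]
  · rw [← e2, ← hb3, hψe, pow_one, map_one, one_mul]
  · intro a ha
    rw [← e3 a ha, ← hb3, hψe, pow_zero, mul_one]

/-- **Absolute values with prescribed values**, general case -/
theorem exists_abs {R : Type u} [CommRing R] [IsDomain R] [UniqueFactorizationMonoid R]
    {K : Type w} [Field K] [Algebra R K] {s : K} (hs : Transcendental R s) {β : ℝ}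
    (hβ : Irrational β) {ϖ : R} (hϖ : Prime ϖ) :
    ∃ b : AbsoluteValue K ℝ, IsNonarchimedean b ∧ b (algebraMap R K ϖ) = Real.exp (-1) ∧
      b s = Real.exp (-β) ∧ ∀ a : R, ¬ ϖ ∣ a → b (algebraMap R K a) = 1 := by
  classical
  have h0 : AlgebraicIndepOn R id ({s} : Set K) := by
    unfold AlgebraicIndepOn
    rw [algebraicIndependent_singleton_iff (⟨s, rfl⟩ : ({s} : Set K))]
    exact hs
  obtain ⟨B, hsB, hB⟩ := exists_isTranscendenceBasis_superset h0
  have hsB' : s ∈ B := hsB rfl
  obtain ⟨x, hx⟩ : ∃ x : {b // b ∈ B ∧ b ≠ s} → K, x = fun b => b.1 := ⟨_, rfl⟩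
  have hopt : AlgebraicIndependent R (fun o : Option {b // b ∈ B ∧ b ≠ s} => o.elim s x) := by
    have h1 := hB.1.comp (fun o : Option {b // b ∈ B ∧ b ≠ s} =>
      (o.elim ⟨s, hsB'⟩ fun b => ⟨b.1, b.2.1⟩ : B)) (by
        intro o1 o2 h
        rcases o1 with _ | b1 <;> rcases o2 with _ | b2
        · rfl
        · exact absurd (congrArg Subtype.val h).symm b2.2.2
        · exact absurd (congrArg Subtype.val h) b1.2.2
        · rw [Option.some_inj]
          have h' : b1.1 = b2.1 := congrArg (fun z : B => (z : K)) h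
          exact Subtype.ext h')
    convert h1 using 1
    funext o
    rcases o with _ | b
    · rfl
    · rw [hx]; rfl
  rw [AlgebraicIndependent.option_iff] at hopt
  obtain ⟨hind, htr⟩ := hopt
  obtain ⟨e, he⟩ : ∃ e : MvPolynomial {b // b ∈ B ∧ b ≠ s} R ≃ₐ[R] Algebra.adjoin R (Set.range x),
    e = hind.aevalEquiv := ⟨_, rfl⟩
  have : UniqueFactorizationMonoid (Algebra.adjoin R (Set.range x)) :=
    e.toMulEquiv.uniqueFactorizationMonoid inferInstance
  have hC : ∀ a : R, e (MvPolynomial.C a) = algebraMap R _ a := fun a => e.commutes a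
  have hdvd : ∀ a : R, algebraMap R (Algebra.adjoin R (Set.range x)) ϖ ∣ algebraMap R _ a → ϖ ∣ a := by
    intro a h
    rw [← hC, ← hC, map_dvd_iff] at h
    rw [MvPolynomial.C_dvd_iff_dvd_coeff] at h
    have := h 0
    rwa [MvPolynomial.coeff_zero_C] at this
  have hprime : Prime (algebraMap R (Algebra.adjoin R (Set.range x)) ϖ) := by
    rw [← hC]
    exact (MulEquiv.prime_iff e.toMulEquiv).2 ((MvPolynomial.prime_C_iff _).2 hϖ)
  have halg : Algebra.IsAlgebraic (Algebra.adjoin (Algebra.adjoin R (Set.range x)) {s}) K := by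
    have h1 := hB.isAlgebraic
    have h2 : Algebra.adjoin R (Set.range (Subtype.val : B → K)) ≤
        (Algebra.adjoin (Algebra.adjoin R (Set.range x)) {s}).restrictScalars R := by
      rw [Algebra.adjoin_le_iff]
      rintro _ ⟨⟨b, hb⟩, rfl⟩
      by_cases h : b = s
      · subst h
        exact Algebra.subset_adjoin rfl
      · have h3 : b ∈ Algebra.adjoin R (Set.range x) :=
          Algebra.subset_adjoin ⟨⟨b, hb, h⟩, by rw [hx]⟩
        exact (Algebra.adjoin (Algebra.adjoin R (Set.range x)) {s}).algebraMap_mem ⟨b, h3⟩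
    refine isAlg_mono ((Subalgebra.val _ : Algebra.adjoin R (Set.range (Subtype.val : B → K))
      →ₐ[R] K).toRingHom.codRestrict (Algebra.adjoin (Algebra.adjoin R (Set.range x)) {s})
      fun y => h2 y.2) ?_ ?_ h1
    · rfl
    · intro y1 y2 h
      have h' : (y1 : K) = (y2 : K) := congrArg
        (fun z : Algebra.adjoin (Algebra.adjoin R (Set.range x)) {s} => (z : K)) h
      exact Subtype.ext h'
  obtain ⟨b, h1, h2, h3, h4⟩ := exists_abs_alg htr halg hβ hprime
  exact ⟨b, h1, h2, h3, fun a ha => h4 _ (fun h => ha (hdvd a h))⟩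

end Pool.Agent.Y206.V
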