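import Pool.Agent.Y206.V.Base
import Pool.Agent.Y206.Final

set_option autoImplicit false
set_option linter.unusedSectionVars false
set_option linter.unusedVariables false

/-!
# Nagata's inequality at points depending on one transcendental parameter
-/

namespace Pool.Agent.Y206.V

open Pool.Agent.Y206

universe u w

/-- **The criterion** for points over a field generated by one transcendental element. -/
theorem crit_R {R : Type u} [CommRing R] [IsDomain R] [WfDvdMonoid R] {ϖ : R} (hϖ : Prime ϖ)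
    {K : Type w} [Field K] [Algebra R K] {s : K} (hs : Transcendental R s)
    {β : ℝ} (hβ0 : 0 < β) (hβ : β < 3 / 7) (hirr : Irrational β) (k : ℕ) {n : ℕ}
    {c : Fin n → R} (hc1 : ∀ i, ¬ ϖ ∣ c i) (hc2 : ∀ i j, i ≠ j → ¬ ϖ ∣ c i - c j)
    (m : Fin n → ℕ) {F : MvPolynomial (Fin 3) K} {d : ℕ} (hF : F.IsHomogeneous d) (hF0 : F ≠ 0)
    (hm : ∀ i, MultAt (ptK k (algebraMap R K ϖ / s) s (algebraMap R K (c i))) F (m i)) :
    ∃ (r : ℕ) (h1 h2 : ℤ), ((∑ i, (m i - r) : ℕ) : ℤ) ≤ h2 - h1 ∧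
      Chord β k d r h1 ∧ Chord β k d r h2 := by
  obtain ⟨φ, hφ⟩ : ∃ φ : AR R →+* K, φ = ((Polynomial.aeval s : Polynomial R →ₐ[R] K) :
    Polynomial R →+* K).comp ((Polynomial.toFinsuppIso R).symm : AR R →+* Polynomial R) := ⟨_, rfl⟩
  have hφs : ∀ (p : ℕ) (a : R), φ (AddMonoidAlgebra.single p a) = algebraMap R K a * s ^ p := by
    intro p a
    rw [hφ]
    have h1 : (Polynomial.toFinsuppIso R).symm (AddMonoidAlgebra.single p a) =
        Polynomial.monomial p a := rfl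
    change (Polynomial.aeval s) ((Polynomial.toFinsuppIso R).symm (AddMonoidAlgebra.single p a)) = _
    rw [h1, Polynomial.aeval_monomial]
  have hinj : Function.Injective φ := by
    rw [hφ]
    have h1 := transcendental_iff_injective.1 hs
    exact h1.comp (Polynomial.toFinsuppIso R).symm.injective
  obtain ⟨ψ, hψ⟩ : ∃ ψ : KK R →+* K, ψ = IsFractionRing.lift hinj := ⟨_, rfl⟩
  have hψe : ∀ (p : ℕ) (a : R), ψ (emb p a) = algebraMap R K a * s ^ p := by
    intro p a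
    rw [hψ, emb, IsFractionRing.lift_algebraMap, hφs]
  let : Algebra (KK R) K := ψ.toAlgebra
  have hv0 := realV hϖ hirr
  have hC := ctxs_of_real hv0
  have hϖ0 : ϖ ≠ 0 := hϖ.ne_zero
  have hc0 : ∀ i, c i ≠ 0 := by
    intro i h
    apply hc1 i
    rw [h]; exact dvd_zero _
  have h01 : (1 : R) ≠ 0 := one_ne_zero
  have hm1 : multiplicity ϖ (1 : R) = 0 := by
    rw [multiplicity_eq_zero]
    exact fun h => hϖ.not_isUnit (isUnit_of_dvd_one h)
  have hm' : ∀ i, MultAt (fun j => algebraMap (KK R) K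
      (ptK k (emb 0 ϖ / emb 1 1 : KK R) (emb 1 1) (emb 0 (c i)) j)) F (m i) := by
    intro i
    have e : (fun j => algebraMap (KK R) K
      (ptK k (emb 0 ϖ / emb 1 1 : KK R) (emb 1 1) (emb 0 (c i)) j)) =
      ptK k (algebraMap R K ϖ / s) s (algebraMap R K (c i)) := by
      funext j
      change ψ _ = _
      rw [ptK_map, map_div₀, hψe, hψe, hψe]
      simp
    rw [e]
    exact hm i
  obtain ⟨F₀, g1, g2, g3⟩ := descent _ m hF hF0 hm'
  refine crit_K (v0 := vK hϖ hirr) hC hv0 hβ0 hβ hirr (μ := emb 0 ϖ) (s := emb 1 1)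
    (emb_ne hϖ0) ?_ (emb_ne h01) ?_ k (c := fun i => emb 0 (c i)) (fun i => emb_ne (hc0 i))
    ?_ ?_ m g2 g1 g3
  · rw [vK_emb hϖ hirr 0 hϖ0, multiplicity_self]
    exact gam_ext (by simp) (by simp)
  · rw [vK_emb hϖ hirr 1 h01, hm1]
    exact gam_ext (by simp) (by simp)
  · intro i
    rw [vK_emb hϖ hirr 0 (hc0 i), multiplicity_eq_zero.2 (hc1 i)]
    exact gam_ext (by simp) (by simp)
  · intro i j hij
    have h1 := hc2 i j hij
    have h2 : c i - c j ≠ 0 := by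
      intro h
      rw [h] at h1
      exact h1 (dvd_zero _)
    have h3 : (emb 0 (c i) : KK R) - emb 0 (c j) = emb 0 (c i - c j) := by
      unfold emb
      rw [← map_sub]
      congr 1
      exact (AddMonoidAlgebra.single_sub _ _ _).symm
    change (emb 0 (c i) : KK R) - emb 0 (c j) ≠ 0 ∧ _
    rw [h3]
    refine ⟨emb_ne h2, ?_⟩
    rw [vK_emb hϖ hirr 0 h2, multiplicity_eq_zero.2 h1]
    exact gam_ext (by simp) (by simp)

theorem chord_upper {β : ℝ} {k d r : ℕ} {h : ℤ} (hK : 0 ≤ 6 + k - 3 * β)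
    (H : Chord β k d r h) : (h : ℝ) ≤ (2 - β) * d - (6 + k - 3 * β) * r := by
  obtain ⟨j1, j2, h1, h2, h3⟩ := H
  have h1' : (j1 : ℝ) + r ≤ j2 := by exact_mod_cast h1
  have hj : (0 : ℝ) ≤ j1 := Nat.cast_nonneg _
  have h4 : (6 + k - 3 * β) * (r : ℝ) ≤ (6 + k - 3 * β) * j2 :=
    mul_le_mul_of_nonneg_left (by linarith) hK
  linarith

theorem chord_rows {β : ℝ} {k d r : ℕ} {h : ℤ} (hK : 0 ≤ 6 + k - 3 * β)
    (H : Chord β k d r h) : ∃ j : ℕ, -(1 + β) * d - (6 + k - 3 * β - 9) * j ≤ h ∧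
      (h : ℝ) ≤ (2 - β) * d - (6 + k - 3 * β) * (j + r) := by
  obtain ⟨j1, j2, h1, h2, h3⟩ := H
  have h1' : (j1 : ℝ) + r ≤ j2 := by exact_mod_cast h1
  have h4 : (6 + k - 3 * β) * ((j1 : ℝ) + r) ≤ (6 + k - 3 * β) * j2 :=
    mul_le_mul_of_nonneg_left h1' hK
  exact ⟨j1, by linarith, by linarith⟩

theorem chord_lower {β : ℝ} {k d r : ℕ} {h : ℤ} (hK : 9 ≤ 6 + k - 3 * β)
    (H : Chord β k d r h) :
    -(1 + β) * d - (6 + k - 3 * β - 9) * ((3 * d - (6 + k - 3 * β) * r) / 9) ≤ h := by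
  obtain ⟨j, h1, h2⟩ := chord_rows (by linarith) H
  have h3 : (j : ℝ) ≤ (3 * d - (6 + k - 3 * β) * r) / 9 := by
    rw [le_div_iff₀ (by norm_num)]
    linarith
  have h4 := mul_le_mul_of_nonneg_left h3 (show (0 : ℝ) ≤ 6 + k - 3 * β - 9 by linarith)
  linarith

/-- the conclusion of the criterion -/
def Crit (β : ℝ) (k d : ℕ) {n : ℕ} (m : Fin n → ℕ) : Prop :=
  ∃ (r : ℕ) (h1 h2 : ℤ), ((∑ i, (m i - r) : ℕ) : ℤ) ≤ h2 - h1 ∧
      Chord β k d r h1 ∧ Chord β k d r h2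

theorem nonsquare {n : ℕ} (hn : 9 < n) (hsq : Irrational (√(n : ℝ))) (m : Fin n → ℕ) {d : ℕ}
    (hd : 0 < d) (hcrit : ∀ β : ℝ, 0 < β → β < 3 / 7 → Irrational β →
      Crit β (⌊3 * √(n : ℝ)⌋₊ - 5) d m) :
    ∑ i, (m i : ℝ) < d * √(n : ℝ) := by
  obtain ⟨q, hq⟩ : ∃ q, q = √(n : ℝ) := ⟨_, rfl⟩
  obtain ⟨N, hN⟩ : ∃ N, N = ⌊3 * √(n : ℝ)⌋₊ := ⟨_, rfl⟩
  rw [← hN] at hcrit
  have hqq : q * q = n := by rw [hq]; exact Real.mul_self_sqrt (Nat.cast_nonneg n)
  have hq0 : 0 ≤ q := by rw [hq]; exact Real.sqrt_nonneg _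
  have hn' : (9 : ℝ) < n := by exact_mod_cast hn
  have hq3 : 3 < q := by nlinarith
  have h3q : 0 ≤ 3 * √(n : ℝ) := by positivity
  have hN1 : (N : ℝ) ≤ 3 * q := by rw [hN, hq]; exact Nat.floor_le h3q
  have hN2 : 3 * q < N + 1 := by rw [hN, hq]; exact Nat.lt_floor_add_one _
  have hN9 : 9 ≤ N := by
    rw [hN]
    apply Nat.le_floor
    push_cast
    rw [← hq]; linarith
  have hk : ((N - 5 : ℕ) : ℝ) = N - 5 := by
    rw [Nat.cast_sub (by omega)]; norm_num
  rw [← hq] at hsq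
  have hirr3 : Irrational (((N : ℝ) + 1 - 3 * q) / 3) := by
    have h1 : Irrational (3 * q) := by
      have := hsq.natCast_mul (m := 3) (by norm_num)
      simpa using this
    have h2 : Irrational (((N + 1 : ℕ) : ℝ) - 3 * q) := h1.natCast_sub _
    have h3 := h2.div_natCast (m := 3) (by norm_num)
    push_cast at h3
    exact h3
  obtain ⟨r, h1, h2, h3, H1, H2⟩ := hcrit (((N : ℝ) + 1 - 3 * q) / 3) (by linarith) (by linarith)
    hirr3
  have hK : 6 + ((N - 5 : ℕ) : ℝ) - 3 * (((N : ℝ) + 1 - 3 * q) / 3) = 3 * q := by rw [hk]; ring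
  have e1 := chord_upper (by rw [hK]; linarith) H2
  have e2 := chord_lower (by rw [hK]; linarith) H1
  rw [hK] at e1 e2
  have e3 := sum_sub_ge m r
  have h3' : ((∑ i, (m i - r) : ℕ) : ℝ) ≤ (h2 : ℝ) - h1 := by exact_mod_cast h3
  have hle : ∑ i, (m i : ℝ) ≤ d * q := by
    rw [← hqq] at e3
    nlinarith
  rw [← hq]
  refine lt_of_le_of_ne hle fun heq => ?_
  have h2 : Irrational ((d : ℝ) * q) := hsq.natCast_mul hd.ne'
  apply h2
  refine ⟨((∑ i, m i : ℕ) : ℚ), ?_⟩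
  push_cast
  exact heq

theorem square {n R : ℕ} (hR : 4 ≤ R) (hn : n = R * R) (m : Fin n → ℕ) {d : ℕ}
    (hd : 0 < d) (hcrit : ∀ β : ℝ, 0 < β → β < 3 / 7 → Irrational β →
      Crit β (3 * R - 5) d m) :
    ∑ i, (m i : ℝ) < d * R := by
  by_contra hcon
  rw [not_lt] at hcon
  have hR' : (4 : ℝ) ≤ R := by exact_mod_cast hR
  have hd' : (1 : ℝ) ≤ d := by exact_mod_cast hd
  obtain ⟨ε, hε⟩ : ∃ ε : ℝ, ε = √2 / ((8 * d * R : ℕ) : ℝ) := ⟨_, rfl⟩
  have h8 : (0 : ℝ) < ((8 * d * R : ℕ) : ℝ) := by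
    have : 0 < 8 * d * R := by positivity
    exact_mod_cast this
  have hs2 : √2 < (2 : ℝ) := by
    rw [Real.sqrt_lt' (by norm_num)]; norm_num
  have hs0 : 0 < √(2 : ℝ) := by positivity
  have hε0 : 0 < ε := by rw [hε]; positivity
  have hdR : (0 : ℝ) < d * R := by
    have : 0 < d * R := by positivity
    exact_mod_cast this
  have hεd : ε * (d * R) < 1 / 4 := by
    rw [hε, div_mul_eq_mul_div, div_lt_iff₀ h8]
    push_cast
    linarith [mul_lt_mul_of_pos_right hs2 hdR]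
  have hεd' : ε * d < 1 / 16 := by
    have h1 : ε * (d * 4) ≤ ε * (d * R) := by
      apply mul_le_mul_of_nonneg_left _ hε0.le
      nlinarith
    linarith
  have hε1 : ε < 1 / 16 := by nlinarith
  have hirr : Irrational ((1 + ε) / 3) := by
    have h1 : Irrational ε := by
      rw [hε]
      exact irrational_sqrt_two.div_natCast (by positivity)
    have h2 := (h1.natCast_add 1).div_natCast (m := 3) (by norm_num)
    push_cast at h2
    exact h2
  obtain ⟨r, h1, h2, h3, H1, H2⟩ := hcrit ((1 + ε) / 3) (by linarith) (by linarith) hirr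
  have hk : ((3 * R - 5 : ℕ) : ℝ) = 3 * R - 5 := by
    rw [Nat.cast_sub (by omega)]; push_cast; ring
  have hK : 6 + ((3 * R - 5 : ℕ) : ℝ) - 3 * ((1 + ε) / 3) = 3 * R - ε := by rw [hk]; ring
  have e1 := chord_upper (by rw [hK]; linarith) H2
  obtain ⟨j, e2, e3⟩ := chord_rows (by rw [hK]; linarith) H1
  rw [hK] at e1 e2 e3
  have e4 := sum_sub_ge m r
  have h3' : ((∑ i, (m i - r) : ℕ) : ℝ) ≤ (h2 : ℝ) - h1 := by exact_mod_cast h3
  have hnR : (n : ℝ) = R * R := by rw [hn]; push_cast; ring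
  rw [hnR] at e4
  have hj0 : (0 : ℝ) ≤ j := Nat.cast_nonneg _
  have hr0 : (0 : ℝ) ≤ r := Nat.cast_nonneg _
  -- `3 j + R r ≤ d`
  have e5 : (3 * R - ε) * r + 9 * j ≤ 3 * d := by linarith
  have hRr : 4 * (r : ℝ) ≤ R * r := mul_le_mul_of_nonneg_right hR' hr0
  have hεr0 : ε * r ≤ 1 / 16 * r := mul_le_mul_of_nonneg_right hε1.le hr0
  have hr3 : (r : ℝ) ≤ d := by linarith
  have hεr : ε * r < 1 / 16 := (mul_le_mul_of_nonneg_left hr3 hε0.le).trans_lt hεd'
  have f1 : 3 * (j : ℝ) + R * r < d + 1 := by linarith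
  have f2 : 3 * j + R * r ≤ d := by
    have : 3 * j + R * r < d + 1 := by exact_mod_cast f1
    omega
  have f2' : 3 * (j : ℝ) + R * r ≤ d := by exact_mod_cast f2
  by_cases hcase : 3 * j + R * r = d
  · have hcase' : 3 * (j : ℝ) + R * r = d := by exact_mod_cast hcase
    rcases Nat.eq_zero_or_pos r with hr | hr
    · -- the apex
      rw [hr] at hcase' e1 e4 h3' e3
      simp only [Nat.cast_zero, mul_zero, add_zero, sub_zero] at hcase' e1 e4 e3
      have g1 : (h2 : ℝ) < 5 * j := by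
        rw [← hcase'] at e1
        nlinarith
      have g2 : h2 < 5 * (j : ℤ) := by exact_mod_cast g1
      have g3 : h2 + 1 ≤ 5 * (j : ℤ) := by omega
      have g4 : (h2 : ℝ) + 1 ≤ 5 * j := by exact_mod_cast g3
      have g5 : -(3 * R - 5) * (j : ℝ) ≤ h1 := by
        rw [← hcase'] at e2
        linarith
      rw [← hcase'] at hcon
      linarith
    · -- no lattice point
      exfalso
      have hr1 : (1 : ℝ) ≤ r := by exact_mod_cast hr
      -- `3 h1` is close to `- 4 d - 3 (R - 3) (3 j)`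
      have g0 : 0 < ε * r := mul_pos hε0 (by linarith)
      have g0' : ε * (4 * r) ≤ ε * (R * r) := mul_le_mul_of_nonneg_left hRr hε0.le
      have g1 : (3 : ℝ) * h1 < -4 * d - (R - 3) * (9 * j) := by
        have g6 : R * (r : ℝ) = d - 3 * j := by linarith
        have g7 : ε * (R * (r : ℝ)) = ε * (d - 3 * j) := by rw [g6]
        linarith
      have g2 : -4 * (d : ℝ) - (R - 3) * (9 * j) - 1 < 3 * h1 := by
        have g8 : 0 ≤ ε * j := mul_nonneg hε0.le hj0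
        linarith
      have g3 : (3 : ℤ) * h1 < -4 * d - (R - 3) * (9 * j) := by exact_mod_cast g1
      have g4 : -4 * (d : ℤ) - (R - 3) * (9 * j) - 1 < 3 * h1 := by exact_mod_cast g2
      generalize ((R : ℤ) - 3) * (9 * j) = X at g3 g4
      omega
  · have f3 : 3 * j + R * r + 1 ≤ d := by omega
    have f3' : 3 * (j : ℝ) + R * r + 1 ≤ d := by exact_mod_cast f3
    nlinarith

/-- **Nagata's inequality** -/
theorem nagata {R : Type u} [CommRing R] [IsDomain R] [WfDvdMonoid R] {ϖ : R} (hϖ : Prime ϖ)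
    {K : Type w} [Field K] [Algebra R K] {s : K} (hs : Transcendental R s) {n : ℕ} (hn : 9 < n)
    {c : Fin n → R} (hc1 : ∀ i, ¬ ϖ ∣ c i) (hc2 : ∀ i j, i ≠ j → ¬ ϖ ∣ c i - c j)
    (m : Fin n → ℕ) {F : MvPolynomial (Fin 3) K} {d : ℕ} (hd : 0 < d) (hF : F.IsHomogeneous d)
    (hF0 : F ≠ 0) (hm : ∀ i, MultAt (ptK (⌊3 * √(n : ℝ)⌋₊ - 5) (algebraMap R K ϖ / s) s
      (algebraMap R K (c i))) F (m i)) :
    ∑ i, (m i : ℝ) < d * √(n : ℝ) := by
  by_cases hsq : IsSquare n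
  · obtain ⟨q, hq⟩ := hsq
    have hq4 : 4 ≤ q := by
      by_contra hcon
      have : q ≤ 3 := by omega
      have : q * q ≤ 3 * 3 := Nat.mul_le_mul this this
      omega
    have hsR : √(n : ℝ) = q := by
      rw [hq]; push_cast
      exact Real.sqrt_mul_self (Nat.cast_nonneg q)
    have hfl : ⌊3 * √(n : ℝ)⌋₊ = 3 * q := by
      rw [hsR]
      have : (3 : ℝ) * q = ((3 * q : ℕ) : ℝ) := by push_cast; ring
      rw [this, Nat.floor_natCast]
    rw [hfl] at hm
    rw [hsR]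
    exact square hq4 hq m hd fun β h1 h2 h3 => crit_R hϖ hs h1 h2 h3 _ hc1 hc2 m hF hF0 hm
  · have hirr : Irrational (√(n : ℝ)) := by
      rw [irrational_sqrt_natCast_iff]
      exact hsq
    exact nonsquare hn hirr m hd fun β h1 h2 h3 => crit_R hϖ hs h1 h2 h3 _ hc1 hc2 m hF hF0 hm

end Pool.Agent.Y206.V
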