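import Pool.Agent.Y206.Crit

set_option autoImplicit false

/-!
# Rescaling the coordinates of a point
-/

namespace Pool.Agent.Y206.V

open Pool.Agent.Y206 MvPolynomial

theorem aeval_smul_of_homogeneous {K B : Type*} [Field K] [CommRing B] [Algebra K B]
    {F : MvPolynomial (Fin 3) K} {d : ℕ} (hF : F.IsHomogeneous d) (w : B) (g : Fin 3 → B) :
    aeval (fun j => w * g j) F = w ^ d * aeval g F := by
  rw [aeval_def, aeval_def, eval₂_eq', eval₂_eq', Finset.mul_sum]
  refine Finset.sum_congr rfl fun s hs => ?_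
  have hdeg : ∑ j, s j = d := by
    have := hF (mem_support_iff.1 hs)
    rw [← this, Finsupp.weight_apply, Finsupp.sum_fintype _ _ (by simp)]
    simp
  have h1 : ∏ j, (w * g j) ^ s j = w ^ d * ∏ j, g j ^ s j := by
    simp only [mul_pow]
    rw [Finset.prod_mul_distrib, Finset.prod_pow_eq_pow_sum, hdeg]
  rw [h1]
  ring

theorem coeff_scale {K : Type*} [Field K] (w : K) (A : MvPolynomial (Fin 3) K)
    (σ : Fin 3 →₀ ℕ) :
    coeff σ (aeval (fun j : Fin 3 => (C w * X j : MvPolynomial (Fin 3) K)) A) =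
      w ^ (∑ j, σ j) * coeff σ A := by
  induction A using MvPolynomial.induction_on' with
  | add p q hp hq => rw [map_add, coeff_add, hp, hq, coeff_add, mul_add]
  | monomial u a =>
    have h1 : aeval (fun j : Fin 3 => (C w * X j : MvPolynomial (Fin 3) K)) (monomial u a) =
        monomial u (w ^ (∑ j, u j) * a) := by
      rw [aeval_monomial, Finsupp.prod_fintype _ _ (by simp)]
      simp only [mul_pow]
      rw [Finset.prod_mul_distrib, Finset.prod_pow_eq_pow_sum, algebraMap_eq, ← C_pow,
        ← mul_assoc, ← C_mul]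
      have h2 : ∏ j, (X j : MvPolynomial (Fin 3) K) ^ u j = monomial u 1 := by
        rw [monomial_eq, C_1, one_mul, Finsupp.prod_fintype _ _ (by simp)]
      rw [h2, C_mul_monomial, mul_one, mul_comm]
    rw [h1, coeff_monomial, coeff_monomial]
    by_cases h : u = σ
    · rw [if_pos h, if_pos h, h]
    · rw [if_neg h, if_neg h, mul_zero]

theorem multAt_smul {K : Type*} [Field K] {v : Fin 3 → K} {w : K} (hw : w ≠ 0)
    {F : MvPolynomial (Fin 3) K} {d m : ℕ} (hF : F.IsHomogeneous d)
    (h : MultAt (fun j => w * v j) F m) : MultAt v F m := by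
  intro σ hσ
  have h1 := h σ hσ
  have h2 := coeff_scale w (aeval (fun j : Fin 3 =>
    (X j + C (w * v j) : MvPolynomial (Fin 3) K)) F) σ
  rw [h1, mul_zero] at h2
  have h3 : aeval (fun j : Fin 3 => (C w * X j : MvPolynomial (Fin 3) K))
      (aeval (fun j : Fin 3 => (X j + C (w * v j) : MvPolynomial (Fin 3) K)) F) =
      C (w ^ d) * aeval (fun j : Fin 3 => (X j + C (v j) : MvPolynomial (Fin 3) K)) F := by
    rw [← AlgHom.comp_apply, MvPolynomial.comp_aeval]
    have h4 : (fun i => (aeval fun j : Fin 3 => (C w * X j : MvPolynomial (Fin 3) K))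
        (X i + C (w * v i))) = fun i : Fin 3 => (C w : MvPolynomial (Fin 3) K) * (X i + C (v i)) := by
      funext i
      rw [map_add, aeval_X, ← algebraMap_eq, AlgHom.commutes, algebraMap_eq, mul_add, ← C_mul]
    rw [h4, aeval_smul_of_homogeneous hF, C_pow]
  rw [h3, coeff_C_mul] at h2
  rcases mul_eq_zero.1 h2 with h5 | h5
  · exact absurd h5 (pow_ne_zero _ hw)
  · exact h5

end Pool.Agent.Y206.V
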