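import Pool.Agent.Y206.V.Red2
import Pool.Agent.Y206.V.Final
import Pool.Agent.Y206.V.Scale

set_option autoImplicit false
set_option linter.unusedSectionVars false
set_option linter.unusedVariables false

/-!
# Ultrametric fields
-/

namespace Pool.Agent.Y206.V

open Pool.Agent.Y206 Topology

universe u w

/-- the critical slope -/
noncomputable def bet (n : ℕ) : ℝ := ((⌊3 * √(n : ℝ)⌋₊ : ℝ) + 1 - 3 * √(n : ℝ)) / 3

theorem bet_facts {n : ℕ} (hn : 9 < n) (hsq : Irrational (√(n : ℝ))) :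
    0 < bet n ∧ bet n < 3 / 7 ∧ Irrational (bet n) ∧
      6 + ((⌊3 * √(n : ℝ)⌋₊ - 5 : ℕ) : ℝ) - 3 * bet n = 3 * √(n : ℝ) := by
  unfold bet
  obtain ⟨q, hq⟩ : ∃ q, q = √(n : ℝ) := ⟨_, rfl⟩
  obtain ⟨N, hN⟩ : ∃ N, N = ⌊3 * √(n : ℝ)⌋₊ := ⟨_, rfl⟩
  have hqq : q * q = n := by rw [hq]; exact Real.mul_self_sqrt (Nat.cast_nonneg n)
  have hq0 : 0 ≤ q := by rw [hq]; exact Real.sqrt_nonneg _
  have hn' : (9 : ℝ) < n := by exact_mod_cast hn
  have hq3 : 3 < q := by nlinarith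
  have h3q : 0 ≤ 3 * √(n : ℝ) := by positivity
  have hN1 : (N : ℝ) ≤ 3 * q := by rw [hN, hq]; exact Nat.floor_le h3q
  have hN2 : 3 * q < N + 1 := by rw [hN, hq]; exact Nat.lt_floor_add_one _
  have hN9 : 9 ≤ N := by
    rw [hN]
    apply Nat.le_floor
    push_cast
    rw [← hq]; linarith
  rw [← hN, ← hq]
  have hk : ((N - 5 : ℕ) : ℝ) = N - 5 := by
    rw [Nat.cast_sub (by omega)]; norm_num
  rw [← hq] at hsq
  refine ⟨by linarith, by linarith, ?_, by rw [hk]; ring⟩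
  have h1 : Irrational (3 * q) := by
    have := hsq.natCast_mul (m := 3) (by norm_num)
    simpa using this
  have h2 : Irrational (((N + 1 : ℕ) : ℝ) - 3 * q) := h1.natCast_sub _
  have h3 := h2.div_natCast (m := 3) (by norm_num)
  push_cast at h3
  exact h3

theorem nonsquare_at {n : ℕ} (hn : 9 < n) (hsq : Irrational (√(n : ℝ))) (m : Fin n → ℕ) {d : ℕ}
    (hd : 0 < d) (hcrit : Crit (bet n) (⌊3 * √(n : ℝ)⌋₊ - 5) d m) :
    ∑ i, (m i : ℝ) < d * √(n : ℝ) := by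
  obtain ⟨b1, b2, b3, hK⟩ := bet_facts hn hsq
  obtain ⟨q, hq⟩ : ∃ q, q = √(n : ℝ) := ⟨_, rfl⟩
  have hqq : q * q = n := by rw [hq]; exact Real.mul_self_sqrt (Nat.cast_nonneg n)
  have hq0 : 0 ≤ q := by rw [hq]; exact Real.sqrt_nonneg _
  have hn' : (9 : ℝ) < n := by exact_mod_cast hn
  have hq3 : 3 < q := by nlinarith
  obtain ⟨k, hk⟩ : ∃ k, k = ⌊3 * √(n : ℝ)⌋₊ - 5 := ⟨_, rfl⟩
  rw [← hk] at hcrit hK
  obtain ⟨r, h1, h2, h3, H1, H2⟩ := hcrit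
  rw [← hq] at hK hsq ⊢
  have e1 := chord_upper (by rw [hK]; linarith) H2
  have e2 := chord_lower (by rw [hK]; linarith) H1
  rw [hK] at e1 e2
  have e3 := sum_sub_ge m r
  have h3' : ((∑ i, (m i - r) : ℕ) : ℝ) ≤ (h2 : ℝ) - h1 := by exact_mod_cast h3
  have hle : ∑ i, (m i : ℝ) ≤ d * q := by
    rw [← hqq] at e3
    nlinarith
  refine lt_of_le_of_ne hle fun heq => ?_
  have h2 : Irrational ((d : ℝ) * q) := hsq.natCast_mul hd.ne'
  apply h2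
  refine ⟨((∑ i, m i : ℕ) : ℚ), ?_⟩
  push_cast
  exact heq

section Norm

variable {K : Type u} [NormedField K] [IsUltrametricDist K]

/-- the valuation of an ultrametric field, normalized at `μ` -/
noncomputable def vN {μ : K} (h0 : 0 < ‖μ‖) (h1 : ‖μ‖ < 1) : Val K where
  v x := pt (Real.log ‖x‖ / Real.log ‖μ‖) 0
  mul' := by
    intro x y hx hy
    rw [norm_mul, Real.log_mul (norm_ne_zero_iff.2 hx) (norm_ne_zero_iff.2 hy), add_div]
    exact gam_ext (by simp) (by simp)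
  add' := by
    intro x y hx hy hxy
    have hlog : Real.log ‖μ‖ < 0 := Real.log_neg h0 h1
    have hmono : ∀ a b : K, a ≠ 0 → b ≠ 0 → ‖a‖ ≤ ‖b‖ →
        pt (Real.log ‖b‖ / Real.log ‖μ‖) 0 ≤ pt (Real.log ‖a‖ / Real.log ‖μ‖) 0 := by
      intro a b ha hb hab
      have h2 : Real.log ‖a‖ ≤ Real.log ‖b‖ := Real.log_le_log (norm_pos_iff.2 ha) hab
      have h3 : Real.log ‖b‖ / Real.log ‖μ‖ ≤ Real.log ‖a‖ / Real.log ‖μ‖ :=
        div_le_div_of_nonpos_of_le hlog.le h2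
      rcases h3.lt_or_eq with h | h
      · apply le_of_lt
        apply lt_of_r1_lt
        simp only [r1_pt]
        exact h
      · rw [h]
    have h2 := IsUltrametricDist.norm_add_le_max x y
    rcases le_total ‖x‖ ‖y‖ with h | h
    · rw [max_eq_right h] at h2
      exact (min_le_right _ _).trans (hmono _ _ hxy hy h2)
    · rw [max_eq_left h] at h2
      exact (min_le_left _ _).trans (hmono _ _ hxy hx h2)

variable {μ : K} (h0 : 0 < ‖μ‖) (h1 : ‖μ‖ < 1)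

theorem vN_real : RealV (vN h0 h1) := fun x _ => by simp [vN]

theorem vN_one {x : K} (hx : ‖x‖ = 1) : (vN h0 h1).v x = 0 := by
  simp only [vN, hx, Real.log_one, zero_div]
  exact gam_ext (by simp) (by simp)

theorem vN_pos {x : K} (hx : ‖x‖ < 1) : x = 0 ∨ 0 < (vN h0 h1).v x := by
  by_cases hx0 : x = 0
  · exact Or.inl hx0
  right
  apply lt_of_r1_lt
  simp only [vN, r1_pt, r1_zero]
  exact div_pos_of_neg_of_neg (Real.log_neg (norm_pos_iff.2 hx0) hx) (Real.log_neg h0 h1)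

theorem vN_mu : (vN h0 h1).v μ = pt 1 0 := by
  simp only [vN]
  rw [div_self (Real.log_neg h0 h1).ne]

theorem vN_rpow {s : K} {β : ℝ} (hs : ‖s‖ = ‖μ‖ ^ β) : (vN h0 h1).v s = pt β 0 := by
  simp only [vN]
  rw [hs, Real.log_rpow h0, mul_div_assoc, div_self (Real.log_neg h0 h1).ne, mul_one]

/-- the local coordinates -/
noncomputable def tF (s : K) (P : Fin 3 → K) : K := P 2 / P 1 / s

/-- the local coordinates -/
noncomputable def yF (k : ℕ) (μ s : K) (P : Fin 3 → K) : K :=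
  (P 2 / P 1 / s) ^ k / (μ ^ 3 * s) *
    (1 + (P 2 / P 1) ^ 3 + (μ / (P 2 / P 1)) ^ 3 * (1 + 3 * (P 2 / P 1) ^ 3) -
      P 0 / P 1 * (P 2 / P 1) / μ)

theorem ptY_coord (k : ℕ) {μ s : K} (hμ : μ ≠ 0) (hs : s ≠ 0) {P : Fin 3 → K} (h1 : P 1 ≠ 0)
    (h2 : P 2 ≠ 0) (j : Fin 3) : P 1 * ptY k μ s (tF s P) (yF k μ s P) j = P j := by
  have ht : P 2 / P 1 ≠ 0 := div_ne_zero h2 h1
  unfold ptY tF yF
  obtain ⟨z, hz⟩ : ∃ z, z = P 2 / P 1 := ⟨_, rfl⟩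
  rw [← hz] at ht ⊢
  have hzs : (z / s) ^ k ≠ 0 := pow_ne_zero _ (div_ne_zero ht hs)
  fin_cases j
  · change P 1 * (μ / s * (z / s)⁻¹ * (1 + (s * (z / s)) ^ 3 +
      (μ / s * (z / s)⁻¹) ^ 3 * (1 + 3 * (s * (z / s)) ^ 3) - μ ^ 3 * s * ((z / s)⁻¹) ^ k *
      ((z / s) ^ k / (μ ^ 3 * s) * (1 + z ^ 3 + (μ / z) ^ 3 * (1 + 3 * z ^ 3) -
        P 0 / P 1 * z / μ)))) = P 0
    have e1 : s * (z / s) = z := by field_simp
    have e2 : μ / s * (z / s)⁻¹ = μ / z := by field_simp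
    have e3 : ∀ X : K, μ ^ 3 * s * ((z / s)⁻¹) ^ k * ((z / s) ^ k / (μ ^ 3 * s) * X) = X := by
      intro X
      rw [inv_pow]
      field_simp
    rw [e1, e2, e3]
    have e4 : μ / z * (1 + z ^ 3 + (μ / z) ^ 3 * (1 + 3 * z ^ 3) -
        (1 + z ^ 3 + (μ / z) ^ 3 * (1 + 3 * z ^ 3) - P 0 / P 1 * z / μ)) = P 0 / P 1 := by
      have : 1 + z ^ 3 + (μ / z) ^ 3 * (1 + 3 * z ^ 3) -
        (1 + z ^ 3 + (μ / z) ^ 3 * (1 + 3 * z ^ 3) - P 0 / P 1 * z / μ) = P 0 / P 1 * z / μ := by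
        ring
      rw [this]
      field_simp
    rw [e4]
    field_simp
  · change P 1 * 1 = P 1
    rw [mul_one]
  · change P 1 * (s * (z / s)) = P 2
    rw [hz]
    field_simp

theorem tF_ptY (k : ℕ) {μ s t y : K} (hs : s ≠ 0) : tF s (ptY k μ s t y) = t := by
  unfold tF
  change s * t / 1 / s = t
  field_simp

theorem yF_ptY (k : ℕ) {μ s t y : K} (hμ : μ ≠ 0) (hs : s ≠ 0) (ht : t ≠ 0) :
    yF k μ s (ptY k μ s t y) = y := by
  unfold yF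
  have e0 : (ptY k μ s t y) 2 / (ptY k μ s t y) 1 = s * t := by
    change s * t / 1 = s * t
    rw [div_one]
  have e1 : (ptY k μ s t y) 0 / (ptY k μ s t y) 1 = μ / s * t⁻¹ * (1 + (s * t) ^ 3 +
      (μ / s * t⁻¹) ^ 3 * (1 + 3 * (s * t) ^ 3) - μ ^ 3 * s * (t⁻¹) ^ k * y) := by
    change _ / (1 : K) = _
    rw [div_one]
    rfl
  rw [e0, e1]
  have htk : t ^ k ≠ 0 := pow_ne_zero _ ht
  have e2 : s * t / s = t := by field_simp
  have e3 : μ / (s * t) = μ / s * t⁻¹ := by field_simp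
  have e4 : ∀ X : K, μ / s * t⁻¹ * X * (s * t) / μ = X := by
    intro X; field_simp
  rw [e2, e3, e4, inv_pow]
  have e5 : 1 + (s * t) ^ 3 + (μ / s * t⁻¹) ^ 3 * (1 + 3 * (s * t) ^ 3) -
      (1 + (s * t) ^ 3 + (μ / s * t⁻¹) ^ 3 * (1 + 3 * (s * t) ^ 3) -
        μ ^ 3 * s * (t ^ k)⁻¹ * y) = μ ^ 3 * s * (t ^ k)⁻¹ * y := by ring
  rw [e5]
  field_simp

include h0 h1 in
/-- Nagata's inequality for points near the explicit ones -/
theorem near {n : ℕ} (hn : 9 < n) (hsq : ¬ IsSquare n) {s : K} (hs : ‖s‖ = ‖μ‖ ^ bet n)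
    {c y : Fin n → K} (hc1 : ∀ i, ‖c i‖ = 1) (hc2 : ∀ i j, i ≠ j → ‖c i - c j‖ = 1)
    (hy : ∀ i, ‖y i - 1‖ < 1) (m : Fin n → ℕ) {F : MvPolynomial (Fin 3) K} {d : ℕ} (hd : 0 < d)
    (hF : F.IsHomogeneous d) (hF0 : F ≠ 0)
    (hm : ∀ i, MultAt (ptY (⌊3 * √(n : ℝ)⌋₊ - 5) μ s (c i) (y i)) F (m i)) :
    ∑ i, (m i : ℝ) < d * √(n : ℝ) := by
  have hirr : Irrational (√(n : ℝ)) := by
    rw [irrational_sqrt_natCast_iff]
    exact hsq
  obtain ⟨b1, b2, b3, hK⟩ := bet_facts hn hirr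
  have hμ : μ ≠ 0 := norm_pos_iff.1 h0
  have hs0 : s ≠ 0 := by
    rw [← norm_pos_iff, hs]
    exact Real.rpow_pos_of_pos h0 _
  have hne : ∀ x : K, ‖x‖ = 1 → x ≠ 0 := by
    intro x hx h
    rw [h, norm_zero] at hx
    exact zero_ne_one hx
  refine nonsquare_at hn hirr m hd ?_
  exact crit_K2 (v0 := vN h0 h1) (ctxs_of_real (vN_real h0 h1)) (vN_real h0 h1) b1 b2 b3 hμ
    (vN_mu h0 h1) hs0 (vN_rpow h0 h1 hs) _ (fun i => hne _ (hc1 i)) (fun i => vN_one h0 h1 (hc1 i))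
    (fun i j hij => ⟨hne _ (hc2 i j hij), vN_one h0 h1 (hc2 i j hij)⟩)
    (fun i => vN_pos h0 h1 (hy i)) m hF hF0 hm

end Norm

end Pool.Agent.Y206.V
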