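import Pool.Agent.Y206.V.Red

set_option autoImplicit false
set_option linter.unusedSectionVars false
set_option linter.unusedVariables false

/-!
# The base field
-/

namespace Pool.Agent.Y206.V

open Pool.Agent.Y206

universe u w

/-- additive maps to `Gam` -/
noncomputable def wt2 (θ1 θ2 : ℝ) : ℕ × ℕ →+ Gam where
  toFun p := pt 0 (p.1 * θ1 + p.2 * θ2)
  map_zero' := gam_ext (by simp) (by simp)
  map_add' := by
    intro p q
    exact gam_ext (by simp) (by simp only [r2_add, r2_pt, Prod.fst_add, Prod.snd_add]; push_cast; ring)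

theorem indW2 {K : Type u} [Field K] {v0 : Val K} (hv0 : RealV v0) {θ1 θ2 : ℝ}
    (h : IndT θ1 θ2) : IndW v0 (wt2 θ1 θ2) := by
  intro a b ha hb p q hpq
  have h1 := congrArg r2 hpq
  simp only [r2_add, hv0 a ha, hv0 b hb, zero_add] at h1
  change ((p.1 : ℝ) * θ1 + p.2 * θ2) = (q.1 : ℝ) * θ1 + q.2 * θ2 at h1
  obtain ⟨h2, h3⟩ := h (p.1 : ℤ) (q.1 : ℤ) p.2 q.2 (by exact_mod_cast h1)
  exact Prod.ext (by exact_mod_cast h2) h3

theorem ctxs_of_real {K : Type u} [Field K] {v0 : Val K} (hv0 : RealV v0) : Ctxs K v0 := by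
  intro θ1 θ2 hθ
  have hI := indW2 hv0 hθ
  have hinj : Function.Injective (algebraMap (AddMonoidAlgebra K (ℕ × ℕ))
    (FractionRing (AddMonoidAlgebra K (ℕ × ℕ)))) := IsFractionRing.injective _ _
  have hne : ∀ (p : ℕ × ℕ) {a : K}, a ≠ 0 →
      (AddMonoidAlgebra.single p a : AddMonoidAlgebra K (ℕ × ℕ)) ≠ 0 := by
    intro p a ha h
    apply ha
    have := congrArg (fun x : AddMonoidAlgebra K (ℕ × ℕ) => x.coeff p) h
    simpa using this
  have hval : ∀ (p : ℕ × ℕ) {a : K}, a ≠ 0 →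
      (valF (valM v0 (wt2 θ1 θ2) hI) (FractionRing (AddMonoidAlgebra K (ℕ × ℕ)))).v
        (algebraMap _ _ (AddMonoidAlgebra.single p a)) = v0.v a + wt2 θ1 θ2 p := by
    intro p a ha
    rw [valF_algebraMap _ (hne p ha), valM_single hI p ha]
  refine ⟨FractionRing (AddMonoidAlgebra K (ℕ × ℕ)), inferInstance, ⟨{
    V := valF (valM v0 (wt2 θ1 θ2) hI) _
    io := (algebraMap (AddMonoidAlgebra K (ℕ × ℕ))
      (FractionRing (AddMonoidAlgebra K (ℕ × ℕ)))).comp AddMonoidAlgebra.singleZeroRingHom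
    vio := ?_
    ζ := algebraMap (AddMonoidAlgebra K (ℕ × ℕ))
      (FractionRing (AddMonoidAlgebra K (ℕ × ℕ))) (AddMonoidAlgebra.single (1, 0) (1 : K))
    η := algebraMap (AddMonoidAlgebra K (ℕ × ℕ))
      (FractionRing (AddMonoidAlgebra K (ℕ × ℕ))) (AddMonoidAlgebra.single (0, 1) (1 : K))
    ζ0 := ?_
    η0 := ?_
    vζ := ?_
    vη := ?_ }⟩⟩
  · intro c hc
    rw [RingHom.comp_apply]
    change (valF (valM v0 (wt2 θ1 θ2) hI) (FractionRing (AddMonoidAlgebra K (ℕ × ℕ)))).v
        (algebraMap _ _ (AddMonoidAlgebra.single 0 c)) = _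
    rw [hval 0 hc, map_zero, add_zero]
  · exact (map_ne_zero_iff _ hinj).2 (hne _ one_ne_zero)
  · exact (map_ne_zero_iff _ hinj).2 (hne _ one_ne_zero)
  · rw [hval _ one_ne_zero, v0.v_one, zero_add]
    exact gam_ext (by simp [wt2]) (by simp [wt2])
  · rw [hval _ one_ne_zero, v0.v_one, zero_add]
    exact gam_ext (by simp [wt2]) (by simp [wt2])

section R

variable {R : Type u} [CommRing R] [IsDomain R] [WfDvdMonoid R] {ϖ : R}

theorem finMul (hϖ : Prime ϖ) {a : R} (ha : a ≠ 0) : FiniteMultiplicity ϖ a :=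
  FiniteMultiplicity.of_not_isUnit hϖ.not_isUnit ha

/-- the valuation of a prime element -/
noncomputable def valR (hϖ : Prime ϖ) : Val R where
  v a := pt (multiplicity ϖ a) 0
  mul' := by
    intro x y hx hy
    rw [multiplicity_mul hϖ (finMul hϖ (mul_ne_zero hx hy))]
    exact gam_ext (by simp) (by simp)
  add' := by
    intro x y hx hy hxy
    have h1 : min (multiplicity ϖ x) (multiplicity ϖ y) ≤ multiplicity ϖ (x + y) := by
      apply (finMul hϖ hxy).le_multiplicity_of_pow_dvd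
      apply dvd_add
      · exact pow_dvd_of_le_multiplicity (min_le_left _ _)
      · exact pow_dvd_of_le_multiplicity (min_le_right _ _)
    have hmono : ∀ a b : ℕ, a ≤ b → pt (a : ℝ) 0 ≤ pt (b : ℝ) 0 := by
      intro a b hab
      rcases hab.lt_or_eq with h | h
      · apply le_of_lt
        apply lt_of_r1_lt
        simp only [r1_pt]
        exact_mod_cast h
      · rw [h]
    rcases le_total (multiplicity ϖ x) (multiplicity ϖ y) with h | h
    · rw [min_eq_left h] at h1
      exact (min_le_left _ _).trans (hmono _ _ h1)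
    · rw [min_eq_right h] at h1
      exact (min_le_right _ _).trans (hmono _ _ h1)

/-- weights -/
noncomputable def wt1 (β : ℝ) : ℕ →+ Gam where
  toFun p := pt (p * β) 0
  map_zero' := gam_ext (by simp) (by simp)
  map_add' := by
    intro p q
    exact gam_ext (by simp only [r1_add, r1_pt]; push_cast; ring) (by simp)

theorem indW1 (hϖ : Prime ϖ) {β : ℝ} (hβ : Irrational β) : IndW (valR hϖ) (wt1 β) := by
  intro a b ha hb p q hpq
  have h1 := congrArg r1 hpq
  simp only [r1_add] at h1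
  change ((multiplicity ϖ a : ℕ) : ℝ) + (p : ℝ) * β = ((multiplicity ϖ b : ℕ) : ℝ) + (q : ℝ) * β at h1
  exact (irr_ind hβ (multiplicity ϖ a : ℤ) (multiplicity ϖ b : ℤ) p q (by exact_mod_cast h1)).2

/-- the ring of polynomials -/
abbrev AR (R : Type u) [CommRing R] := AddMonoidAlgebra R ℕ

/-- the base field -/
abbrev KK (R : Type u) [CommRing R] [IsDomain R] := FractionRing (AR R)

/-- the valuation of the base field -/
noncomputable def vK (hϖ : Prime ϖ) {β : ℝ} (hβ : Irrational β) : Val (KK R) :=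
  valF (valM (valR hϖ) (wt1 β) (indW1 hϖ hβ)) _

/-- the element of the base field -/
noncomputable def emb (p : ℕ) (a : R) : KK R := algebraMap (AR R) _ (AddMonoidAlgebra.single p a)

theorem single_ne {p : ℕ} {a : R} (ha : a ≠ 0) : (AddMonoidAlgebra.single p a : AR R) ≠ 0 := by
  intro h
  apply ha
  have := congrArg (fun x : AR R => x.coeff p) h
  simpa using this

theorem emb_ne {p : ℕ} {a : R} (ha : a ≠ 0) : emb p a ≠ 0 :=
  (map_ne_zero_iff _ (IsFractionRing.injective (AR R) (KK R))).2 (single_ne ha)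

theorem vK_emb (hϖ : Prime ϖ) {β : ℝ} (hβ : Irrational β) (p : ℕ) {a : R} (ha : a ≠ 0) :
    (vK hϖ hβ).v (emb p a) = pt (multiplicity ϖ a + p * β) 0 := by
  unfold vK emb
  rw [valF_algebraMap _ (single_ne ha), valM_single _ p ha]
  exact gam_ext (by simp [valR, wt1]) (by simp [valR, wt1])

theorem realV_M (hϖ : Prime ϖ) {β : ℝ} (hβ : Irrational β) {x : AR R} (hx : x ≠ 0) :
    r2 ((valM (valR hϖ) (wt1 β) (indW1 hϖ hβ)).v x) = 0 := by
  obtain ⟨p, hp⟩ := exists_lead (indW1 hϖ hβ) hx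
  change r2 (vM _ _ x) = 0
  rw [vM_eq hp]
  simp [valR, wt1]

theorem realV (hϖ : Prime ϖ) {β : ℝ} (hβ : Irrational β) : RealV (vK hϖ hβ) := by
  intro x hx
  obtain ⟨a, b, hb, rfl⟩ := IsFractionRing.div_surjective (A := AR R) x
  have hb := nonZeroDivisors.ne_zero hb
  have ha : a ≠ 0 := by rintro rfl; simp at hx
  unfold vK
  change r2 (vF _ _ _) = 0
  rw [vF_eq _ ha hb, r2_sub, realV_M hϖ hβ ha, realV_M hϖ hβ hb, sub_zero]

end R

end Pool.Agent.Y206.V
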