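import Pool.Agent.Y206.V.Patch

set_option autoImplicit false
set_option linter.unusedSectionVars false
set_option linter.unusedVariables false

/-!
# The window theorem over a valued field
-/

namespace Pool.Agent.Y206.V

open Pool.Agent.Y206

variable {K H : Type*} [Field K] [Field H] {v0 : Val K} {θ1 θ2 : ℝ} (C : Ctx K H v0 θ1 θ2)

/-- independence of the infinitesimal parts -/
def IndT (θ1 θ2 : ℝ) : Prop :=
  ∀ (h h' : ℤ) (j j' : ℕ), (h : ℝ) * θ1 + j * θ2 = (h' : ℝ) * θ1 + j' * θ2 → h = h' ∧ j = j'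

/-- the common data of the places -/
structure Data (μ : K) (z : H) (β : ℝ) : Prop where
  real : RealV v0
  μ0 : μ ≠ 0
  vμ : v0.v μ = pt 1 0
  z0 : z ≠ 0
  vz : C.V.v z = pt β θ1
  b0 : 0 < β
  b1 : β < 3 / 7
  ind : IndT θ1 θ2

/-- the cubic -/
noncomputable def gg (μ : K) (z x : H) : H :=
  x ^ 3 - x * z * (C.io μ)⁻¹ + 1 + z ^ 3

/-- a standard place -/
structure BPlace (μ : K) (z : H) (β w : ℝ) (x : H) : Prop where
  x0 : x ≠ 0
  ox : C.V.v x = pt (1 - β) (-θ1)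
  g0 : gg C μ z x ≠ 0
  og : C.V.v (gg C μ z x) = pt w θ2

variable {C} {μ : K} {z : H} {β : ℝ}

theorem Data.io0 (D : Data C μ z β) : C.io μ ≠ 0 := (map_ne_zero C.io).2 D.μ0

theorem isPlace_of (D : Data C μ z β) {w : ℝ} {x : H} (h : BPlace C μ z β w x) :
    IsPlace C μ x z (gg C μ z x) where
  hz := D.z0
  hg := h.g0
  rel := by
    have h1 := D.io0
    have h2 := D.z0
    unfold gg
    field_simp
    ring
  small := by
    refine ⟨1 - β, ?_, ?_⟩
    · have := Val.Big.self (V := C.V) x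
      rw [h.ox] at this
      exact this
    · rw [D.vz]
      simp only [r1_pt]
      linarith [D.b0, D.b1]
  ind := by
    intro p q hpq
    rw [D.vz, h.og] at hpq
    simp only [r2_pt] at hpq
    obtain ⟨h1, h2⟩ := D.ind _ _ _ _ hpq
    exact Prod.ext h1 h2

theorem isPlace_shift (D : Data C μ z β) {w : ℝ} {x : H} (h : BPlace C μ z β w x) :
    IsPlace C μ (z / x) x⁻¹ (gg C μ z x / x ^ 3) ∧ C.V.v (x⁻¹) = pt (β - 1) θ1 ∧
      C.V.v (gg C μ z x / x ^ 3) = pt (w - 3 * (1 - β)) (θ2 + 3 * θ1) := by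
  have hx := h.x0
  have hz := D.z0
  have hz' : C.V.v (x⁻¹) = pt (β - 1) θ1 := by
    rw [v_inv _ hx, h.ox]
    exact gam_ext (by simp) (by simp)
  have hg' : C.V.v (gg C μ z x / x ^ 3) = pt (w - 3 * (1 - β)) (θ2 + 3 * θ1) := by
    rw [v_div _ h.g0 (pow_ne_zero _ hx), h.og, C.V.v_pow hx, h.ox]
    exact gam_ext (by simp only [r1_sub, r1_pt, r1_nsmul]; push_cast; ring)
      (by simp only [r2_sub, r2_pt, r2_nsmul]; push_cast; ring)
  refine ⟨⟨inv_ne_zero hx, div_ne_zero h.g0 (pow_ne_zero _ hx), ?_, ?_, ?_⟩, hz', hg'⟩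
  · have h1 := D.io0
    unfold gg
    field_simp
    ring
  · refine ⟨2 * β - 1, ?_, ?_⟩
    · have := Val.Big.self (V := C.V) (z / x)
      rw [v_div _ hz hx, h.ox, D.vz] at this
      refine this.mono (le_of_eq ?_)
      simp only [r1_sub, r1_pt]
      ring
    · rw [hz']
      simp only [r1_pt]
      linarith [D.b0]
  · intro p q hpq
    rw [hz', hg'] at hpq
    simp only [r2_pt] at hpq
    have h1 : ((p.1 + 3 * (p.2 : ℤ) : ℤ) : ℝ) * θ1 + p.2 * θ2 =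
        ((q.1 + 3 * (q.2 : ℤ) : ℤ) : ℝ) * θ1 + q.2 * θ2 := by
      push_cast
      linarith
    obtain ⟨h2, h3⟩ := D.ind _ _ _ _ h1
    refine Prod.ext ?_ h3
    rw [h3] at h2
    linarith

/-- cyclic permutation of the variables -/
noncomputable def cyc (R : MvPolynomial (Fin 3) K) : MvPolynomial (Fin 3) K :=
  MvPolynomial.rename (fun i : Fin 3 => i + 1) R

theorem cyc_hom {R : MvPolynomial (Fin 3) K} {d : ℕ} (hR : R.IsHomogeneous d) :
    (cyc R).IsHomogeneous d := hR.rename_isHomogeneous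

theorem cyc3 (R : MvPolynomial (Fin 3) K) : cyc (cyc (cyc R)) = R := by
  unfold cyc
  rw [MvPolynomial.rename_rename, MvPolynomial.rename_rename]
  have : ((fun i : Fin 3 => i + 1) ∘ fun i : Fin 3 => i + 1) ∘ (fun i : Fin 3 => i + 1) = id := by
    funext i
    fin_cases i <;> rfl
  rw [this]
  exact MvPolynomial.rename_id_apply R

theorem evR_cyc (io : K →+* H) {R : MvPolynomial (Fin 3) K} {d : ℕ} (hR : R.IsHomogeneous d)
    {x z : H} (hx : x ≠ 0) : evR io R x z = x ^ d * evR io (cyc R) (z / x) x⁻¹ := by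
  unfold evR cyc
  rw [MvPolynomial.eval₂_rename, MvPolynomial.eval₂_eq', MvPolynomial.eval₂_eq', Finset.mul_sum]
  refine Finset.sum_congr rfl fun s hs => ?_
  have hdeg : s 0 + s 1 + s 2 = d := by
    have := hR (MvPolynomial.mem_support_iff.1 hs)
    rw [← this, Finsupp.weight_apply, Finsupp.sum_fintype _ _ (by simp), Fin.sum_univ_three]
    simp
  rw [← hdeg]
  simp only [Fin.prod_univ_three, Function.comp_apply]
  change io (MvPolynomial.coeff s R) * (x ^ s 0 * 1 ^ s 1 * z ^ s 2) =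
    x ^ (s 0 + s 1 + s 2) * (io (MvPolynomial.coeff s R) *
      (1 ^ s 0 * (x⁻¹) ^ s 1 * (z / x) ^ s 2))
  rw [one_pow, one_pow, inv_pow, div_pow]
  field_simp
  ring

theorem evR_shift_order {R : MvPolynomial (Fin 3) K} {d : ℕ} (hR : R.IsHomogeneous d)
    {w : ℝ} {x : H} (h : BPlace C μ z β w x) (h0 : evR C.io R x z ≠ 0) :
    evR C.io (cyc R) (z / x) x⁻¹ ≠ 0 ∧ C.V.v (evR C.io (cyc R) (z / x) x⁻¹) =
      C.V.v (evR C.io R x z) - d • pt (1 - β) (-θ1) := by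
  have e := evR_cyc C.io hR (z := z) h.x0
  have h1 : evR C.io (cyc R) (z / x) x⁻¹ ≠ 0 := by
    intro h1
    rw [h1, mul_zero] at e
    exact h0 e
  refine ⟨h1, ?_⟩
  rw [e, C.V.mul' (pow_ne_zero _ h.x0) h1, C.V.v_pow h.x0, h.ox]
  abel

theorem evR_shift_ne {R : MvPolynomial (Fin 3) K} {d : ℕ} (hR : R.IsHomogeneous d)
    {w : ℝ} {x : H} (h : BPlace C μ z β w x)
    (h0 : evR C.io (cyc R) (z / x) x⁻¹ ≠ 0) : evR C.io R x z ≠ 0 := by
  rw [evR_cyc C.io hR (z := z) h.x0]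
  exact mul_ne_zero (pow_ne_zero _ h.x0) h0

theorem link_fwd (D : Data C μ z β) {w w' : ℝ} {x x' : H}
    (hx : BPlace C μ z β w x) (hx' : BPlace C μ z β w' x') {Q : MvPolynomial (Fin 3) K} {d : ℕ}
    (hQ : Q.IsHomogeneous d) (h0 : evR C.io Q x z ≠ 0) :
    evR C.io (cyc Q) x' z ≠ 0 ∧ ∀ (h : ℤ) (j : ℕ),
      r2 (C.V.v (evR C.io Q x z)) = h * θ1 + j * θ2 →
      r1 (C.V.v (evR C.io (cyc Q) x' z)) ≤ r1 (C.V.v (evR C.io Q x z)) - d * (1 - β) +
        (h + d - 3 * j) + j * (w' - w + 3 - 3 * β) := by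
  obtain ⟨hA, hzA, hgA⟩ := isPlace_shift D hx
  have hB := isPlace_of D hx'
  obtain ⟨h1, h2⟩ := evR_shift_order hQ hx h0
  obtain ⟨h3, h', j', h4, h5⟩ := compare D.real D.μ0 D.vμ hA hB (cyc Q) h1
  refine ⟨h3, fun h j hhj => ?_⟩
  rw [h2, hzA, hgA] at h4 h5
  simp only [r1_sub, r2_sub, r1_nsmul, r2_nsmul, r1_pt, r2_pt] at h4 h5
  rw [hhj] at h4
  have h6 : ((h' + 3 * (j' : ℤ) : ℤ) : ℝ) * θ1 + j' * θ2 = ((h + d : ℤ) : ℝ) * θ1 + j * θ2 := by
    push_cast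
    linarith
  obtain ⟨h7, h8⟩ := D.ind _ _ _ _ h6
  rw [h8] at h7 h5
  have h9 : (h' : ℝ) = h + d - 3 * j := by
    have : h' = h + d - 3 * (j : ℤ) := by linarith
    rw [this]; push_cast; ring
  rw [h9] at h5
  have e1 : r1 (C.V.v z) = β := by rw [D.vz]; rfl
  have e2 : r1 (C.V.v (gg C μ z x')) = w' := by rw [hx'.og]; rfl
  rw [e1, e2] at h5
  linarith

theorem link_bwd (D : Data C μ z β) {w w' : ℝ} {x x' : H}
    (hx : BPlace C μ z β w x) (hx' : BPlace C μ z β w' x') {Q : MvPolynomial (Fin 3) K} {d : ℕ}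
    (hQ : Q.IsHomogeneous d) (h0 : evR C.io (cyc Q) x' z ≠ 0) :
    ∀ (h : ℤ) (j : ℕ),
      r2 (C.V.v (evR C.io (cyc Q) x' z)) = h * θ1 + j * θ2 →
      r1 (C.V.v (evR C.io Q x z)) - d * (1 - β) ≤ r1 (C.V.v (evR C.io (cyc Q) x' z)) -
        h + j * (w - 3 + 3 * β - w') := by
  obtain ⟨hA, hzA, hgA⟩ := isPlace_shift D hx
  have hB := isPlace_of D hx'
  obtain ⟨h3, h', j', h4, h5⟩ := compare D.real D.μ0 D.vμ hB hA (cyc Q) h0
  have h1 := evR_shift_ne hQ hx h3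
  obtain ⟨-, h2⟩ := evR_shift_order hQ hx h1
  intro h j hhj
  rw [h2, hzA, hgA] at h5
  rw [hhj, D.vz, hx'.og] at h4
  simp only [r2_pt] at h4
  simp only [r1_sub, r1_nsmul, r1_pt] at h5
  obtain ⟨h7, h8⟩ := D.ind _ _ _ _ h4
  rw [← h7, ← h8] at h5
  have e1 : r1 (C.V.v z) = β := by rw [D.vz]; rfl
  have e2 : r1 (C.V.v (gg C μ z x')) = w' := by rw [hx'.og]; rfl
  rw [e1, e2] at h5
  linarith

theorem exponents (D : Data C μ z β) {w : ℝ} {x : H}
    (hx : BPlace C μ z β w x) (Q : MvPolynomial (Fin 3) K)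
    (h0 : evR C.io Q x z ≠ 0) : ∃ (h : ℤ) (j : ℕ),
      r2 (C.V.v (evR C.io Q x z)) = h * θ1 + j * θ2 := by
  have hB := isPlace_of D hx
  obtain ⟨-, h, j, h1, -⟩ := compare D.real D.μ0 D.vμ hB hB Q h0
  refine ⟨h, j, ?_⟩
  rw [h1, D.vz, hx.og]
  rfl

/-- **Window theorem** -/
theorem window (D : Data C μ z β) {w0 : ℝ} {x0 x1 : H}
    (hx0 : BPlace C μ z β w0 x0) (hx1 : BPlace C μ z β (w0 - 3) x1)
    {Q : MvPolynomial (Fin 3) K} {d : ℕ} (hQ : Q.IsHomogeneous d)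
    (h0 : evR C.io Q x0 z ≠ 0) (h : ℤ) (j : ℕ)
    (hhj : r2 (C.V.v (evR C.io Q x0 z)) = h * θ1 + j * θ2) :
    -(1 + β) * (d - 3 * j) ≤ h ∧ (h : ℝ) ≤ (2 - β) * (d - 3 * j) := by
  obtain ⟨n1, P0⟩ := link_fwd D hx0 hx1 hQ h0
  have M0 := link_bwd D hx0 hx1 hQ n1
  obtain ⟨n2, P1⟩ := link_fwd D hx1 hx1 (cyc_hom hQ) n1
  have M1 := link_bwd D hx1 hx1 (cyc_hom hQ) n2
  obtain ⟨n3, P2⟩ := link_fwd D hx1 hx0 (cyc_hom (cyc_hom hQ)) n2
  have M2 := link_bwd D hx1 hx0 (cyc_hom (cyc_hom hQ)) n3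
  rw [cyc3] at P2 M2
  obtain ⟨h1, j1, e1⟩ := exponents D hx1 (cyc Q) n1
  obtain ⟨h2, j2, e2⟩ := exponents D hx1 (cyc (cyc Q)) n2
  have p0 := P0 h j hhj
  have m0 := M0 h1 j1 e1
  have p1 := P1 h1 j1 e1
  have m1 := M1 h2 j2 e2
  have p2 := P2 h2 j2 e2
  have m2 := M2 h j hhj
  constructor
  · linarith
  · linarith

/-- the reciprocal of the second coordinate, scaled -/
noncomputable def mm (C : Ctx K H v0 θ1 θ2) (μ : K) (z : H) : H := C.io μ / z

theorem mm_ne (D : Data C μ z β) : mm C μ z ≠ 0 := div_ne_zero D.io0 D.z0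

theorem mm_zz (D : Data C μ z β) : mm C μ z * z = C.io μ := div_mul_cancel₀ _ D.z0

theorem gg_mm (D : Data C μ z β) (y : H) :
    gg C μ z (mm C μ z * y) = (mm C μ z * y) ^ 3 - y + 1 + z ^ 3 := by
  have h1 := D.io0
  have h2 := D.z0
  unfold gg mm
  field_simp

theorem mm_order (D : Data C μ z β) : C.V.v (mm C μ z) = pt (1 - β) (-θ1) := by
  rw [mm, v_div _ D.io0 D.z0, C.vio _ D.μ0, D.vμ, D.vz]
  exact gam_ext (by simp) (by simp)

theorem big_mm (D : Data C μ z β) : C.V.Big (1 - β) (mm C μ z) := by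
  right
  rw [mm_order D]
  simp

theorem big_zz (D : Data C μ z β) : C.V.Big β z := by
  right
  rw [D.vz]
  simp

theorem unit_order {y : H} {r : ℝ} (hr : 0 < r) (h : C.V.Big r (y - 1)) :
    y ≠ 0 ∧ C.V.v y = 0 := by
  have := Val.order_of_error (V := C.V) (p := (1 : H)) (r := r) one_ne_zero
    (by rw [C.V.v_one]; simpa using hr) h
  rw [C.V.v_one] at this
  exact this

theorem bPlace_of (D : Data C μ z β) {w : ℝ} {y t : H} {r r' : ℝ} (hr : 0 < r)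
    (hy : C.V.Big r (y - 1))
    (ht0 : t ≠ 0) (ht : C.V.v t = pt w θ2)
    (hr' : w < r')
    (h : C.V.Big r' (gg C μ z (mm C μ z * y) - t)) :
    BPlace C μ z β w (mm C μ z * y) := by
  obtain ⟨h1, h2⟩ := unit_order hr hy
  obtain ⟨h5, h6⟩ := Val.order_of_error ht0 (by rw [ht]; exact hr') h
  refine ⟨mul_ne_zero (mm_ne D) h1, ?_, h5, by rw [h6, ht]⟩
  rw [C.V.mul' (mm_ne D) h1, mm_order D, h2, add_zero]

theorem big_one_add {y : H} {r : ℝ} (hr : 0 ≤ r) (h : C.V.Big r y) : C.V.Big 0 (1 + y) :=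
  Val.Big.one.add (h.mono hr)

/-- the intermediate place -/
theorem place1 (D : Data C μ z β) {t : H} (ht0 : t ≠ 0) (ht : C.V.v t = pt β θ2) :
    BPlace C μ z β β (mm C μ z * (1 - t)) := by
  have hβ0 := D.b0
  have hβ := D.b1
  have hy : C.V.Big β t := by
    right; rw [ht]; simp
  refine bPlace_of D hβ0 ?_ ht0 ht (r' := min (3 * (1 - β)) (3 * β)) ?_ ?_
  · have e : (1 : H) - t - 1 = -t := by ring
    rw [e]; exact hy.neg
  · rw [lt_min_iff]
    constructor <;> linarith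
  · rw [gg_mm D]
    have e : (mm C μ z * (1 - t)) ^ 3 -
        (1 - t) + 1 + z ^ 3 - t =
        mm C μ z ^ 3 * (1 + -t) ^ 3 + z ^ 3 := by
      ring
    rw [e]
    refine Val.Big.add ?_ ?_
    · have h1 := ((big_mm D).pow 3).mul ((big_one_add hβ0.le hy.neg).pow 3)
      refine h1.mono ?_
      push_cast
      linarith [min_le_left (3 * (1 - β)) (3 * β)]
    · refine ((big_zz D).pow 3).mono ?_
      push_cast
      linarith [min_le_right (3 * (1 - β)) (3 * β)]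

/-- the main place -/
theorem place0 (D : Data C μ z β) {y : H} (ht0 : y ≠ 0) (ht : C.V.v y = pt (3 + β) θ2) :
    BPlace C μ z β (3 + β) (mm C μ z * (1 + z ^ 3 + mm C μ z ^ 3 * (1 + 3 * z ^ 3) - y)) := by
  have hβ0 := D.b0
  have hβ := D.b1
  obtain ⟨m, hm⟩ : ∃ m : H, m = mm C μ z := ⟨_, rfl⟩
  have hy : C.V.Big (3 + β) y := by
    right; rw [ht]; simp
  have hzb : C.V.Big (3 * β) (z ^ 3) :=
    ((big_zz D).pow 3).mono (le_of_eq (by push_cast; ring))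
  have hmb : C.V.Big (3 * (1 - β)) (m ^ 3) := by
    rw [hm]
    refine ((big_mm D).pow 3).mono (le_of_eq (by push_cast; ring))
  have hthree : C.V.Big 0 (3 : H) := by
    have e : (3 : H) = 1 + 1 + 1 := by norm_num
    rw [e]
    exact (Val.Big.one.add Val.Big.one).add Val.Big.one
  have h3z : C.V.Big (3 * β) (3 * z ^ 3) := (hthree.mul hzb).mono (by linarith)
  have hz1 : C.V.Big 0 (1 + 3 * z ^ 3) := big_one_add (by linarith) h3z
  have hz2 : C.V.Big 0 (1 + z ^ 3) := big_one_add (by linarith) hzb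
  obtain ⟨δ, hδ⟩ : ∃ δ : H, δ = m ^ 3 * (1 + 3 * z ^ 3) - y := ⟨_, rfl⟩
  have hδb : C.V.Big (3 * (1 - β)) δ := by
    rw [hδ]
    exact ((hmb.mul hz1).mono (by linarith)).sub (hy.mono (by linarith))
  have hδ0 : C.V.Big 0 δ := hδb.mono (by linarith)
  refine bPlace_of D (r := min (3 * β) (3 * (1 - β))) ?_ ?_ ht0 ht
    (r' := 3 * (1 - β) + min (6 * β) (3 * (1 - β))) ?_ ?_
  · rw [lt_min_iff]; constructor <;> linarith
  · rw [← hm]
    have e : 1 + z ^ 3 + m ^ 3 * (1 + 3 * z ^ 3) - y - 1 = z ^ 3 + δ := by rw [hδ]; ring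
    rw [e]
    exact (hzb.mono (min_le_left _ _)).add (hδb.mono (min_le_right _ _))
  · have : β + 3 * β < min (6 * β) (3 * (1 - β)) := by
      rw [lt_min_iff]; constructor <;> linarith
    linarith
  · rw [gg_mm D, ← hm]
    have e : (m * (1 + z ^ 3 + m ^ 3 * (1 + 3 * z ^ 3) - y)) ^ 3 -
        (1 + z ^ 3 + m ^ 3 * (1 + 3 * z ^ 3) - y) + 1 + z ^ 3 - y =
        m ^ 3 * (z ^ 3 * z ^ 3 * (3 + z ^ 3) + δ * (3 * ((1 + z ^ 3) * (1 + z ^ 3)) +
          3 * δ * (1 + z ^ 3) + δ * δ)) := by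
      rw [hδ]; ring
    rw [e]
    refine hmb.mul (Val.Big.add ?_ ?_)
    · have h1 : C.V.Big 0 (3 + z ^ 3) := hthree.add (hzb.mono (by linarith))
      refine ((hzb.mul hzb).mul h1).mono ?_
      linarith [min_le_left (6 * β) (3 * (1 - β))]
    · have h1 : C.V.Big 0 (3 * ((1 + z ^ 3) * (1 + z ^ 3)) + 3 * δ * (1 + z ^ 3) + δ * δ) := by
        refine Val.Big.add (Val.Big.add ?_ ?_) ?_
        · exact (hthree.mul (hz2.mul hz2)).mono (by linarith)
        · exact ((hthree.mul hδ0).mul hz2).mono (by linarith)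
        · exact (hδ0.mul hδ0).mono (by linarith)
      refine (hδb.mul h1).mono ?_
      linarith [min_le_right (6 * β) (3 * (1 - β))]

end Pool.Agent.Y206.V
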