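import Pool.Agent.Y206.Mult

set_option autoImplicit false
set_option linter.unusedSectionVars false

/-!
# Columns, over any field
-/

namespace Pool.Agent.Y206.V

open Pool.Agent.Y206 Polynomial

section Lau

variable {κ : Type*} [Field κ]

/-- linear Laurent polynomials -/
theorem lin_eq {A : Type*} [CommRing A] (c : A) : (AddMonoidAlgebra.single (1 : ℤ) (1 : A) -
      AddMonoidAlgebra.single (0 : ℤ) c) = toLaurent (X - C c) := by
  rw [map_sub, toLaurent_X, toLaurent_C]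
  rfl

/-- divisibility of Laurent polynomials and polynomials -/
theorem dvd_toLaurent {f : κ[X]} {c : κ} (hc : c ≠ 0) (e : ℕ)
    (h : (AddMonoidAlgebra.single (1 : ℤ) (1 : κ) - AddMonoidAlgebra.single (0 : ℤ) c) ^ e ∣
      toLaurent f) : (X - C c) ^ e ∣ f := by
  obtain ⟨u, hu⟩ := h
  obtain ⟨M, w, hw⟩ := LaurentPolynomial.exists_T_pow u
  have h1 : f * X ^ M = (X - C c) ^ e * w := by
    apply Polynomial.toLaurent_injective
    rw [map_mul, map_mul, hw, toLaurent_X_pow, hu, lin_eq, map_pow, mul_assoc]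
  have h2 : (X - C c) ^ e ∣ f * X ^ M := ⟨_, h1⟩
  have h3 : IsCoprime ((X - C c) ^ e) (X ^ M : κ[X]) := by
    apply IsCoprime.pow
    have := isCoprime_X_sub_C_of_isUnit_sub (a := c) (b := (0 : κ))
      (by rw [sub_zero]; exact hc.isUnit)
    simpa using this
  exact h3.dvd_of_dvd_mul_right h2

theorem coeff_mul_T {A : Type*} [CommRing A] (φ : AddMonoidAlgebra A ℤ) (N : ℕ) (a : ℤ) :
    (φ * LaurentPolynomial.T (N : ℤ)).coeff a = φ.coeff (a - N) := by
  rw [LaurentPolynomial.T, AddMonoidAlgebra.coeff_mul_single_apply]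
  rw [mul_one, sub_eq_add_neg]

theorem coeff_toL {A : Type*} [CommRing A] (f : A[X]) (d : ℕ) :
    (toLaurent f).coeff (d : ℤ) = f.coeff d := by
  rw [LaurentPolynomial.coeff_toLaurent]
  exact Finsupp.mapDomain_apply Nat.cast_injective _ d

/-- the span of the exponents bounds the number of nonzero roots -/
theorem laurent_span {n : ℕ} {φ : AddMonoidAlgebra κ ℤ} (h0 : φ ≠ 0) {c : Fin n → κ}
    (hc : Function.Injective c) (hc0 : ∀ i, c i ≠ 0) (e : Fin n → ℕ)
    (hd : ∀ i, (AddMonoidAlgebra.single (1 : ℤ) (1 : κ) -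
      AddMonoidAlgebra.single (0 : ℤ) (c i)) ^ e i ∣ φ) :
    ∃ h1 h2 : ℤ, φ.coeff h1 ≠ 0 ∧ φ.coeff h2 ≠ 0 ∧ ((∑ i, e i : ℕ) : ℤ) ≤ h2 - h1 := by
  classical
  obtain ⟨N, f, hf⟩ := LaurentPolynomial.exists_T_pow φ
  have hf0 : f ≠ 0 := by
    intro h
    rw [h, map_zero] at hf
    have hu := LaurentPolynomial.isUnit_T (R := κ) N
    exact h0 ((hu.mul_left_eq_zero).1 hf.symm)
  have hdiv : ∀ i, (X - C (c i)) ^ e i ∣ f := by
    intro i
    apply dvd_toLaurent (hc0 i)
    rw [hf]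
    exact Dvd.dvd.mul_right (hd i) _
  have hprod : ∏ i, (X - C (c i)) ^ e i ∣ f := by
    apply Finset.prod_dvd_of_coprime
    · intro i _ j _ hij
      exact (pairwise_coprime_X_sub_C hc hij).pow
    · intro i _
      exact hdiv i
  have hX : (X : κ[X]) ^ f.natTrailingDegree ∣ f := by
    rw [X_pow_dvd_iff]
    intro d hd
    exact coeff_eq_zero_of_lt_natTrailingDegree hd
  obtain ⟨P, hP⟩ := hX
  have hP0 : P ≠ 0 := by
    intro h
    rw [h, mul_zero] at hP
    exact hf0 hP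
  have hcop : IsCoprime (∏ i, (X - C (c i)) ^ e i) (X ^ f.natTrailingDegree : κ[X]) := by
    apply IsCoprime.prod_left
    intro i _
    apply IsCoprime.pow
    have := isCoprime_X_sub_C_of_isUnit_sub (a := c i) (b := (0 : κ))
      (by rw [sub_zero]; exact (hc0 i).isUnit)
    simpa using this
  have h3 : ∏ i, (X - C (c i)) ^ e i ∣ P := by
    have h4 : ∏ i, (X - C (c i)) ^ e i ∣ X ^ f.natTrailingDegree * P := by
      rw [← hP]; exact hprod
    exact hcop.dvd_of_dvd_mul_left h4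
  have h5 : ∑ i, e i ≤ P.natDegree := by
    have h6 := natDegree_le_of_dvd h3 hP0
    rw [natDegree_prod _ _ fun i _ => pow_ne_zero _ (X_sub_C_ne_zero _)] at h6
    simpa using h6
  have h6 : f.natDegree = f.natTrailingDegree + P.natDegree := by
    conv_lhs => rw [hP]
    rw [natDegree_mul (pow_ne_zero _ X_ne_zero) hP0, natDegree_X_pow]
  have hco : ∀ d : ℕ, f.coeff d = φ.coeff ((d : ℤ) - N) := by
    intro d
    rw [← coeff_mul_T, ← hf, coeff_toL]
  refine ⟨(f.natTrailingDegree : ℤ) - N, (f.natDegree : ℤ) - N, ?_, ?_, ?_⟩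
  · rw [← hco]
    exact fun h => hf0 (trailingCoeff_eq_zero.1 h)
  · rw [← hco]
    exact fun h => hf0 (leadingCoeff_eq_zero.1 h)
  · rw [h6]
    push_cast
    have : ((∑ i, e i : ℕ) : ℤ) ≤ (P.natDegree : ℤ) := by exact_mod_cast h5
    push_cast at this
    linarith

/-- a column as a polynomial -/
noncomputable def colp (h : ℤ) : AddMonoidAlgebra κ (ℤ × ℕ) →+ κ[X] :=
  (Finsupp.liftAddHom (fun p : ℤ × ℕ =>
    if p.1 = h then ((monomial p.2 : κ →ₗ[κ] κ[X]) : κ →+ κ[X]) else 0)).comp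
    AddMonoidAlgebra.coeffAddEquiv.toAddMonoidHom

theorem colp_single (h : ℤ) (p : ℤ × ℕ) (u : κ) :
    colp h (AddMonoidAlgebra.single p u) = if p.1 = h then monomial p.2 u else 0 := by
  unfold colp
  by_cases hp : p.1 = h
  · simp [hp]
  · simp [hp]

theorem colp_coeff (h : ℤ) (g : AddMonoidAlgebra κ (ℤ × ℕ)) (j : ℕ) :
    (colp h g).coeff j = g.coeff (h, j) := by
  induction g using AddMonoidAlgebra.induction_linear with
  | zero => simp
  | add P Q hP hQ => rw [map_add, Polynomial.coeff_add, hP, hQ, AddMonoidAlgebra.coeff_add]; rfl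
  | single p u =>
    rw [colp_single, AddMonoidAlgebra.coeff_single, Finsupp.single_apply]
    by_cases hp : p.1 = h
    · rw [if_pos hp, Polynomial.coeff_monomial]
      by_cases hj : p.2 = j
      · rw [if_pos hj, if_pos (Prod.ext hp hj)]
      · rw [if_neg hj, if_neg]
        intro h2
        exact hj (congrArg Prod.snd h2)
    · rw [if_neg hp, Polynomial.coeff_zero, if_neg]
      intro h2
      exact hp (congrArg Prod.fst h2)

theorem Dr_coeff (r : ℕ) (h : ℤ) (g : AddMonoidAlgebra κ (ℤ × ℕ)) :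
    (Dr r g).coeff h = (taylor 1 (colp h g)).coeff r := by
  induction g using AddMonoidAlgebra.induction_linear with
  | zero => simp
  | add P Q hP hQ =>
    rw [map_add, map_add, map_add, Polynomial.coeff_add, ← hP, ← hQ, AddMonoidAlgebra.coeff_add]
    rfl
  | single p u =>
    rw [colp_single, Dr_single, AddMonoidAlgebra.coeff_single, Finsupp.single_apply]
    by_cases hp : p.1 = h
    · rw [if_pos hp, if_pos hp, taylor_monomial, coeff_C_mul, map_one, coeff_X_add_one_pow]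
    · rw [if_neg hp, if_neg hp]
      simp

theorem colp_span {G : κ[X]} {r : ℕ} (hG : G ≠ 0) (h : ∀ r' < r, (taylor 1 G).coeff r' = 0) :
    G.natTrailingDegree + r ≤ G.natDegree := by
  have h1 : (X - C 1) ^ r ∣ G := by
    rw [X_sub_C_pow_dvd_iff, X_pow_dvd_iff]
    intro d hd
    exact h d hd
  have h2 : (X : κ[X]) ^ G.natTrailingDegree ∣ G := by
    rw [X_pow_dvd_iff]
    intro d hd
    exact coeff_eq_zero_of_lt_natTrailingDegree hd
  obtain ⟨P, hP⟩ := h2
  have hP0 : P ≠ 0 := by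
    intro h0
    rw [h0, mul_zero] at hP
    exact hG hP
  have hcop : IsCoprime ((X - C 1) ^ r) (X ^ G.natTrailingDegree : κ[X]) := by
    apply IsCoprime.pow
    have := isCoprime_X_sub_C_of_isUnit_sub (a := (1 : κ)) (b := (0 : κ))
      (by rw [sub_zero]; exact isUnit_one)
    simpa using this
  have h3 : (X - C 1) ^ r ∣ P := by
    have h4 : (X - C 1) ^ r ∣ X ^ G.natTrailingDegree * P := by rw [← hP]; exact h1
    exact hcop.dvd_of_dvd_mul_left h4
  have h5 : r ≤ P.natDegree := by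
    have := natDegree_le_of_dvd h3 hP0
    rwa [natDegree_pow, natDegree_X_sub_C, mul_one] at this
  have h6 : G.natDegree = G.natTrailingDegree + P.natDegree := by
    conv_lhs => rw [hP]
    rw [natDegree_mul (pow_ne_zero _ X_ne_zero) hP0, natDegree_X_pow]
  omega

/-- **The column lemma.** -/
theorem columns {n : ℕ} {g : AddMonoidAlgebra κ (ℤ × ℕ)} (hg : g ≠ 0) {c : Fin n → κ}
    (hc : Function.Injective c) (hc0 : ∀ i, c i ≠ 0) (m : Fin n → ℕ)
    (hdiv : ∀ i r, (AddMonoidAlgebra.single (1 : ℤ) (1 : κ) -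
      AddMonoidAlgebra.single (0 : ℤ) (c i)) ^ (m i - r) ∣ Dr r g) :
    ∃ (r : ℕ) (h1 h2 : ℤ), ((∑ i, (m i - r) : ℕ) : ℤ) ≤ h2 - h1 ∧
      (∃ j1 j2 : ℕ, j1 + r ≤ j2 ∧ g.coeff (h1, j1) ≠ 0 ∧ g.coeff (h1, j2) ≠ 0) ∧
      ∃ j1 j2 : ℕ, j1 + r ≤ j2 ∧ g.coeff (h2, j1) ≠ 0 ∧ g.coeff (h2, j2) ≠ 0 := by
  classical
  have hex : ∃ r, Dr r g ≠ 0 := by
    by_contra hcon
    push Not at hcon
    apply hg
    apply AddMonoidAlgebra.coeff_eq_zero.1
    ext p
    have h1 : taylor 1 (colp p.1 g) = 0 := by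
      ext r
      rw [← Dr_coeff, hcon r]
      rfl
    have h2 : colp p.1 g = 0 := by
      apply taylor_injective (1 : κ)
      rw [h1, map_zero]
    have h3 := colp_coeff p.1 g p.2
    rw [h2] at h3
    exact h3.symm
  obtain ⟨r, hr, hmin⟩ : ∃ r, Dr r g ≠ 0 ∧ ∀ r' < r, Dr r' g = 0 := by
    refine ⟨Nat.find hex, Nat.find_spec hex, fun r' hr' => ?_⟩
    have := Nat.find_min hex hr'
    push Not at this
    exact this
  have key : ∀ h : ℤ, (Dr r g).coeff h ≠ 0 →
      ∃ j1 j2 : ℕ, j1 + r ≤ j2 ∧ g.coeff (h, j1) ≠ 0 ∧ g.coeff (h, j2) ≠ 0 := by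
    intro h hh
    rw [Dr_coeff] at hh
    have hG0 : colp h g ≠ 0 := by
      intro h0
      rw [h0, map_zero] at hh
      exact hh rfl
    have hlow : ∀ r' < r, (taylor 1 (colp h g)).coeff r' = 0 := by
      intro r' hr'
      rw [← Dr_coeff, hmin r' hr']
      rfl
    refine ⟨_, _, colp_span hG0 hlow, ?_, ?_⟩
    · rw [← colp_coeff]
      exact fun h0 => hG0 (trailingCoeff_eq_zero.1 h0)
    · rw [← colp_coeff]
      exact fun h0 => hG0 (leadingCoeff_eq_zero.1 h0)
  obtain ⟨h1, h2, h3, h4, h5⟩ := laurent_span hr hc hc0 _ (fun i => hdiv i r)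
  exact ⟨r, h1, h2, h5, key h1 h3, key h2 h4⟩

end Lau

end Pool.Agent.Y206.V
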