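import Pool.Agent.Y206.V.Chain

set_option autoImplicit false
set_option linter.unusedSectionVars false
set_option linter.unusedVariables false

/-!
# Leading forms over a valued field
-/

namespace Pool.Agent.Y206.V

open Pool.Agent.Y206

universe u w

variable {K : Type u} [Field K]

/-- the second coordinate as a Laurent polynomial -/
noncomputable def bz (s : K) : LP K :=
  AddMonoidAlgebra.single ((1 : ℤ), (0 : ℕ)) s

/-- the scaled reciprocal of the second coordinate -/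
noncomputable def bm (μ s : K) : LP K :=
  AddMonoidAlgebra.single ((-1 : ℤ), (0 : ℕ)) (μ / s)

/-- the first coordinate as a Laurent polynomial -/
noncomputable def bx (μ s : K) (k : ℕ) : LP K :=
  bm μ s * (1 + bz s ^ 3 + bm μ s ^ 3 * (1 + 3 * bz s ^ 3) -
    AddMonoidAlgebra.single (-(k : ℤ), (1 : ℕ)) (μ ^ 3 * s))

/-- the Laurent polynomial of a form -/
noncomputable def GG (μ s : K) (k : ℕ) (Q : MvPolynomial (Fin 3) K) : LP K :=
  MvPolynomial.eval₂ AddMonoidAlgebra.singleZeroRingHom ![bx μ s k, 1, bz s] Q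

variable {H : Type w} [Field H] {v0 : Val K} {θ1 θ2 : ℝ}

theorem ev_GG (io : K →+* H) (μ s : K) (k : ℕ) (Q : MvPolynomial (Fin 3) K) {a b : H}
    (ha : a ≠ 0) :
    ev io a b ha (GG μ s k Q) = evR io Q (ev io a b ha (bx μ s k)) (ev io a b ha (bz s)) := by
  unfold GG evR
  rw [MvPolynomial.hom_eval₂, ev_const]
  congr 1
  funext i
  fin_cases i
  · rfl
  · exact map_one _
  · rfl

variable (C : Ctx K H v0 θ1 θ2)

/-- the second coordinate -/
noncomputable def z0 (s : K) : H := C.io s * C.ζ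

/-- the second variable -/
noncomputable def bb (k : ℕ) : H := C.η * C.ζ ^ k

variable {C}

theorem bb_ne (k : ℕ) : bb C k ≠ 0 := mul_ne_zero C.η0 (pow_ne_zero _ C.ζ0)

theorem v_bb (k : ℕ) : C.V.v (bb C k) = pt 0 (θ2 + k * θ1) := by
  unfold bb
  rw [C.V.mul' C.η0 (pow_ne_zero _ C.ζ0), C.V.v_pow C.ζ0, C.vζ, C.vη]
  exact gam_ext (by simp only [r1_add, r1_nsmul, r1_pt]; ring)
    (by simp only [r2_add, r2_nsmul, r2_pt])

theorem ev_bz (s : K) (b : H) : ev C.io C.ζ b C.ζ0 (bz s) = z0 C s := by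
  unfold bz z0
  rw [ev_single]
  simp

theorem ev_bm {s : K} (hs : s ≠ 0) (μ : K) (b : H) :
    ev C.io C.ζ b C.ζ0 (bm μ s) = mm C μ (z0 C s) := by
  unfold bm mm z0
  rw [ev_single]
  have h1 := C.ζ0
  have h2 : C.io s ≠ 0 := (map_ne_zero C.io).2 hs
  simp only [map_div₀, zpow_neg, zpow_one, pow_zero, mul_one]
  field_simp

theorem ev_bx {s : K} (hs : s ≠ 0) (μ : K) (k : ℕ) :
    ev C.io C.ζ (bb C k) C.ζ0 (bx μ s k) =
      mm C μ (z0 C s) * (1 + z0 C s ^ 3 + mm C μ (z0 C s) ^ 3 * (1 + 3 * z0 C s ^ 3) -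
        C.io (μ ^ 3 * s) * C.η) := by
  unfold bx
  simp only [map_mul, map_add, map_sub, map_pow, map_one, ev_bm hs, ev_bz, map_ofNat]
  congr 2
  rw [ev_single]
  unfold bb
  have h1 : C.ζ ^ k ≠ 0 := pow_ne_zero _ C.ζ0
  simp only [zpow_neg, zpow_natCast, pow_one, map_mul, map_pow]
  field_simp

theorem ind_mono (h : IndT θ1 θ2) (k : ℕ) : Ind C C.ζ (bb C k) := by
  intro p q hpq
  rw [v_bb, C.vζ] at hpq
  simp only [r2_pt] at hpq
  have h1 : ((p.1 + k * (p.2 : ℤ) : ℤ) : ℝ) * θ1 + p.2 * θ2 =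
      ((q.1 + k * (q.2 : ℤ) : ℤ) : ℝ) * θ1 + q.2 * θ2 := by
    push_cast
    linarith
  obtain ⟨h2, h3⟩ := h _ _ _ _ h1
  refine Prod.ext ?_ h3
  rw [h3] at h2
  linarith

/-- a nonzero form does not vanish at independent elements -/
theorem evR_mono_ne (hv0 : RealV v0) (hθ : IndT θ1 θ2) {Q : MvPolynomial (Fin 3) K} {d : ℕ}
    (hQ : Q.IsHomogeneous d) (hQ0 : Q ≠ 0) : evR C.io Q C.η C.ζ ≠ 0 := by
  classical
  obtain ⟨P, hP⟩ : ∃ P : LP K, P = ∑ s ∈ Q.support,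
    AddMonoidAlgebra.single ((s 2 : ℤ), s 0) (MvPolynomial.coeff s Q) := ⟨_, rfl⟩
  have hev : ev C.io C.ζ C.η C.ζ0 P = evR C.io Q C.η C.ζ := by
    rw [hP, map_sum]
    unfold evR
    rw [MvPolynomial.eval₂_eq']
    refine Finset.sum_congr rfl fun s _ => ?_
    rw [ev_single, Fin.prod_univ_three]
    simp only [Matrix.cons_val_zero, Matrix.cons_val_one, Matrix.cons_val, one_pow, mul_one,
      zpow_natCast]
    ring
  have hP0 : P ≠ 0 := by
    obtain ⟨s, hs⟩ := MvPolynomial.support_nonempty.2 hQ0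
    intro h
    have h1 : P.coeff ((s 2 : ℤ), s 0) = MvPolynomial.coeff s Q := by
      rw [hP, AddMonoidAlgebra.coeff_sum, Finsupp.finsetSum_apply]
      rw [Finset.sum_eq_single s]
      · simp
      · intro t ht hts
        rw [AddMonoidAlgebra.coeff_single, Finsupp.single_apply, if_neg]
        intro h2
        apply hts
        have h3 : (t 2 : ℤ) = s 2 := congrArg Prod.fst h2
        have h4 : t 0 = s 0 := congrArg Prod.snd h2
        have h3' : t 2 = s 2 := by exact_mod_cast h3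
        have e1 := hQ (MvPolynomial.mem_support_iff.1 ht)
        have e2 := hQ (MvPolynomial.mem_support_iff.1 hs)
        rw [Finsupp.weight_apply, Finsupp.sum_fintype _ _ (by simp), Fin.sum_univ_three] at e1 e2
        simp only [Pi.one_apply, smul_eq_mul, mul_one] at e1 e2
        ext i
        fin_cases i
        · exact h4
        · change t 1 = s 1
          omega
        · exact h3'
      · intro h2
        exact absurd hs h2
    rw [h] at h1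
    exact (MvPolynomial.mem_support_iff.1 hs) h1.symm
  have hI : Ind C C.ζ C.η := by
    have := ind_mono (C := C) hθ 0
    simpa [bb] using this
  rw [← hev]
  exact (gauss C hv0 hP0 C.ζ0 C.η0 hI).1

/-- the Laurent polynomial of a nonzero form is nonzero -/
theorem GG_ne (C : Ctx K H v0 θ1 θ2) (hv0 : RealV v0) (hθ : IndT θ1 θ2) {μ s : K} (hμ : μ ≠ 0)
    (hs' : s ≠ 0) (k : ℕ) {Q : MvPolynomial (Fin 3) K} {d : ℕ}
    (hQ : Q.IsHomogeneous d) (hQ0 : Q ≠ 0) : GG μ s k Q ≠ 0 := by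
  have h := evR_mono_ne (C := C) hv0 hθ hQ hQ0
  -- an evaluation sending `bz` to `ζ` and `bx` to `η`
  obtain ⟨t, hs⟩ : ∃ t, t = C.io s := ⟨_, rfl⟩
  obtain ⟨m, hm⟩ : ∃ m, m = C.io (μ / s) := ⟨_, rfl⟩
  obtain ⟨w, hw⟩ : ∃ w, w = C.io (μ ^ 3 * s) := ⟨_, rfl⟩
  have hs0 : t ≠ 0 := by rw [hs]; exact (map_ne_zero C.io).2 hs'
  have hm0 : m ≠ 0 := by rw [hm]; exact (map_ne_zero C.io).2 (div_ne_zero hμ hs')
  have hw0 : w ≠ 0 := by
    rw [hw]; exact (map_ne_zero C.io).2 (mul_ne_zero (pow_ne_zero _ hμ) hs')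
  have h1 := C.ζ0
  obtain ⟨a, ha⟩ : ∃ a, a = C.ζ / t := ⟨_, rfl⟩
  have ha0 : a ≠ 0 := by rw [ha]; exact div_ne_zero h1 hs0
  obtain ⟨M, hM⟩ : ∃ M, M = m * a⁻¹ := ⟨_, rfl⟩
  have hM0 : M ≠ 0 := by rw [hM]; exact mul_ne_zero hm0 (inv_ne_zero ha0)
  obtain ⟨ρ, hρ⟩ : ∃ ρ, ρ = 1 + (t * a) ^ 3 + M ^ 3 * (1 + 3 * (t * a) ^ 3) := ⟨_, rfl⟩
  obtain ⟨b, hb⟩ : ∃ b, b = (ρ - C.η / M) * (a ^ k) / w := ⟨_, rfl⟩
  have e1 : ev C.io a b ha0 (bz s) = t * a := by
    unfold bz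
    rw [ev_single, ← hs]
    simp
  have e2 : ev C.io a b ha0 (bm μ s) = M := by
    unfold bm
    rw [ev_single, ← hm, hM]
    simp
  have e3 : ev C.io a b ha0 (bx μ s k) = C.η := by
    unfold bx
    simp only [map_mul, map_add, map_sub, map_pow, map_one, e1, e2, map_ofNat]
    rw [ev_single, ← hw, ← hρ]
    simp only [zpow_neg, zpow_natCast, pow_one]
    have hak : a ^ k ≠ 0 := pow_ne_zero _ ha0
    have e4 : w * ((a ^ k)⁻¹ * b) = ρ - C.η / M := by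
      rw [hb]
      field_simp
    rw [e4]
    field_simp
    ring
  have e5 : t * a = C.ζ := by
    rw [ha]
    field_simp
  intro h0
  have h2 := ev_GG C.io μ s k Q (b := b) ha0
  rw [h0, map_zero, e3, e1, e5] at h2
  exact h h2.symm

/-- the coefficients of least value -/
def IsLeast' (v0 : Val K) (G : LP K) (p : ℤ × ℕ) : Prop :=
  G.coeff p ≠ 0 ∧ ∀ q, G.coeff q ≠ 0 → r1 (v0.v (G.coeff p)) ≤ r1 (v0.v (G.coeff q))

theorem least_dir (C : Ctx K H v0 θ1 θ2) (hv0 : RealV v0) {β : ℝ} (hβ0 : 0 < β) (hβ : β < 3 / 7)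
    (hθ : IndT θ1 θ2) {μ s : K} (hμ0 : μ ≠ 0) (hμ : v0.v μ = pt 1 0) (hs0 : s ≠ 0)
    (hs : v0.v s = pt β 0) (k : ℕ)
    {Q : MvPolynomial (Fin 3) K} {d : ℕ} (hQ : Q.IsHomogeneous d) (hQ0 : Q ≠ 0) :
    ∃ p0 : ℤ × ℕ, -(1 + β) * (d - 3 * (p0.2 : ℝ)) ≤ (p0.1 : ℝ) + k * p0.2 ∧
      (p0.1 : ℝ) + k * p0.2 ≤ (2 - β) * (d - 3 * (p0.2 : ℝ)) ∧
      ∀ p, IsLeast' v0 (GG μ s k Q) p →
        ((p0.1 : ℝ) + k * p0.2) * θ1 + p0.2 * θ2 ≤ ((p.1 : ℝ) + k * p.2) * θ1 + p.2 * θ2 := by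
  have hG := GG_ne C hv0 hθ hμ0 hs0 k hQ hQ0
  obtain ⟨h1, p0, hp0, h2, h3⟩ := gauss C hv0 hG C.ζ0 (bb_ne k) (ind_mono hθ k)
  have h4 := ev_GG C.io μ s k Q (b := bb C k) C.ζ0
  rw [ev_bx hs0, ev_bz] at h4
  rw [h4] at h1 h2
  have hios : C.io s ≠ 0 := (map_ne_zero C.io).2 hs0
  have D : Data C μ (z0 C s) β :=
    { real := hv0
      μ0 := hμ0
      vμ := hμ
      z0 := mul_ne_zero hios C.ζ0
      vz := by
        unfold z0
        rw [C.V.mul' hios C.ζ0, C.vio _ hs0, hs, C.vζ]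
        exact gam_ext (by simp) (by simp)
      b0 := hβ0
      b1 := hβ
      ind := hθ }
  have hw0 : μ ^ 3 * s ≠ 0 := mul_ne_zero (pow_ne_zero _ hμ0) hs0
  have hw0' : C.io (μ ^ 3 * s) ≠ 0 := (map_ne_zero C.io).2 hw0
  have hpl0 := place0 D (y := C.io (μ ^ 3 * s) * C.η) (mul_ne_zero hw0' C.η0) (by
    rw [C.V.mul' hw0' C.η0, C.vio _ hw0, v0.mul' (pow_ne_zero _ hμ0) hs0, v0.v_pow hμ0, hμ, hs,
      C.vη]
    exact gam_ext (by simp only [r1_add, r1_nsmul, r1_pt]; push_cast; ring)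
      (by simp only [r2_add, r2_nsmul, r2_pt]; push_cast; ring))
  have hpl1 : BPlace C μ (z0 C s) β (3 + β - 3) (mm C μ (z0 C s) * (1 - C.io s * C.η)) := by
    have := place1 D (t := C.io s * C.η) (mul_ne_zero hios C.η0) (by
      rw [C.V.mul' hios C.η0, C.vio _ hs0, hs, C.vη]
      exact gam_ext (by simp) (by simp))
    have e : 3 + β - 3 = β := by ring
    rw [e]; exact this
  have hr0 : r2 (v0.v ((GG μ s k Q).coeff p0)) = 0 := hv0 _ hp0
  have h5 : r2 (C.V.v (evR C.io Q (mm C μ (z0 C s) * (1 + z0 C s ^ 3 +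
      mm C μ (z0 C s) ^ 3 * (1 + 3 * z0 C s ^ 3) - C.io (μ ^ 3 * s) * C.η)) (z0 C s))) =
      ((p0.1 + k * (p0.2 : ℤ) : ℤ) : ℝ) * θ1 + p0.2 * θ2 := by
    rw [h2]
    simp only [tord, r2_add, r2_pt, r2_zsmul, r2_nsmul, C.vζ, v_bb, hr0, zero_add]
    push_cast
    ring
  obtain ⟨h6, h7⟩ := window D hpl0 hpl1 hQ h1 _ _ h5
  push_cast at h6 h7
  refine ⟨p0, h6, h7, fun p hp => ?_⟩
  have h8 := h3 p hp.1
  have hr : r2 (v0.v ((GG μ s k Q).coeff p)) = 0 := hv0 _ hp.1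
  have h9 : r1 (tord C (GG μ s k Q) C.ζ (bb C k) p0) =
      r1 (tord C (GG μ s k Q) C.ζ (bb C k) p) := by
    apply le_antisymm (r1_mono h8)
    simp only [tord, r1_add, r1_pt, r1_zsmul, r1_nsmul, C.vζ, v_bb, mul_zero, add_zero]
    exact hp.2 p0 hp0
  have h10 := r2_le_of h8 h9
  simp only [tord, r2_add, r2_pt, r2_zsmul, r2_nsmul, C.vζ, v_bb, hr0, hr, zero_add] at h10
  linarith

theorem irr_ind {x : ℝ} (hx : Irrational x) (h h' : ℤ) (j j' : ℕ)
    (e : (h : ℝ) + j * x = h' + j' * x) : h = h' ∧ j = j' := by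
  have hj : j = j' := by
    by_contra hne
    have hne' : ((j : ℝ) - j') ≠ 0 := by
      rw [sub_ne_zero]; exact_mod_cast hne
    apply hx
    refine ⟨((h' : ℚ) - h) / ((j : ℚ) - j'), ?_⟩
    push_cast
    rw [div_eq_iff hne']
    linarith
  refine ⟨?_, hj⟩
  rw [hj] at e
  have : (h : ℝ) = h' := by linarith
  exact_mod_cast this

/-- enough extensions -/
def Ctxs (K : Type u) [Field K] (v0 : Val K) : Prop :=
  ∀ θ1 θ2 : ℝ, IndT θ1 θ2 → ∃ (H : Type u) (_ : Field H), Nonempty (Ctx K H v0 θ1 θ2)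

theorem indT1 {β : ℝ} (hirr : Irrational β) : IndT 1 (-(3 * (1 + β))) := by
  intro h h' j j' e
  have h1 : Irrational (-(3 * (1 + β))) := by
    have h2 : Irrational (1 + β) := by
      have := hirr.natCast_add 1
      simpa using this
    have h3 : Irrational (3 * (1 + β)) := by
      have := h2.natCast_mul (m := 3) (by norm_num)
      simpa using this
    exact h3.neg
  exact irr_ind h1 h h' j j' (by linarith)

theorem indT2 {β : ℝ} (hirr : Irrational β) : IndT (-1) (-(3 * (2 - β))) := by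
  intro h h' j j' e
  have h1 : Irrational (3 * (2 - β)) := by
    have h2 : Irrational (2 - β) := by
      have := hirr.natCast_sub 2
      simpa using this
    have := h2.natCast_mul (m := 3) (by norm_num)
    simpa using this
  exact irr_ind h1 h h' j j' (by linarith)

/-- **the leading exponents lie in the triangle** -/
theorem least_window (hC : Ctxs K v0) (hv0 : RealV v0) {β : ℝ} (hβ0 : 0 < β) (hβ : β < 3 / 7)
    (hirr : Irrational β) {μ s : K} (hμ0 : μ ≠ 0) (hμ : v0.v μ = pt 1 0) (hs0 : s ≠ 0)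
    (hs : v0.v s = pt β 0) (k : ℕ)
    {Q : MvPolynomial (Fin 3) K} {d : ℕ} (hQ : Q.IsHomogeneous d) (hQ0 : Q ≠ 0) {p : ℤ × ℕ}
    (hp : IsLeast' v0 (GG μ s k Q) p) :
    -(1 + β) * (d - 3 * (p.2 : ℝ)) ≤ (p.1 : ℝ) + k * p.2 ∧
      (p.1 : ℝ) + k * p.2 ≤ (2 - β) * (d - 3 * (p.2 : ℝ)) := by
  constructor
  · have hθ := indT1 hirr
    obtain ⟨H, _, ⟨C⟩⟩ := hC _ _ hθ
    obtain ⟨p0, h1, -, h3⟩ := least_dir C hv0 hβ0 hβ hθ hμ0 hμ hs0 hs k hQ hQ0
    have h4 := h3 p hp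
    nlinarith
  · have hθ := indT2 hirr
    obtain ⟨H, _, ⟨C⟩⟩ := hC _ _ hθ
    obtain ⟨p0, -, h2, h3⟩ := least_dir C hv0 hβ0 hβ hθ hμ0 hμ hs0 hs k hQ hQ0
    have h4 := h3 p hp
    nlinarith

theorem GG_ne' (hC : Ctxs K v0) (hv0 : RealV v0) {β : ℝ} (hirr : Irrational β)
    {μ s : K} (hμ : μ ≠ 0) (hs' : s ≠ 0) (k : ℕ) {Q : MvPolynomial (Fin 3) K} {d : ℕ}
    (hQ : Q.IsHomogeneous d) (hQ0 : Q ≠ 0) : GG μ s k Q ≠ 0 := by
  obtain ⟨H, _, ⟨C⟩⟩ := hC _ _ (indT1 hirr)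
  exact GG_ne C hv0 (indT1 hirr) hμ hs' k hQ hQ0

end Pool.Agent.Y206.V
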