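import Pool.Agent.Y206.V.Ball

set_option autoImplicit false
set_option linter.unusedSectionVars false
set_option linter.unusedVariables false

/-!
# A neighbourhood of good configurations over an ultrametric field
-/

namespace Pool.Agent.Y206.V

open Pool.Agent.Y206 Topology

universe u w

/-- Nagata's inequality for all curves with coefficients in `K` through the points `P` -/
def Good {n : ℕ} {K : Type u} [Field K] (P : Fin n → Fin 3 → K) : Prop :=
  ∀ (F : MvPolynomial (Fin 3) K) (d : ℕ) (m : Fin n → ℕ), 0 < d → F.IsHomogeneous d → F ≠ 0 →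
    (∀ i, MultAt (P i) F (m i)) → ∑ i, (m i : ℝ) < d * √(n : ℝ)

theorem nbhd {n : ℕ} (hn : 9 < n) (hsq : ¬ IsSquare n) {K : Type u} [NormedField K]
    [IsUltrametricDist K] {μ s : K} (hμ0 : 0 < ‖μ‖) (hμ1 : ‖μ‖ < 1) (hs : ‖s‖ = ‖μ‖ ^ bet n)
    {c : Fin n → K} (hc : ∀ i, ‖c i‖ = 1) (hcc : ∀ i j, i ≠ j → ‖c i - c j‖ = 1) :
    ∀ᶠ P in 𝓝 (fun i => ptY (⌊3 * √(n : ℝ)⌋₊ - 5) μ s (c i) 1),
      (∀ i, P i ≠ 0) ∧ Good P := by
  have hμ : μ ≠ 0 := norm_pos_iff.1 hμ0
  have hs0 : s ≠ 0 := by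
    rw [← norm_pos_iff, hs]
    exact Real.rpow_pos_of_pos hμ0 _
  have hc0 : ∀ i, c i ≠ 0 := by
    intro i h
    have := hc i
    rw [h, norm_zero] at this
    exact zero_ne_one this
  obtain ⟨k, hk⟩ : ∃ k, k = ⌊3 * √(n : ℝ)⌋₊ - 5 := ⟨_, rfl⟩
  obtain ⟨P₀, hP₀'⟩ : ∃ P₀ : Fin n → Fin 3 → K, P₀ = fun i => ptY k μ s (c i) 1 := ⟨_, rfl⟩
  have hP₀ : ∀ i, P₀ i = ptY k μ s (c i) 1 := fun i => by rw [hP₀']
  rw [← hk, ← hP₀']
  have hP1 : ∀ i, P₀ i 1 = 1 := fun i => by rw [hP₀]; rfl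
  have hP2 : ∀ i, P₀ i 2 = s * c i := fun i => by rw [hP₀]; rfl
  have hc1 : ∀ i, Continuous fun P : Fin n → Fin 3 → K => P i 1 := fun i =>
    (continuous_apply 1).comp (continuous_apply i)
  have hc2 : ∀ i, Continuous fun P : Fin n → Fin 3 → K => P i 2 := fun i =>
    (continuous_apply 2).comp (continuous_apply i)
  have hc3 : ∀ i, Continuous fun P : Fin n → Fin 3 → K => P i 0 := fun i =>
    (continuous_apply 0).comp (continuous_apply i)
  have h1 : ∀ i, ∀ᶠ P in 𝓝 P₀, P i 1 ≠ 0 := fun i =>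
    (hc1 i).continuousAt.eventually_ne (by rw [hP1]; exact one_ne_zero)
  have h2 : ∀ i, ∀ᶠ P in 𝓝 P₀, P i 2 ≠ 0 := fun i =>
    (hc2 i).continuousAt.eventually_ne (by rw [hP2]; exact mul_ne_zero hs0 (hc0 i))
  have ht : ∀ i, ContinuousAt (fun P : Fin n → Fin 3 → K => tF s (P i)) P₀ := by
    intro i
    refine ((hc2 i).continuousAt.div (hc1 i).continuousAt ?_).div continuousAt_const hs0
    rw [hP1]; exact one_ne_zero
  have hy : ∀ i, ContinuousAt (fun P : Fin n → Fin 3 → K => yF k μ s (P i)) P₀ := by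
    intro i
    have g1 : ContinuousAt (fun P : Fin n → Fin 3 → K => P i 2 / P i 1) P₀ :=
      (hc2 i).continuousAt.div (hc1 i).continuousAt (by rw [hP1]; exact one_ne_zero)
    have g2 : ContinuousAt (fun P : Fin n → Fin 3 → K => P i 0 / P i 1) P₀ :=
      (hc3 i).continuousAt.div (hc1 i).continuousAt (by rw [hP1]; exact one_ne_zero)
    have g3 : P₀ i 2 / P₀ i 1 ≠ 0 := by
      rw [hP1, hP2, div_one]; exact mul_ne_zero hs0 (hc0 i)
    have g4 : ContinuousAt (fun P : Fin n → Fin 3 → K => μ / (P i 2 / P i 1)) P₀ :=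
      continuousAt_const.div g1 g3
    have g5 : μ ^ 3 * s ≠ 0 := mul_ne_zero (pow_ne_zero _ hμ) hs0
    unfold yF
    exact (((g1.div continuousAt_const hs0).pow k).div continuousAt_const g5).mul
      (((continuousAt_const.add (g1.pow 3)).add ((g4.pow 3).mul
        (continuousAt_const.add (continuousAt_const.mul (g1.pow 3))))).sub
        ((g2.mul g1).div continuousAt_const hμ))
  have ht' : ∀ i, ∀ᶠ P in 𝓝 P₀, ‖tF s (P i) - c i‖ < 1 := by
    intro i
    have g : ContinuousAt (fun P : Fin n → Fin 3 → K => ‖tF s (P i) - c i‖) P₀ :=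
      ((ht i).sub continuousAt_const).norm
    refine g.eventually_lt continuousAt_const ?_
    change ‖tF s (P₀ i) - c i‖ < 1
    rw [hP₀, tF_ptY k hs0, sub_self, norm_zero]
    exact one_pos
  have hy' : ∀ i, ∀ᶠ P in 𝓝 P₀, ‖yF k μ s (P i) - 1‖ < 1 := by
    intro i
    have g : ContinuousAt (fun P : Fin n → Fin 3 → K => ‖yF k μ s (P i) - 1‖) P₀ :=
      ((hy i).sub continuousAt_const).norm
    refine g.eventually_lt continuousAt_const ?_
    change ‖yF k μ s (P₀ i) - 1‖ < 1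
    rw [hP₀, yF_ptY k hμ hs0 (hc0 i), sub_self, norm_zero]
    exact one_pos
  filter_upwards [Filter.eventually_all.2 h1, Filter.eventually_all.2 h2,
    Filter.eventually_all.2 ht', Filter.eventually_all.2 hy'] with P e1 e2 e3 e4
  refine ⟨fun i h => e1 i (by rw [h]; rfl), ?_⟩
  intro F d m hd hF hF0 hFm
  have hn1 : ∀ i, ‖tF s (P i)‖ = 1 := by
    intro i
    have g := IsUltrametricDist.norm_add_eq_max_of_norm_ne_norm (x := tF s (P i) - c i)
      (y := c i) (by rw [hc i]; exact (e3 i).ne)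
    rw [sub_add_cancel, hc i, max_eq_right (e3 i).le] at g
    exact g
  have hn2 : ∀ i j, i ≠ j → ‖tF s (P i) - tF s (P j)‖ = 1 := by
    intro i j hij
    have g0 : ‖(tF s (P i) - c i) - (tF s (P j) - c j)‖ < 1 := by
      rw [sub_eq_add_neg]
      refine lt_of_le_of_lt (IsUltrametricDist.norm_add_le_max _ _) ?_
      rw [norm_neg]
      exact max_lt (e3 i) (e3 j)
    have g := IsUltrametricDist.norm_add_eq_max_of_norm_ne_norm
      (x := (tF s (P i) - c i) - (tF s (P j) - c j))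
      (y := c i - c j) (by rw [hcc i j hij]; exact g0.ne)
    rw [hcc i j hij, max_eq_right g0.le] at g
    rw [← g]
    congr 1
    ring
  refine near hμ0 hμ1 hn hsq hs (c := fun i => tF s (P i))
    (y := fun i => yF k μ s (P i)) hn1 hn2 e4 m hd hF hF0 ?_
  intro i
  refine multAt_smul (e1 i) hF ?_
  have e : (fun j => P i 1 * ptY (⌊3 * √(n : ℝ)⌋₊ - 5) μ s (tF s (P i))
      (yF k μ s (P i)) j) = P i := by
    funext j
    rw [← hk]
    exact ptY_coord k hμ hs0 (e1 i) (e2 i) j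
  rw [e]
  exact hFm i

end Pool.Agent.Y206.V
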