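import Pool.Agent.Y206.V.Val

set_option autoImplicit false
set_option linter.unusedSectionVars false

/-!
# Laurent polynomials and patches over a valued field
-/

namespace Pool.Agent.Y206.V

open Pool.Agent.Y206

/-- a valued field with a valued extension containing two independent infinitesimal units -/
structure Ctx (K H : Type*) [Field K] [Field H] (v0 : Val K) (θ1 θ2 : ℝ) where
  /-- the valuation of the big field -/
  V : Val H
  /-- the embedding -/
  io : K →+* H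
  vio : ∀ c, c ≠ 0 → V.v (io c) = v0.v c
  /-- first element -/
  ζ : H
  /-- second element -/
  η : H
  ζ0 : ζ ≠ 0
  η0 : η ≠ 0
  vζ : V.v ζ = pt 0 θ1
  vη : V.v η = pt 0 θ2

/-- real valued -/
def RealV {K : Type*} [Field K] (v0 : Val K) : Prop := ∀ c, c ≠ 0 → r2 (v0.v c) = 0

variable {K H : Type*} [Field K] [Field H] {v0 : Val K} {θ1 θ2 : ℝ}

theorem v_inv (V : Val H) {a : H} (ha : a ≠ 0) : V.v a⁻¹ = - V.v a := by
  have h := V.mul' ha (inv_ne_zero ha)
  rw [mul_inv_cancel₀ ha, V.v_one] at h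
  rw [eq_neg_iff_add_eq_zero, add_comm]
  exact h.symm

theorem v_zpow (V : Val H) {a : H} (ha : a ≠ 0) (n : ℤ) : V.v (a ^ n) = n • V.v a := by
  rcases n with k | k
  · rw [Int.ofNat_eq_natCast, zpow_natCast, V.v_pow ha, natCast_zsmul]
  · rw [zpow_negSucc, v_inv V (pow_ne_zero _ ha), V.v_pow ha, negSucc_zsmul]

theorem v_div (V : Val H) {a b : H} (ha : a ≠ 0) (hb : b ≠ 0) : V.v (a / b) = V.v a - V.v b := by
  rw [div_eq_mul_inv, V.mul' ha (inv_ne_zero hb), v_inv V hb, sub_eq_add_neg]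

/-- Laurent polynomials in the first variable, polynomials in the second -/
abbrev LP (K : Type*) [Field K] := AddMonoidAlgebra K (ℤ × ℕ)

/-- monomials -/
noncomputable def monHom (a b : H) (ha : a ≠ 0) : Multiplicative (ℤ × ℕ) →* H where
  toFun p := a ^ (p.toAdd.1) * b ^ (p.toAdd.2)
  map_one' := by simp
  map_mul' := by
    intro p q
    simp only [toAdd_mul, Prod.fst_add, Prod.snd_add]
    rw [zpow_add₀ ha, _root_.pow_add]
    ring

/-- evaluation -/
noncomputable def ev (io : K →+* H) (a b : H) (ha : a ≠ 0) : LP K →+* H :=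
  AddMonoidAlgebra.liftNCRingHom io (monHom a b ha) (fun _ _ => Commute.all _ _)

theorem ev_single (io : K →+* H) (a b : H) (ha : a ≠ 0) (p : ℤ × ℕ) (c : K) :
    ev io a b ha (AddMonoidAlgebra.single p c) = io c * (a ^ p.1 * b ^ p.2) := by
  unfold ev
  simp [AddMonoidAlgebra.liftNCRingHom, monHom]

theorem ev_apply (io : K →+* H) (a b : H) (ha : a ≠ 0) (P : LP K) :
    ev io a b ha P = ∑ p ∈ P.coeff.support, io (P.coeff p) * (a ^ p.1 * b ^ p.2) := by
  conv_lhs => rw [← AddMonoidAlgebra.sum_coeff_single P]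
  rw [Finsupp.sum, map_sum]
  exact Finset.sum_congr rfl fun p _ => ev_single io a b ha p _

variable (C : Ctx K H v0 θ1 θ2)

/-- the infinitesimal orders are independent -/
def Ind (a b : H) : Prop :=
  ∀ p q : ℤ × ℕ, (p.1 : ℝ) * r2 (C.V.v a) + p.2 * r2 (C.V.v b) =
    (q.1 : ℝ) * r2 (C.V.v a) + q.2 * r2 (C.V.v b) → p = q

/-- order of a term -/
noncomputable def tord (P : LP K) (a b : H) (p : ℤ × ℕ) : Gam :=
  v0.v (P.coeff p) + (p.1 • C.V.v a + p.2 • C.V.v b)

theorem term_order (P : LP K) {a b : H} (ha : a ≠ 0) (hb : b ≠ 0) {p : ℤ × ℕ}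
    (hp : P.coeff p ≠ 0) :
    C.io (P.coeff p) * (a ^ p.1 * b ^ p.2) ≠ 0 ∧
      C.V.v (C.io (P.coeff p) * (a ^ p.1 * b ^ p.2)) = tord C P a b p := by
  have h0 : C.io (P.coeff p) ≠ 0 := (map_ne_zero C.io).2 hp
  have h1 : a ^ p.1 ≠ 0 := zpow_ne_zero _ ha
  have h2 : b ^ p.2 ≠ 0 := pow_ne_zero _ hb
  refine ⟨mul_ne_zero h0 (mul_ne_zero h1 h2), ?_⟩
  rw [C.V.mul' h0 (mul_ne_zero h1 h2), C.V.mul' h1 h2, C.vio _ hp, v_zpow _ ha, C.V.v_pow hb]
  rfl

/-- **Gauss lemma** -/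
theorem gauss (hv0 : RealV v0) {P : LP K} (hP : P ≠ 0) {a b : H} (ha : a ≠ 0) (hb : b ≠ 0)
    (hI : Ind C a b) :
    ev C.io a b ha P ≠ 0 ∧ ∃ p, P.coeff p ≠ 0 ∧ C.V.v (ev C.io a b ha P) = tord C P a b p ∧
      ∀ q, P.coeff q ≠ 0 → tord C P a b p ≤ tord C P a b q := by
  classical
  have hne : P.coeff.support.Nonempty := by
    rw [Finsupp.support_nonempty_iff]
    intro h
    exact hP (AddMonoidAlgebra.coeff_eq_zero.1 h)
  obtain ⟨p, hp, hmin⟩ := Finset.exists_min_image P.coeff.support (tord C P a b) hne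
  have hp0 : P.coeff p ≠ 0 := Finsupp.mem_support_iff.1 hp
  have hinj : ∀ q, P.coeff q ≠ 0 → q ≠ p → tord C P a b q ≠ tord C P a b p := by
    intro q hq0 hq h
    apply hq
    apply hI
    have := congrArg r2 h
    simpa only [tord, r2_add, r2_zsmul, r2_nsmul, hv0 _ hq0, hv0 _ hp0, zero_add] using this
  have hsum : ev C.io a b ha P = C.io (P.coeff p) * (a ^ p.1 * b ^ p.2) +
      ∑ q ∈ P.coeff.support.erase p, C.io (P.coeff q) * (a ^ q.1 * b ^ q.2) := by
    rw [ev_apply]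
    exact (Finset.add_sum_erase _ (fun q => C.io (P.coeff q) * (a ^ q.1 * b ^ q.2)) hp).symm
  obtain ⟨h1, h2⟩ := term_order C P ha hb hp0
  have h3 := C.V.lt_sum (P.coeff.support.erase p)
    (fun q => C.io (P.coeff q) * (a ^ q.1 * b ^ q.2)) (tord C P a b p) (by
      intro q hq
      right
      rw [Finset.mem_erase] at hq
      have hq0 : P.coeff q ≠ 0 := Finsupp.mem_support_iff.1 hq.2
      rw [(term_order C P ha hb hq0).2]
      exact lt_of_le_of_ne (hmin q hq.2) (hinj q hq0 hq.1).symm)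
  have h4 := C.V.add_eq (y := ∑ q ∈ P.coeff.support.erase p,
    C.io (P.coeff q) * (a ^ q.1 * b ^ q.2)) h1 (by rw [h2]; exact h3)
  rw [← hsum] at h4
  exact ⟨h4.1, p, hp0, by rw [h4.2, h2], fun q hq => hmin q (Finsupp.mem_support_iff.2 hq)⟩

/-- value of a polynomial at `(x : 1 : z)` -/
noncomputable def evR (io : K →+* H) (R : MvPolynomial (Fin 3) K) (x z : H) : H :=
  MvPolynomial.eval₂ io ![x, 1, z] R

/-- Laurent polynomials approximating the small root -/
noncomputable def XN (μ : K) : ℕ → LP K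
  | 0 => 0
  | N + 1 => (1 + (AddMonoidAlgebra.single ((1 : ℤ), (0 : ℕ)) (1 : K)) ^ 3
      - AddMonoidAlgebra.single ((0 : ℤ), (1 : ℕ)) (1 : K) + XN μ N ^ 3) *
      AddMonoidAlgebra.single ((-1 : ℤ), (0 : ℕ)) μ

/-- approximations of the small root -/
noncomputable def xn (μ : H) (z g : H) : ℕ → H
  | 0 => 0
  | N + 1 => (1 + z ^ 3 - g + xn μ z g N ^ 3) * (μ * z⁻¹)

theorem ev_XN (io : K →+* H) (μ : K) {z g : H} (hz : z ≠ 0) (N : ℕ) :
    ev io z g hz (XN μ N) = xn (io μ) z g N := by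
  induction N with
  | zero => simp [XN, xn]
  | succ N ih =>
    simp only [XN, xn, map_mul, map_add, map_sub, map_pow, map_one, ev_single, ih]
    simp

/-- a place -/
structure IsPlace (μ : K) (x z g : H) : Prop where
  hz : z ≠ 0
  hg : g ≠ 0
  rel : x = (1 + z ^ 3 - g + x ^ 3) * (C.io μ * z⁻¹)
  small : ∃ ξ, C.V.Big ξ x ∧ 0 < 2 * ξ + 1 - r1 (C.V.v z)
  ind : Ind C z g

variable {C} {μ : K}

theorem big_m (hμ0 : μ ≠ 0) (hμ : v0.v μ = pt 1 0) {z : H} (hz : z ≠ 0) :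
    C.V.Big (1 - r1 (C.V.v z)) (C.io μ * z⁻¹) := by
  right
  rw [C.V.mul' ((map_ne_zero C.io).2 hμ0) (inv_ne_zero hz), v_inv _ hz, C.vio _ hμ0, hμ]
  simp only [r1_add, r1_pt, r1_neg]
  linarith

theorem contraction (hμ0 : μ ≠ 0) (hμ : v0.v μ = pt 1 0) {x z g : H} (h : IsPlace C μ x z g)
    {ξ : ℝ} (hξ : C.V.Big ξ x) (hpos : 0 < 2 * ξ + 1 - r1 (C.V.v z)) (N : ℕ) :
    C.V.Big (ξ + N * (2 * ξ + 1 - r1 (C.V.v z))) (x - xn (C.io μ) z g N) := by
  induction N with
  | zero => simpa [xn] using hξ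
  | succ N ih =>
    have hN : 0 ≤ (N : ℝ) * (2 * ξ + 1 - r1 (C.V.v z)) := by positivity
    have h1 : C.V.Big ξ (xn (C.io μ) z g N) := by
      have e : xn (C.io μ) z g N = x - (x - xn (C.io μ) z g N) := by ring
      rw [e]
      exact hξ.sub (ih.mono (by linarith))
    have e : x - xn (C.io μ) z g (N + 1) =
        (x - xn (C.io μ) z g N) * (x * x + x * xn (C.io μ) z g N +
          xn (C.io μ) z g N * xn (C.io μ) z g N) * (C.io μ * z⁻¹) := by
      conv_lhs => rw [h.rel]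
      simp only [xn]
      ring
    rw [e]
    have h2 : C.V.Big (ξ + ξ) (x * x + x * xn (C.io μ) z g N +
        xn (C.io μ) z g N * xn (C.io μ) z g N) :=
      ((hξ.mul hξ).add (hξ.mul h1)).add (h1.mul h1)
    refine ((ih.mul h2).mul (big_m hμ0 hμ h.hz)).mono (le_of_eq ?_)
    push_cast
    ring

theorem evR_C (io : K →+* H) (c : K) (x z : H) : evR io (MvPolynomial.C c) x z = io c := by
  simp [evR]

theorem evR_add (io : K →+* H) (R S : MvPolynomial (Fin 3) K) (x z : H) :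
    evR io (R + S) x z = evR io R x z + evR io S x z := by
  simp [evR, MvPolynomial.eval₂_add]

theorem evR_mul_X (io : K →+* H) (R : MvPolynomial (Fin 3) K) (i : Fin 3) (x z : H) :
    evR io (R * MvPolynomial.X i) x z = evR io R x z * (![x, 1, z] : Fin 3 → H) i := by
  simp [evR, MvPolynomial.eval₂_mul]

theorem evR_diff (V : Val H) (io : K →+* H) (R : MvPolynomial (Fin 3) K) (z : H) (ξ : ℝ) :
    ∃ C, (∀ x, V.Big ξ x → V.Big C (evR io R x z)) ∧ ∀ δ, 0 ≤ δ → ∀ x y, V.Big ξ x →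
      V.Big (ξ + δ) (x - y) → V.Big (C + δ) (evR io R x z - evR io R y z) := by
  induction R using MvPolynomial.induction_on with
  | C c =>
    refine ⟨r1 (V.v (io c)), fun x _ => ?_, fun δ hδ x y _ _ => ?_⟩
    · rw [evR_C]; exact Val.Big.self _
    · rw [evR_C, evR_C, sub_self]; exact Val.Big.zero _
  | add R S hR hS =>
    obtain ⟨C, h1, h2⟩ := hR
    obtain ⟨D, h3, h4⟩ := hS
    refine ⟨min C D, fun x hx => ?_, fun δ hδ x y hx hxy => ?_⟩
    · rw [evR_add]
      exact ((h1 x hx).mono (min_le_left _ _)).add ((h3 x hx).mono (min_le_right _ _))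
    · rw [evR_add, evR_add]
      have e : evR io R x z + evR io S x z - (evR io R y z + evR io S y z) =
        (evR io R x z - evR io R y z) + (evR io S x z - evR io S y z) := by ring
      rw [e]
      refine ((h2 δ hδ x y hx hxy).mono ?_).add ((h4 δ hδ x y hx hxy).mono ?_)
      · linarith [min_le_left C D]
      · linarith [min_le_right C D]
  | mul_X R i hR =>
    obtain ⟨C, h1, h2⟩ := hR
    obtain ⟨B, hB⟩ : ∃ B : Fin 3 → ℝ, B = ![ξ, 0, r1 (V.v z)] := ⟨_, rfl⟩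
    have hb : ∀ y, V.Big ξ y → V.Big (B i) ((![y, 1, z] : Fin 3 → H) i) := by
      intro y hy
      rw [hB]
      fin_cases i
      · exact hy
      · exact Val.Big.one
      · exact Val.Big.self z
    have hd : ∀ δ x y, V.Big (ξ + δ) (x - y) →
        V.Big (B i + δ) ((![x, 1, z] : Fin 3 → H) i - (![y, 1, z] : Fin 3 → H) i) := by
      intro δ x y hxy
      rw [hB]
      fin_cases i
      · exact hxy
      · change V.Big _ ((1 : H) - 1)
        rw [sub_self]; exact Val.Big.zero _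
      · change V.Big _ (z - z)
        rw [sub_self]; exact Val.Big.zero _
    refine ⟨C + B i, fun x hx => ?_, fun δ hδ x y hx hxy => ?_⟩
    · rw [evR_mul_X]
      exact (h1 x hx).mul (hb x hx)
    · have hy : V.Big ξ y := by
        have e : y = x - (x - y) := by ring
        rw [e]
        exact hx.sub (hxy.mono (by linarith))
      rw [evR_mul_X, evR_mul_X]
      have e : evR io R x z * (![x, 1, z] : Fin 3 → H) i -
        evR io R y z * (![y, 1, z] : Fin 3 → H) i =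
        evR io R x z * ((![x, 1, z] : Fin 3 → H) i - (![y, 1, z] : Fin 3 → H) i) +
        (evR io R x z - evR io R y z) * (![y, 1, z] : Fin 3 → H) i := by ring
      rw [e]
      refine (((h1 x hx).mul (hd δ x y hxy)).mono ?_).add
        (((h2 δ hδ x y hx hxy).mul (hb y hy)).mono ?_)
      · linarith
      · linarith

/-- the approximating Laurent polynomial of a polynomial -/
noncomputable def PN (μ : K) (R : MvPolynomial (Fin 3) K) (N : ℕ) : LP K :=
  MvPolynomial.eval₂ AddMonoidAlgebra.singleZeroRingHom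
    ![XN μ N, 1, AddMonoidAlgebra.single ((1 : ℤ), (0 : ℕ)) (1 : K)] R

theorem ev_const (io : K →+* H) {a b : H} (ha : a ≠ 0) :
    (ev io a b ha).comp AddMonoidAlgebra.singleZeroRingHom = io := by
  ext c
  simp only [RingHom.comp_apply]
  change ev io a b ha (AddMonoidAlgebra.single (0 : ℤ × ℕ) c) = _
  rw [ev_single]
  simp

theorem ev_PN (io : K →+* H) (μ : K) (R : MvPolynomial (Fin 3) K) (N : ℕ) {z g : H} (hz : z ≠ 0) :
    ev io z g hz (PN μ R N) = evR io R (xn (io μ) z g N) z := by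
  unfold PN evR
  rw [MvPolynomial.hom_eval₂, ev_const]
  congr 1
  funext i
  fin_cases i
  · exact ev_XN io μ hz N
  · exact map_one _
  · change ev io z g hz (AddMonoidAlgebra.single ((1 : ℤ), (0 : ℕ)) (1 : K)) = z
    rw [ev_single]
    simp

theorem approx (hμ0 : μ ≠ 0) (hμ : v0.v μ = pt 1 0) {x z g : H} (h : IsPlace C μ x z g)
    (R : MvPolynomial (Fin 3) K) (U : ℝ) :
    ∃ N0 : ℕ, ∀ N, N0 ≤ N → ∃ r, U < r ∧
      C.V.Big r (evR C.io R x z - ev C.io z g h.hz (PN μ R N)) := by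
  obtain ⟨ξ, hξ, hpos⟩ := h.small
  obtain ⟨D, -, hD⟩ := evR_diff C.V C.io R z ξ
  obtain ⟨N0, hN0⟩ := exists_nat_gt ((U - D) / (2 * ξ + 1 - r1 (C.V.v z)))
  refine ⟨N0, fun N hN => ⟨D + N * (2 * ξ + 1 - r1 (C.V.v z)), ?_, ?_⟩⟩
  · rw [div_lt_iff₀ hpos] at hN0
    have : (N0 : ℝ) * (2 * ξ + 1 - r1 (C.V.v z)) ≤ N * (2 * ξ + 1 - r1 (C.V.v z)) := by
      have : (N0 : ℝ) ≤ N := by exact_mod_cast hN
      exact mul_le_mul_of_nonneg_right this hpos.le
    linarith
  · rw [ev_PN]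
    exact hD _ (by positivity) _ _ hξ (contraction hμ0 hμ h hξ hpos N)

/-- **Comparison of two places** -/
theorem compare (hv0 : RealV v0) (hμ0 : μ ≠ 0) (hμ : v0.v μ = pt 1 0) {xA zA gA xB zB gB : H}
    (hA : IsPlace C μ xA zA gA) (hB : IsPlace C μ xB zB gB)
    (R : MvPolynomial (Fin 3) K) (hR : evR C.io R xA zA ≠ 0) :
    evR C.io R xB zB ≠ 0 ∧ ∃ (h : ℤ) (j : ℕ),
      r2 (C.V.v (evR C.io R xA zA)) = h * r2 (C.V.v zA) + j * r2 (C.V.v gA) ∧
      r1 (C.V.v (evR C.io R xB zB)) ≤ r1 (C.V.v (evR C.io R xA zA)) +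
        h * (r1 (C.V.v zB) - r1 (C.V.v zA)) + j * (r1 (C.V.v gB) - r1 (C.V.v gA)) := by
  obtain ⟨NA, hNA⟩ := approx hμ0 hμ hA R (r1 (C.V.v (evR C.io R xA zA)))
  -- at the place `A`
  have key : ∀ N, NA ≤ N → PN μ R N ≠ 0 ∧ ∃ p, (PN μ R N).coeff p ≠ 0 ∧
      C.V.v (evR C.io R xA zA) = tord C (PN μ R N) zA gA p := by
    intro N hN
    obtain ⟨r, hr, hbig⟩ := hNA N hN
    have hbig' : C.V.Big r (ev C.io zA gA hA.hz (PN μ R N) - evR C.io R xA zA) := by
      have e : ev C.io zA gA hA.hz (PN μ R N) - evR C.io R xA zA =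
        -(evR C.io R xA zA - ev C.io zA gA hA.hz (PN μ R N)) := by ring
      rw [e]; exact hbig.neg
    obtain ⟨h1, h2⟩ := Val.order_of_error hR hr hbig'
    have hP : PN μ R N ≠ 0 := by
      intro h
      rw [h, map_zero] at h1
      exact h1 rfl
    obtain ⟨-, p, hp, hp1, -⟩ := gauss C hv0 hP hA.hz hA.hg hA.ind
    exact ⟨hP, p, hp, by rw [← h2, hp1]⟩
  obtain ⟨-, p, hpN, hp⟩ := key NA le_rfl
  have hp2 : r2 (C.V.v (evR C.io R xA zA)) = p.1 * r2 (C.V.v zA) + p.2 * r2 (C.V.v gA) := by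
    rw [hp]
    simp only [tord, r2_add, r2_zsmul, r2_nsmul, hv0 _ hpN, zero_add]
  obtain ⟨U, hU⟩ : ∃ U, U = r1 (C.V.v (evR C.io R xA zA)) +
        p.1 * (r1 (C.V.v zB) - r1 (C.V.v zA)) +
        p.2 * (r1 (C.V.v gB) - r1 (C.V.v gA)) := ⟨_, rfl⟩
  obtain ⟨NB, hNB⟩ := approx hμ0 hμ hB R U
  obtain ⟨hP, q, hq, hq1⟩ := key (max NA NB) (le_max_left _ _)
  have hqp : q = p := by
    apply hA.ind
    have h3 : r2 (C.V.v (evR C.io R xA zA)) = q.1 * r2 (C.V.v zA) + q.2 * r2 (C.V.v gA) := by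
      rw [hq1]
      simp only [tord, r2_add, r2_zsmul, r2_nsmul, hv0 _ hq, zero_add]
    rw [← h3, hp2]
  rw [hqp] at hq hq1
  have hFA : r1 (C.V.v (evR C.io R xA zA)) = r1 (v0.v ((PN μ R (max NA NB)).coeff p)) +
      (p.1 * r1 (C.V.v zA) + p.2 * r1 (C.V.v gA)) := by
    conv_lhs => rw [hq1]
    simp only [tord, r1_add, r1_zsmul, r1_nsmul]
  obtain ⟨h5, s, hs, hs1, hs2⟩ := gauss C hv0 hP hB.hz hB.hg hB.ind
  have h6 : r1 (C.V.v (ev C.io zB gB hB.hz (PN μ R (max NA NB)))) ≤ U := by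
    rw [hs1]
    refine (r1_mono (hs2 p hq)).trans ?_
    simp only [tord, r1_add, r1_zsmul, r1_nsmul]
    rw [hU, hFA]
    linarith
  obtain ⟨r, hr, hbig⟩ := hNB (max NA NB) (le_max_right _ _)
  obtain ⟨h7, h8⟩ := Val.order_of_error h5 (h6.trans_lt hr) hbig
  refine ⟨h7, p.1, p.2, hp2, ?_⟩
  rw [h8, ← hU]
  exact h6

end Pool.Agent.Y206.V
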