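import Pool.Agent.Y206.V.Lead
import Pool.Agent.Y206.V.Col
import Pool.Agent.Y206.Crit

set_option autoImplicit false
set_option linter.unusedSectionVars false
set_option linter.unusedVariables false

/-!
# Reduction to the residue field and the criterion over a valued field
-/

namespace Pool.Agent.Y206.V

open Pool.Agent.Y206

universe u w

variable {K : Type u} [Field K] {v0 : Val K}

/-- the valuation ring -/
def OO (v0 : Val K) : ValuationSubring K where
  carrier := {x | x = 0 ∨ 0 ≤ v0.v x}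
  mul_mem' := by
    intro a b ha hb
    by_cases h1 : a = 0
    · left; rw [h1, zero_mul]
    by_cases h2 : b = 0
    · left; rw [h2, mul_zero]
    right
    rw [v0.mul' h1 h2]
    exact add_nonneg (ha.resolve_left h1) (hb.resolve_left h2)
  one_mem' := Or.inr (by rw [v0.v_one])
  add_mem' := by
    intro a b ha hb
    by_cases h1 : a = 0
    · rw [h1, zero_add]; exact hb
    by_cases h2 : b = 0
    · rw [h2, add_zero]; exact ha
    by_cases h3 : a + b = 0
    · exact Or.inl h3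
    right
    exact (le_min (ha.resolve_left h1) (hb.resolve_left h2)).trans (v0.add' h1 h2 h3)
  zero_mem' := Or.inl rfl
  neg_mem' := by
    intro a ha
    rcases ha with h | h
    · left; rw [h, neg_zero]
    · right; rw [v0.v_neg]; exact h
  mem_or_inv_mem' := by
    intro x
    by_cases hx : x = 0
    · left; exact Or.inl hx
    rcases le_total 0 (v0.v x) with h | h
    · left; exact Or.inr h
    · right; right
      rw [v_inv v0 hx]
      exact neg_nonneg.2 h

theorem mem_OO {x : K} : x ∈ OO v0 ↔ x = 0 ∨ 0 ≤ v0.v x := Iff.rfl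

/-- the residue field -/
abbrev RF (v0 : Val K) : Type u := IsLocalRing.ResidueField (OO v0)

theorem res_ne {x : OO v0} (h : IsLocalRing.residue (OO v0) x ≠ 0) :
    (x : K) ≠ 0 ∧ v0.v (x : K) = 0 := by
  rw [IsLocalRing.residue_ne_zero_iff_isUnit] at h
  obtain ⟨y, hy⟩ := h.exists_right_inv
  have hxy : (x : K) * (y : K) = 1 := by
    have := congrArg (fun z : OO v0 => (z : K)) hy
    simpa using this
  have hx : (x : K) ≠ 0 := left_ne_zero_of_mul_eq_one hxy
  have hy0 : (y : K) ≠ 0 := right_ne_zero_of_mul_eq_one hxy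
  refine ⟨hx, ?_⟩
  have h1 := (mem_OO.1 x.2).resolve_left hx
  have h2 := (mem_OO.1 y.2).resolve_left hy0
  have h3 : v0.v (x : K) + v0.v (y : K) = 0 := by
    rw [← v0.mul' hx hy0, hxy, v0.v_one]
  refine le_antisymm ?_ h1
  rw [← h3]
  exact le_add_of_nonneg_right h2

theorem res_ne_of {x : OO v0} (hx : (x : K) ≠ 0) (h : v0.v (x : K) = 0) :
    IsLocalRing.residue (OO v0) x ≠ 0 := by
  rw [IsLocalRing.residue_ne_zero_iff_isUnit]
  have h1 : (x : K)⁻¹ ∈ OO v0 := by
    rw [mem_OO, v_inv v0 hx, h, neg_zero]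
    exact Or.inr le_rfl
  refine IsUnit.of_mul_eq_one ⟨(x : K)⁻¹, h1⟩ ?_
  apply Subtype.ext
  exact mul_inv_cancel₀ hx

theorem mrh_single {A B ι : Type*} [CommRing A] [CommRing B] [AddMonoid ι] (f : A →+* B) (p : ι)
    (u : A) : AddMonoidAlgebra.mapRingHom ι f (AddMonoidAlgebra.single p u) =
      AddMonoidAlgebra.single p (f u) := AddMonoidAlgebra.map_single _ _ _

theorem mrh_coeff {A B ι : Type*} [CommRing A] [CommRing B] [AddMonoid ι] (f : A →+* B)
    (P : AddMonoidAlgebra A ι) (q : ι) :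
    (AddMonoidAlgebra.mapRingHom ι f P).coeff q = f (P.coeff q) :=
  AddMonoidAlgebra.coeff_mapRingHom _ _ _

/-- change of coefficients commutes with the divided derivatives -/
theorem map_Dr {A B : Type*} [CommRing A] [CommRing B] (f : A →+* B) (r : ℕ)
    (P : AddMonoidAlgebra A (ℤ × ℕ)) :
    Dr r (AddMonoidAlgebra.mapRingHom (ℤ × ℕ) f P) =
      AddMonoidAlgebra.mapRingHom ℤ f (Dr r P) := by
  induction P using AddMonoidAlgebra.induction_linear with
  | zero => simp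
  | add P Q hP hQ => rw [map_add, map_add, hP, hQ, map_add, map_add]
  | single p u =>
    rw [Dr_single, mrh_single, mrh_single, Dr_single, map_mul, map_natCast]

theorem map_lin {A B : Type*} [CommRing A] [CommRing B] (f : A →+* B) (c : A) (e : ℕ) :
    AddMonoidAlgebra.mapRingHom ℤ f ((AddMonoidAlgebra.single (1 : ℤ) (1 : A) -
      AddMonoidAlgebra.single (0 : ℤ) c) ^ e) = (AddMonoidAlgebra.single (1 : ℤ) (1 : B) -
      AddMonoidAlgebra.single (0 : ℤ) (f c)) ^ e := by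
  rw [map_pow, map_sub, mrh_single, mrh_single, map_one]

theorem map_toLaurent {A B : Type*} [CommRing A] [CommRing B] (f : A →+* B)
    (p : Polynomial A) :
    AddMonoidAlgebra.mapRingHom ℤ f (Polynomial.toLaurent p) =
      Polynomial.toLaurent (p.map f) := by
  induction p using Polynomial.induction_on' with
  | add p q hp hq => rw [map_add, map_add, hp, hq, Polynomial.map_add, map_add]
  | monomial n a =>
    rw [Polynomial.map_monomial, ← Polynomial.C_mul_X_pow_eq_monomial,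
      ← Polynomial.C_mul_X_pow_eq_monomial, Polynomial.toLaurent_C_mul_X_pow,
      Polynomial.toLaurent_C_mul_X_pow, ← LaurentPolynomial.single_eq_C_mul_T,
      ← LaurentPolynomial.single_eq_C_mul_T, mrh_single]

/-- descent of divisibility to the valuation ring -/
theorem dvd_descent {A : Type*} [CommRing A] (f : A →+* K) (hf : Function.Injective f) {c : A}
    (hc : f c ≠ 0) (e : ℕ) (P : AddMonoidAlgebra A ℤ)
    (h : (AddMonoidAlgebra.single (1 : ℤ) (1 : K) - AddMonoidAlgebra.single (0 : ℤ) (f c)) ^ e ∣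
      AddMonoidAlgebra.mapRingHom ℤ f P) :
    (AddMonoidAlgebra.single (1 : ℤ) (1 : A) - AddMonoidAlgebra.single (0 : ℤ) c) ^ e ∣ P := by
  obtain ⟨N, g, hg⟩ := LaurentPolynomial.exists_T_pow P
  have h1 : (AddMonoidAlgebra.single (1 : ℤ) (1 : K) -
      AddMonoidAlgebra.single (0 : ℤ) (f c)) ^ e ∣ Polynomial.toLaurent (g.map f) := by
    rw [← map_toLaurent, hg, map_mul]
    exact Dvd.dvd.mul_right h _
  have h2 := dvd_toLaurent hc e h1
  have h3 : ((Polynomial.X - Polynomial.C c) ^ e).map f = (Polynomial.X - Polynomial.C (f c)) ^ e := by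
    simp
  rw [← h3, Polynomial.map_dvd_map f hf ((Polynomial.monic_X_sub_C c).pow e)] at h2
  have h4 : (AddMonoidAlgebra.single (1 : ℤ) (1 : A) - AddMonoidAlgebra.single (0 : ℤ) c) ^ e ∣
      P * LaurentPolynomial.T N := by
    rw [← hg, lin_eq, ← map_pow]
    exact map_dvd _ h2
  exact (LaurentPolynomial.isUnit_T (R := A) N).dvd_mul_right.1 h4

/-- lifting a Laurent polynomial with integral coefficients -/
theorem exists_lift {A B ι : Type*} [CommRing A] [CommRing B] [AddMonoid ι] (f : A →+* B)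
    (P : AddMonoidAlgebra B ι) (h : ∀ p, ∃ a, f a = P.coeff p) :
    ∃ Q : AddMonoidAlgebra A ι, AddMonoidAlgebra.mapRingHom ι f Q = P := by
  choose a ha using h
  refine ⟨∑ p ∈ P.coeff.support, AddMonoidAlgebra.single p (a p), ?_⟩
  rw [map_sum]
  simp only [mrh_single, ha]
  exact AddMonoidAlgebra.sum_coeff_single P

/-- membership in the power of the ideal of the point -/
theorem GG_mem {μ s : K} (k : ℕ) {q : K} (hq : q ≠ 0) {Q : MvPolynomial (Fin 3) K} {m : ℕ}
    (hQ : MultAt (ptK k (μ / s) s q) Q m) (hs : s ≠ 0) :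
    GG μ s k Q ∈ JJ q ^ m := by
  obtain ⟨J, hJ⟩ : ∃ J, J = JJ q := ⟨_, rfl⟩
  obtain ⟨cc, hcc⟩ : ∃ cc : K →+* LP K, cc = AddMonoidAlgebra.singleZeroRingHom := ⟨_, rfl⟩
  have cc_apply : ∀ u, cc u = AddMonoidAlgebra.single ((0 : ℤ), (0 : ℕ)) u := by
    intro u; rw [hcc]; rfl
  have e1 : bz s = cc s * AddMonoidAlgebra.single ((1 : ℤ), (0 : ℕ)) (1 : K) := by
    rw [bz, cc_apply, AddMonoidAlgebra.single_mul_single]; simp
  have e2 : bm μ s = cc (μ / s) * AddMonoidAlgebra.single ((-1 : ℤ), (0 : ℕ)) (1 : K) := by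
    rw [bm, cc_apply, AddMonoidAlgebra.single_mul_single]; simp
  have e3 : (AddMonoidAlgebra.single (-(k : ℤ), (1 : ℕ)) (μ ^ 3 * s) : LP K) =
      cc (μ ^ 3 * s) *
      (AddMonoidAlgebra.single ((-1 : ℤ), (0 : ℕ)) (1 : K) ^ k *
        AddMonoidAlgebra.single ((0 : ℤ), (1 : ℕ)) (1 : K)) := by
    rw [cc_apply, AddMonoidAlgebra.single_pow, AddMonoidAlgebra.single_mul_single,
      AddMonoidAlgebra.single_mul_single]
    simp
  have hT : Ideal.Quotient.mk J (AddMonoidAlgebra.single ((1 : ℤ), (0 : ℕ)) (1 : K)) =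
      Ideal.Quotient.mk J (cc q) := by
    rw [Ideal.Quotient.eq, hJ, cc_apply]
    exact Ideal.subset_span (Set.mem_insert _ _)
  have hY : Ideal.Quotient.mk J (AddMonoidAlgebra.single ((0 : ℤ), (1 : ℕ)) (1 : K)) = 1 := by
    rw [← map_one (Ideal.Quotient.mk J), Ideal.Quotient.eq, hJ]
    exact Ideal.subset_span (Set.mem_insert_of_mem _ rfl)
  have hTi : Ideal.Quotient.mk J (AddMonoidAlgebra.single ((-1 : ℤ), (0 : ℕ)) (1 : K)) =
      Ideal.Quotient.mk J (cc (q⁻¹)) := by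
    have h1 : (AddMonoidAlgebra.single ((-1 : ℤ), (0 : ℕ)) (1 : K) *
        AddMonoidAlgebra.single ((1 : ℤ), (0 : ℕ)) (1 : K) : LP K) = 1 := by
      rw [AddMonoidAlgebra.single_mul_single]
      simp only [Prod.mk_add_mk, neg_add_cancel, add_zero, mul_one]
      rfl
    have h2 : cc q * cc (q⁻¹) = 1 := by
      rw [← map_mul, mul_inv_cancel₀ hq, map_one]
    calc Ideal.Quotient.mk J (AddMonoidAlgebra.single ((-1 : ℤ), (0 : ℕ)) (1 : K))
        = Ideal.Quotient.mk J (AddMonoidAlgebra.single ((-1 : ℤ), (0 : ℕ)) (1 : K)) *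
          Ideal.Quotient.mk J (cc q * cc (q⁻¹)) := by
          rw [h2, map_one, mul_one]
      _ = Ideal.Quotient.mk J (AddMonoidAlgebra.single ((-1 : ℤ), (0 : ℕ)) (1 : K)) *
          Ideal.Quotient.mk J (AddMonoidAlgebra.single ((1 : ℤ), (0 : ℕ)) (1 : K)) *
          Ideal.Quotient.mk J (cc (q⁻¹)) := by
          rw [map_mul, hT, mul_assoc]
      _ = Ideal.Quotient.mk J (cc (q⁻¹)) := by
          rw [← map_mul, h1, map_one, one_mul]
  have hz : Ideal.Quotient.mk J (bz s) =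
      Ideal.Quotient.mk J (cc (ptK k (μ / s) s q 2)) := by
    rw [e1, map_mul, hT, ← map_mul, ← map_mul]
    rfl
  have hm : Ideal.Quotient.mk J (bm μ s) = Ideal.Quotient.mk J (cc (μ / s * q⁻¹)) := by
    rw [e2, map_mul, hTi, ← map_mul, ← map_mul]
  have h34 : (μ / s) ^ 3 * s ^ 4 = μ ^ 3 * s := by
    field_simp
  have hx : Ideal.Quotient.mk J (bx μ s k) =
      Ideal.Quotient.mk J (cc (ptK k (μ / s) s q 0)) := by
    unfold bx
    rw [e3]
    simp only [map_mul, map_add, map_sub, map_pow, map_one, map_ofNat, hm, hY, hTi]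
    rw [hz]
    simp only [ptK, Matrix.cons_val_zero, Matrix.cons_val, h34]
    simp only [map_mul, map_add, map_sub, map_pow, map_one, map_ofNat, mul_one]
  have hmem := taylor_mem cc J (ptK k (μ / s) s q)
    (fun j => (![bx μ s k, 1, bz s] : Fin 3 → LP K) j - cc (ptK k (μ / s) s q j)) (by
      intro j
      fin_cases j
      · exact (Ideal.Quotient.eq).1 hx
      · change (1 : LP K) - cc 1 ∈ J
        rw [map_one, sub_self]
        exact J.zero_mem
      · exact (Ideal.Quotient.eq).1 hz) Q m hQ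
  rw [← hJ]
  have e4 : (fun j => cc (ptK k (μ / s) s q j) + ((![bx μ s k, 1, bz s] : Fin 3 → LP K) j -
      cc (ptK k (μ / s) s q j))) = ![bx μ s k, 1, bz s] := by
    funext j
    ring
  rw [e4, hcc] at hmem
  exact hmem

/-- a column with long enough chord -/
def Chord (β : ℝ) (k d r : ℕ) (h : ℤ) : Prop :=
  ∃ j1 j2 : ℕ, j1 + r ≤ j2 ∧ -(1 + β) * (d - 3 * (j1 : ℝ)) ≤ (h : ℝ) + k * j1 ∧
    (h : ℝ) + k * j2 ≤ (2 - β) * (d - 3 * (j2 : ℝ))

/-- **The criterion** over a valued field. -/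
theorem crit_K (hC : Ctxs K v0) (hv0 : RealV v0) {β : ℝ} (hβ0 : 0 < β) (hβ : β < 3 / 7)
    (hirr : Irrational β) {μ s : K} (hμ0 : μ ≠ 0) (hμ : v0.v μ = pt 1 0) (hs0 : s ≠ 0)
    (hs : v0.v s = pt β 0) (k : ℕ) {n : ℕ} {c : Fin n → K} (hc0 : ∀ i, c i ≠ 0)
    (hc1 : ∀ i, v0.v (c i) = 0) (hc2 : ∀ i j, i ≠ j → c i - c j ≠ 0 ∧ v0.v (c i - c j) = 0)
    (m : Fin n → ℕ) {Q : MvPolynomial (Fin 3) K} {d : ℕ} (hQ : Q.IsHomogeneous d) (hQ0 : Q ≠ 0)
    (hm : ∀ i, MultAt (ptK k (μ / s) s (c i)) Q (m i)) :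
    ∃ (r : ℕ) (h1 h2 : ℤ), ((∑ i, (m i - r) : ℕ) : ℤ) ≤ h2 - h1 ∧
      Chord β k d r h1 ∧ Chord β k d r h2 := by
  classical
  have hG := GG_ne' hC hv0 hirr hμ0 hs0 k hQ hQ0
  obtain ⟨G, hGd⟩ : ∃ G, G = GG μ s k Q := ⟨_, rfl⟩
  rw [← hGd] at hG
  have hne : G.coeff.support.Nonempty := by
    rw [Finsupp.support_nonempty_iff]
    exact fun h => hG (AddMonoidAlgebra.coeff_eq_zero.1 h)
  obtain ⟨p, hp, hmin⟩ := Finset.exists_min_image G.coeff.support
    (fun p => v0.v (G.coeff p)) hne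
  have hp0 := Finsupp.mem_support_iff.1 hp
  obtain ⟨u, hu⟩ : ∃ u, u = (G.coeff p)⁻¹ := ⟨_, rfl⟩
  have hu0 : u ≠ 0 := by rw [hu]; exact inv_ne_zero hp0
  have hvu : v0.v u = - v0.v (G.coeff p) := by rw [hu, v_inv v0 hp0]
  obtain ⟨G', hG'⟩ : ∃ G' : LP K, G' = AddMonoidAlgebra.single ((0 : ℤ), (0 : ℕ)) u * G :=
    ⟨_, rfl⟩
  have hcoeff : ∀ q, G'.coeff q = u * G.coeff q := by
    intro q
    rw [hG']
    exact AddMonoidAlgebra.coeff_single_zero_mul _ _ _
  obtain ⟨P, hP⟩ := exists_lift (OO v0).subtype G' (by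
    intro q
    refine ⟨⟨G'.coeff q, ?_⟩, rfl⟩
    rw [mem_OO, hcoeff]
    by_cases h : G.coeff q = 0
    · left; rw [h, mul_zero]
    · right
      rw [v0.mul' hu0 h, hvu]
      have := hmin q (Finsupp.mem_support_iff.2 h)
      rw [neg_add_eq_sub]
      exact sub_nonneg.2 this)
  have hPc : ∀ q, ((P.coeff q : OO v0) : K) = u * G.coeff q := by
    intro q
    rw [← hcoeff, ← hP, mrh_coeff]
    rfl
  obtain ⟨g, hg⟩ : ∃ g, g = AddMonoidAlgebra.mapRingHom (ℤ × ℕ) (IsLocalRing.residue (OO v0)) P :=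
    ⟨_, rfl⟩
  have hgc : ∀ q, g.coeff q = IsLocalRing.residue (OO v0) (P.coeff q) := by
    intro q
    rw [hg, mrh_coeff]
  have hg0 : g ≠ 0 := by
    intro h
    have h1 : g.coeff p = 0 := by rw [h]; rfl
    rw [hgc] at h1
    have h2 : ((P.coeff p : OO v0) : K) = 1 := by
      rw [hPc, hu, inv_mul_cancel₀ hp0]
    refine res_ne_of (x := P.coeff p) ?_ ?_ h1
    · rw [h2]; exact one_ne_zero
    · rw [h2]; exact v0.v_one
  have hleast : ∀ q, g.coeff q ≠ 0 → IsLeast' v0 G q := by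
    intro q hq
    rw [hgc] at hq
    obtain ⟨h1, h2⟩ := res_ne hq
    rw [hPc] at h1 h2
    have h3 : G.coeff q ≠ 0 := right_ne_zero_of_mul h1
    rw [v0.mul' hu0 h3, hvu, neg_add_eq_zero] at h2
    refine ⟨h3, fun q' hq' => ?_⟩
    rw [← h2]
    exact r1_mono (hmin q' (Finsupp.mem_support_iff.2 hq'))
  have hcO : ∀ i, c i ∈ OO v0 := fun i => mem_OO.2 (Or.inr (by rw [hc1 i]))
  obtain ⟨r, h1, h2, h3, h4, h5⟩ := columns hg0
    (c := fun i => IsLocalRing.residue (OO v0) ⟨c i, hcO i⟩) (by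
      intro i j hij
      by_contra hne
      obtain ⟨h1, h2⟩ := hc2 i j hne
      have h3 : IsLocalRing.residue (OO v0) (⟨c i, hcO i⟩ - ⟨c j, hcO j⟩) = 0 := by
        rw [map_sub]
        exact sub_eq_zero.2 hij
      exact res_ne_of (x := (⟨c i, hcO i⟩ - ⟨c j, hcO j⟩ : OO v0)) h1 h2 h3) (by
      intro i
      exact res_ne_of (x := (⟨c i, hcO i⟩ : OO v0)) (hc0 i) (hc1 i)) m (by
      intro i r
      have h1 := Dr_dvd (c i) (m i) _ (GG_mem k (hc0 i) (hm i) hs0) r
      rw [← hGd] at h1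
      have h2 : (AddMonoidAlgebra.single (1 : ℤ) (1 : K) -
          AddMonoidAlgebra.single (0 : ℤ) ((OO v0).subtype ⟨c i, hcO i⟩)) ^ (m i - r) ∣
          AddMonoidAlgebra.mapRingHom ℤ (OO v0).subtype (Dr r P) := by
        rw [← map_Dr, hP, hG', Dr_T_mul]
        exact Dvd.dvd.mul_left h1 _
      have h3 := dvd_descent (OO v0).subtype Subtype.val_injective (hc0 i) _ _ h2
      rw [hg, map_Dr, ← map_lin]
      exact map_dvd _ h3)
  refine ⟨r, h1, h2, h3, ?_, ?_⟩
  · obtain ⟨j1, j2, a1, a2, a3⟩ := h4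
    refine ⟨j1, j2, a1, ?_, ?_⟩
    · have := hleast _ a2
      rw [hGd] at this
      exact (least_window hC hv0 hβ0 hβ hirr hμ0 hμ hs0 hs k hQ hQ0 this).1
    · have := hleast _ a3
      rw [hGd] at this
      exact (least_window hC hv0 hβ0 hβ hirr hμ0 hμ hs0 hs k hQ hQ0 this).2
  · obtain ⟨j1, j2, a1, a2, a3⟩ := h5
    refine ⟨j1, j2, a1, ?_, ?_⟩
    · have := hleast _ a2
      rw [hGd] at this
      exact (least_window hC hv0 hβ0 hβ hirr hμ0 hμ hs0 hs k hQ hQ0 this).1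
    · have := hleast _ a3
      rw [hGd] at this
      exact (least_window hC hv0 hβ0 hβ hirr hμ0 hμ hs0 hs k hQ hQ0 this).2

end Pool.Agent.Y206.V
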