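import Pool.Agent.Y206.V.Red

set_option autoImplicit false
set_option linter.unusedSectionVars false
set_option linter.unusedVariables false

/-!
# The criterion for perturbed points
-/

namespace Pool.Agent.Y206.V

open Pool.Agent.Y206

universe u w

section Sc

variable {A : Type*} [CommRing A]

/-- scaling of the second variable -/
noncomputable def sc (y : A) : AddMonoidAlgebra A (ℤ × ℕ) →+* AddMonoidAlgebra A (ℤ × ℕ) :=
  AddMonoidAlgebra.liftNCRingHom AddMonoidAlgebra.singleZeroRingHom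
    { toFun := fun p : Multiplicative (ℤ × ℕ) => AddMonoidAlgebra.single p.toAdd (y ^ p.toAdd.2)
      map_one' := by simp; rfl
      map_mul' := by
        intro p q
        rw [AddMonoidAlgebra.single_mul_single, toAdd_mul, Prod.snd_add, pow_add] }
    (fun _ _ => Commute.all _ _)

theorem sc_single (y : A) (p : ℤ × ℕ) (c : A) :
    sc y (AddMonoidAlgebra.single p c) = AddMonoidAlgebra.single p (c * y ^ p.2) := by
  unfold sc
  simp [AddMonoidAlgebra.liftNCRingHom, AddMonoidAlgebra.single_mul_single]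

theorem sc_coeff (y : A) (P : AddMonoidAlgebra A (ℤ × ℕ)) (p : ℤ × ℕ) :
    (sc y P).coeff p = P.coeff p * y ^ p.2 := by
  induction P using AddMonoidAlgebra.induction_linear with
  | zero => simp
  | add P Q hP hQ =>
    rw [map_add, AddMonoidAlgebra.coeff_add, AddMonoidAlgebra.coeff_add, Finsupp.add_apply,
      Finsupp.add_apply, hP, hQ, add_mul]
  | single q c =>
    rw [sc_single, AddMonoidAlgebra.coeff_single, AddMonoidAlgebra.coeff_single,
      Finsupp.single_apply, Finsupp.single_apply]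
    by_cases h : q = p
    · rw [if_pos h, if_pos h, h]
    · rw [if_neg h, if_neg h, zero_mul]

theorem sc_one (P : AddMonoidAlgebra A (ℤ × ℕ)) : sc 1 P = P := by
  induction P using AddMonoidAlgebra.induction_linear with
  | zero => simp
  | add P Q hP hQ => rw [map_add, hP, hQ]
  | single q c => rw [sc_single, one_pow, mul_one]

theorem sc_map {B : Type*} [CommRing B] (f : A →+* B) (y : A) (P : AddMonoidAlgebra A (ℤ × ℕ)) :
    AddMonoidAlgebra.mapRingHom (ℤ × ℕ) f (sc y P) =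
      sc (f y) (AddMonoidAlgebra.mapRingHom (ℤ × ℕ) f P) := by
  induction P using AddMonoidAlgebra.induction_linear with
  | zero => simp
  | add P Q hP hQ => rw [map_add, map_add, hP, hQ, map_add, map_add]
  | single q c => rw [sc_single, mrh_single, mrh_single, sc_single, map_mul, map_pow]

/-- the ideal of a point -/
noncomputable def JJ2 (t y : A) : Ideal (AddMonoidAlgebra A (ℤ × ℕ)) :=
  Ideal.span {AddMonoidAlgebra.single ((1 : ℤ), (0 : ℕ)) (1 : A) -
    AddMonoidAlgebra.single ((0 : ℤ), (0 : ℕ)) t,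
    AddMonoidAlgebra.single ((0 : ℤ), (1 : ℕ)) (1 : A) -
    AddMonoidAlgebra.single ((0 : ℤ), (0 : ℕ)) y}

theorem sc_mem {t y : A} {m : ℕ} {P : AddMonoidAlgebra A (ℤ × ℕ)} (hP : P ∈ JJ2 t y ^ m) :
    sc y P ∈ JJ t ^ m := by
  have h1 : (JJ2 t y).map (sc y) ≤ JJ t := by
    unfold JJ2
    rw [Ideal.map_span, Ideal.span_le]
    rintro _ ⟨x, hx, rfl⟩
    simp only [Set.mem_insert_iff, Set.mem_singleton_iff] at hx
    rcases hx with rfl | rfl
    · rw [map_sub, sc_single, sc_single]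
      simp only [pow_zero, mul_one]
      exact Ideal.subset_span (Set.mem_insert _ _)
    · rw [map_sub, sc_single, sc_single]
      simp only [pow_zero, mul_one, pow_one, one_mul]
      have e : (AddMonoidAlgebra.single ((0 : ℤ), (1 : ℕ)) y -
          AddMonoidAlgebra.single ((0 : ℤ), (0 : ℕ)) y : AddMonoidAlgebra A (ℤ × ℕ)) =
          AddMonoidAlgebra.single ((0 : ℤ), (0 : ℕ)) y *
            (AddMonoidAlgebra.single ((0 : ℤ), (1 : ℕ)) (1 : A) - 1) := by
        rw [mul_sub, mul_one, AddMonoidAlgebra.single_mul_single]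
        simp
      rw [e]
      exact Ideal.mul_mem_left _ _ (Ideal.subset_span (Set.mem_insert_of_mem _ rfl))
  have h2 : sc y P ∈ (JJ2 t y ^ m).map (sc y) := Ideal.mem_map_of_mem _ hP
  rw [Ideal.map_pow] at h2
  exact Ideal.pow_right_mono h1 m h2

end Sc

variable {K : Type u} [Field K] {v0 : Val K}

/-- the point with local coordinates `t`, `y` -/
def ptY (k : ℕ) (μ s t y : K) : Fin 3 → K :=
  ![μ / s * t⁻¹ * (1 + (s * t) ^ 3 + (μ / s * t⁻¹) ^ 3 * (1 + 3 * (s * t) ^ 3) -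
      μ ^ 3 * s * (t⁻¹) ^ k * y), 1, s * t]

theorem ptY_map {L : Type*} [Field L] (φ : K →+* L) (k : ℕ) (μ s t y : K) (j : Fin 3) :
    φ (ptY k μ s t y j) = ptY k (φ μ) (φ s) (φ t) (φ y) j := by
  unfold ptY
  fin_cases j
  · simp [map_ofNat]
  · exact map_one φ
  · exact map_mul φ s t

/-- membership in the power of the ideal of the point -/
theorem GG_mem2 {μ s : K} (k : ℕ) {q y : K} (hq : q ≠ 0) {Q : MvPolynomial (Fin 3) K} {m : ℕ}
    (hQ : MultAt (ptY k μ s q y) Q m) (hs : s ≠ 0) :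
    GG μ s k Q ∈ JJ2 q y ^ m := by
  obtain ⟨J, hJ⟩ : ∃ J, J = JJ2 q y := ⟨_, rfl⟩
  obtain ⟨cc, hcc⟩ : ∃ cc : K →+* LP K, cc = AddMonoidAlgebra.singleZeroRingHom := ⟨_, rfl⟩
  have cc_apply : ∀ u, cc u = AddMonoidAlgebra.single ((0 : ℤ), (0 : ℕ)) u := by
    intro u; rw [hcc]; rfl
  have e1 : bz s = cc s * AddMonoidAlgebra.single ((1 : ℤ), (0 : ℕ)) (1 : K) := by
    rw [bz, cc_apply, AddMonoidAlgebra.single_mul_single]; simp
  have e2 : bm μ s = cc (μ / s) * AddMonoidAlgebra.single ((-1 : ℤ), (0 : ℕ)) (1 : K) := by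
    rw [bm, cc_apply, AddMonoidAlgebra.single_mul_single]; simp
  have e3 : (AddMonoidAlgebra.single (-(k : ℤ), (1 : ℕ)) (μ ^ 3 * s) : LP K) =
      cc (μ ^ 3 * s) *
      (AddMonoidAlgebra.single ((-1 : ℤ), (0 : ℕ)) (1 : K) ^ k *
        AddMonoidAlgebra.single ((0 : ℤ), (1 : ℕ)) (1 : K)) := by
    rw [cc_apply, AddMonoidAlgebra.single_pow, AddMonoidAlgebra.single_mul_single,
      AddMonoidAlgebra.single_mul_single]
    simp
  have hT : Ideal.Quotient.mk J (AddMonoidAlgebra.single ((1 : ℤ), (0 : ℕ)) (1 : K)) =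
      Ideal.Quotient.mk J (cc q) := by
    rw [Ideal.Quotient.eq, hJ, cc_apply]
    exact Ideal.subset_span (Set.mem_insert _ _)
  have hY : Ideal.Quotient.mk J (AddMonoidAlgebra.single ((0 : ℤ), (1 : ℕ)) (1 : K)) =
      Ideal.Quotient.mk J (cc y) := by
    rw [Ideal.Quotient.eq, hJ, cc_apply]
    exact Ideal.subset_span (Set.mem_insert_of_mem _ rfl)
  have hTi : Ideal.Quotient.mk J (AddMonoidAlgebra.single ((-1 : ℤ), (0 : ℕ)) (1 : K)) =
      Ideal.Quotient.mk J (cc (q⁻¹)) := by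
    have h1 : (AddMonoidAlgebra.single ((-1 : ℤ), (0 : ℕ)) (1 : K) *
        AddMonoidAlgebra.single ((1 : ℤ), (0 : ℕ)) (1 : K) : LP K) = 1 := by
      rw [AddMonoidAlgebra.single_mul_single]
      simp only [Prod.mk_add_mk, neg_add_cancel, add_zero, mul_one]
      rfl
    have h2 : cc q * cc (q⁻¹) = 1 := by
      rw [← map_mul, mul_inv_cancel₀ hq, map_one]
    calc Ideal.Quotient.mk J (AddMonoidAlgebra.single ((-1 : ℤ), (0 : ℕ)) (1 : K))
        = Ideal.Quotient.mk J (AddMonoidAlgebra.single ((-1 : ℤ), (0 : ℕ)) (1 : K)) *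
          Ideal.Quotient.mk J (cc q * cc (q⁻¹)) := by
          rw [h2, map_one, mul_one]
      _ = Ideal.Quotient.mk J (AddMonoidAlgebra.single ((-1 : ℤ), (0 : ℕ)) (1 : K)) *
          Ideal.Quotient.mk J (AddMonoidAlgebra.single ((1 : ℤ), (0 : ℕ)) (1 : K)) *
          Ideal.Quotient.mk J (cc (q⁻¹)) := by
          rw [map_mul, hT, mul_assoc]
      _ = Ideal.Quotient.mk J (cc (q⁻¹)) := by
          rw [← map_mul, h1, map_one, one_mul]
  have hz : Ideal.Quotient.mk J (bz s) =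
      Ideal.Quotient.mk J (cc (ptY k μ s q y 2)) := by
    rw [e1, map_mul, hT, ← map_mul, ← map_mul]
    rfl
  have hm : Ideal.Quotient.mk J (bm μ s) = Ideal.Quotient.mk J (cc (μ / s * q⁻¹)) := by
    rw [e2, map_mul, hTi, ← map_mul, ← map_mul]
  have hx : Ideal.Quotient.mk J (bx μ s k) =
      Ideal.Quotient.mk J (cc (ptY k μ s q y 0)) := by
    unfold bx
    rw [e3]
    simp only [map_mul, map_add, map_sub, map_pow, map_one, map_ofNat, hm, hY, hTi]
    rw [hz]
    simp only [ptY, Matrix.cons_val_zero, Matrix.cons_val]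
    simp only [map_mul, map_add, map_sub, map_pow, map_one, map_ofNat]
    ring
  have hmem := taylor_mem cc J (ptY k μ s q y)
    (fun j => (![bx μ s k, 1, bz s] : Fin 3 → LP K) j - cc (ptY k μ s q y j)) (by
      intro j
      fin_cases j
      · exact (Ideal.Quotient.eq).1 hx
      · change (1 : LP K) - cc 1 ∈ J
        rw [map_one, sub_self]
        exact J.zero_mem
      · exact (Ideal.Quotient.eq).1 hz) Q m hQ
  rw [← hJ]
  have e4 : (fun j => cc (ptY k μ s q y j) + ((![bx μ s k, 1, bz s] : Fin 3 → LP K) j -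
      cc (ptY k μ s q y j))) = ![bx μ s k, 1, bz s] := by
    funext j
    ring
  rw [e4, hcc] at hmem
  exact hmem

/-- **The criterion** over a valued field, for perturbed points. -/
theorem crit_K2 (hC : Ctxs K v0) (hv0 : RealV v0) {β : ℝ} (hβ0 : 0 < β) (hβ : β < 3 / 7)
    (hirr : Irrational β) {μ s : K} (hμ0 : μ ≠ 0) (hμ : v0.v μ = pt 1 0) (hs0 : s ≠ 0)
    (hs : v0.v s = pt β 0) (k : ℕ) {n : ℕ} {c y : Fin n → K} (hc0 : ∀ i, c i ≠ 0)
    (hc1 : ∀ i, v0.v (c i) = 0) (hc2 : ∀ i j, i ≠ j → c i - c j ≠ 0 ∧ v0.v (c i - c j) = 0)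
    (hy : ∀ i, y i - 1 = 0 ∨ 0 < v0.v (y i - 1))
    (m : Fin n → ℕ) {Q : MvPolynomial (Fin 3) K} {d : ℕ} (hQ : Q.IsHomogeneous d) (hQ0 : Q ≠ 0)
    (hm : ∀ i, MultAt (ptY k μ s (c i) (y i)) Q (m i)) :
    ∃ (r : ℕ) (h1 h2 : ℤ), ((∑ i, (m i - r) : ℕ) : ℤ) ≤ h2 - h1 ∧
      Chord β k d r h1 ∧ Chord β k d r h2 := by
  classical
  have hG := GG_ne' hC hv0 hirr hμ0 hs0 k hQ hQ0
  obtain ⟨G, hGd⟩ : ∃ G, G = GG μ s k Q := ⟨_, rfl⟩
  rw [← hGd] at hG
  have hne : G.coeff.support.Nonempty := by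
    rw [Finsupp.support_nonempty_iff]
    exact fun h => hG (AddMonoidAlgebra.coeff_eq_zero.1 h)
  obtain ⟨p, hp, hmin⟩ := Finset.exists_min_image G.coeff.support
    (fun p => v0.v (G.coeff p)) hne
  have hp0 := Finsupp.mem_support_iff.1 hp
  obtain ⟨u, hu⟩ : ∃ u, u = (G.coeff p)⁻¹ := ⟨_, rfl⟩
  have hu0 : u ≠ 0 := by rw [hu]; exact inv_ne_zero hp0
  have hvu : v0.v u = - v0.v (G.coeff p) := by rw [hu, v_inv v0 hp0]
  obtain ⟨G', hG'⟩ : ∃ G' : LP K, G' = AddMonoidAlgebra.single ((0 : ℤ), (0 : ℕ)) u * G :=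
    ⟨_, rfl⟩
  have hcoeff : ∀ q, G'.coeff q = u * G.coeff q := by
    intro q
    rw [hG']
    exact AddMonoidAlgebra.coeff_single_zero_mul _ _ _
  obtain ⟨P, hP⟩ := exists_lift (OO v0).subtype G' (by
    intro q
    refine ⟨⟨G'.coeff q, ?_⟩, rfl⟩
    rw [mem_OO, hcoeff]
    by_cases h : G.coeff q = 0
    · left; rw [h, mul_zero]
    · right
      rw [v0.mul' hu0 h, hvu]
      have := hmin q (Finsupp.mem_support_iff.2 h)
      rw [neg_add_eq_sub]
      exact sub_nonneg.2 this)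
  have hPc : ∀ q, ((P.coeff q : OO v0) : K) = u * G.coeff q := by
    intro q
    rw [← hcoeff, ← hP, mrh_coeff]
    rfl
  obtain ⟨g, hg⟩ : ∃ g, g = AddMonoidAlgebra.mapRingHom (ℤ × ℕ) (IsLocalRing.residue (OO v0)) P :=
    ⟨_, rfl⟩
  have hgc : ∀ q, g.coeff q = IsLocalRing.residue (OO v0) (P.coeff q) := by
    intro q
    rw [hg, mrh_coeff]
  have hg0 : g ≠ 0 := by
    intro h
    have h1 : g.coeff p = 0 := by rw [h]; rfl
    rw [hgc] at h1
    have h2 : ((P.coeff p : OO v0) : K) = 1 := by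
      rw [hPc, hu, inv_mul_cancel₀ hp0]
    refine res_ne_of (x := P.coeff p) ?_ ?_ h1
    · rw [h2]; exact one_ne_zero
    · rw [h2]; exact v0.v_one
  have hleast : ∀ q, g.coeff q ≠ 0 → IsLeast' v0 G q := by
    intro q hq
    rw [hgc] at hq
    obtain ⟨h1, h2⟩ := res_ne hq
    rw [hPc] at h1 h2
    have h3 : G.coeff q ≠ 0 := right_ne_zero_of_mul h1
    rw [v0.mul' hu0 h3, hvu, neg_add_eq_zero] at h2
    refine ⟨h3, fun q' hq' => ?_⟩
    rw [← h2]
    exact r1_mono (hmin q' (Finsupp.mem_support_iff.2 hq'))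
  have hcO : ∀ i, c i ∈ OO v0 := fun i => mem_OO.2 (Or.inr (by rw [hc1 i]))
  have hyO : ∀ i, y i ∈ OO v0 := by
    intro i
    have h1 : y i - 1 ∈ OO v0 := mem_OO.2 ((hy i).imp id le_of_lt)
    have h2 := (OO v0).add_mem _ _ h1 (OO v0).one_mem
    rwa [sub_add_cancel] at h2
  have hy1 : ∀ i, IsLocalRing.residue (OO v0) ⟨y i, hyO i⟩ = 1 := by
    intro i
    by_contra hne
    have h1 : IsLocalRing.residue (OO v0) (⟨y i, hyO i⟩ - 1) ≠ 0 := by
      rw [map_sub, map_one]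
      exact sub_ne_zero.2 hne
    obtain ⟨h2, h3⟩ := res_ne h1
    rcases hy i with h4 | h4
    · exact h2 h4
    · have h5 : v0.v (y i - 1) = 0 := h3
      rw [h5] at h4
      exact lt_irrefl _ h4
  obtain ⟨r, h1, h2, h3, h4, h5⟩ := columns hg0
    (c := fun i => IsLocalRing.residue (OO v0) ⟨c i, hcO i⟩) (by
      intro i j hij
      by_contra hne
      obtain ⟨h1, h2⟩ := hc2 i j hne
      have h3 : IsLocalRing.residue (OO v0) (⟨c i, hcO i⟩ - ⟨c j, hcO j⟩) = 0 := by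
        rw [map_sub]
        exact sub_eq_zero.2 hij
      exact res_ne_of (x := (⟨c i, hcO i⟩ - ⟨c j, hcO j⟩ : OO v0)) h1 h2 h3) (by
      intro i
      exact res_ne_of (x := (⟨c i, hcO i⟩ : OO v0)) (hc0 i) (hc1 i)) m (by
      intro i r
      have h0 := GG_mem2 k (hc0 i) (hm i) hs0
      rw [← hGd] at h0
      have h0' : G' ∈ JJ2 (c i) (y i) ^ m i := by
        rw [hG']
        exact Ideal.mul_mem_left _ _ h0
      have h1 := Dr_dvd (c i) (m i) _ (sc_mem h0') r
      have h2 : (AddMonoidAlgebra.single (1 : ℤ) (1 : K) -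
          AddMonoidAlgebra.single (0 : ℤ) ((OO v0).subtype ⟨c i, hcO i⟩)) ^ (m i - r) ∣
          AddMonoidAlgebra.mapRingHom ℤ (OO v0).subtype (Dr r (sc ⟨y i, hyO i⟩ P)) := by
        rw [← map_Dr, sc_map, hP]
        exact h1
      have h3 := dvd_descent (OO v0).subtype Subtype.val_injective (hc0 i) _ _ h2
      have h4 : Dr r g = AddMonoidAlgebra.mapRingHom ℤ (IsLocalRing.residue (OO v0))
          (Dr r (sc ⟨y i, hyO i⟩ P)) := by
        rw [← map_Dr, sc_map, hy1 i, sc_one, ← hg]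
      rw [h4, ← map_lin]
      exact map_dvd _ h3)
  refine ⟨r, h1, h2, h3, ?_, ?_⟩
  · obtain ⟨j1, j2, a1, a2, a3⟩ := h4
    refine ⟨j1, j2, a1, ?_, ?_⟩
    · have := hleast _ a2
      rw [hGd] at this
      exact (least_window hC hv0 hβ0 hβ hirr hμ0 hμ hs0 hs k hQ hQ0 this).1
    · have := hleast _ a3
      rw [hGd] at this
      exact (least_window hC hv0 hβ0 hβ hirr hμ0 hμ hs0 hs k hQ hQ0 this).2
  · obtain ⟨j1, j2, a1, a2, a3⟩ := h5
    refine ⟨j1, j2, a1, ?_, ?_⟩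
    · have := hleast _ a2
      rw [hGd] at this
      exact (least_window hC hv0 hβ0 hβ hirr hμ0 hμ hs0 hs k hQ hQ0 this).1
    · have := hleast _ a3
      rw [hGd] at this
      exact (least_window hC hv0 hβ0 hβ hirr hμ0 hμ hs0 hs k hQ hQ0 this).2

end Pool.Agent.Y206.V
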