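import Pool.Agent.Y206.Gauss

set_option autoImplicit false
set_option linter.unusedSectionVars false

/-!
# Valuations with values in the lexicographic plane

Additive valuations, their extension to monoid algebras with independent weights and to fraction
fields.
-/

namespace Pool.Agent.Y206.V

open Pool.Agent.Y206

/-- a valuation, given on the nonzero elements -/
structure Val (A : Type*) [CommRing A] where
  /-- the value -/
  v : A → Gam
  mul' : ∀ {x y : A}, x ≠ 0 → y ≠ 0 → v (x * y) = v x + v y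
  add' : ∀ {x y : A}, x ≠ 0 → y ≠ 0 → x + y ≠ 0 → min (v x) (v y) ≤ v (x + y)

namespace Val

variable {A : Type*} [CommRing A] [IsDomain A] (V : Val A)

theorem v_one : V.v 1 = 0 := by
  have h := V.mul' (one_ne_zero (α := A)) one_ne_zero
  rw [mul_one] at h
  exact left_eq_add.1 h

theorem v_neg_one : V.v (-1) = 0 := by
  have h := V.mul' (neg_ne_zero.2 (one_ne_zero (α := A))) (neg_ne_zero.2 one_ne_zero)
  rw [neg_mul_neg, mul_one, V.v_one] at h
  have h1 := congrArg r1 h
  have h2 := congrArg r2 h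
  simp only [r1_zero, r2_zero, r1_add, r2_add] at h1 h2
  exact gam_ext (by simp only [r1_zero]; linarith) (by simp only [r2_zero]; linarith)

theorem v_neg (x : A) : V.v (-x) = V.v x := by
  by_cases hx : x = 0
  · rw [hx, neg_zero]
  · rw [← neg_one_mul, V.mul' (neg_ne_zero.2 one_ne_zero) hx, V.v_neg_one, zero_add]

theorem v_pow {x : A} (hx : x ≠ 0) (n : ℕ) : V.v (x ^ n) = n • V.v x := by
  induction n with
  | zero => rw [pow_zero, V.v_one, zero_nsmul]
  | succ n ih => rw [pow_succ, V.mul' (pow_ne_zero _ hx) hx, ih, succ_nsmul]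

theorem add_eq {x y : A} (hx : x ≠ 0) (h : y = 0 ∨ V.v x < V.v y) :
    x + y ≠ 0 ∧ V.v (x + y) = V.v x := by
  rcases h with h | h
  · rw [h, add_zero]; exact ⟨hx, rfl⟩
  by_cases hy : y = 0
  · rw [hy, add_zero]; exact ⟨hx, rfl⟩
  have h0 : x + y ≠ 0 := by
    intro h0
    have : y = -x := by rw [eq_neg_iff_add_eq_zero, add_comm]; exact h0
    rw [this, V.v_neg] at h
    exact lt_irrefl _ h
  refine ⟨h0, le_antisymm ?_ ?_⟩
  · have h1 : x = (x + y) + (-y) := by ring
    have h2 := V.add' h0 (neg_ne_zero.2 hy) (by rw [← h1]; exact hx)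
    rw [← h1, V.v_neg] at h2
    rcases min_le_iff.1 h2 with h3 | h3
    · exact h3
    · exact absurd h3 (not_le.2 h)
  · have := V.add' hx hy h0
    rwa [min_eq_left h.le] at this

theorem lt_sum {ι : Type*} (s : Finset ι) (f : ι → A) (g : Gam)
    (h : ∀ i ∈ s, f i = 0 ∨ g < V.v (f i)) : (∑ i ∈ s, f i) = 0 ∨ g < V.v (∑ i ∈ s, f i) := by
  classical
  induction s using Finset.induction_on with
  | empty => left; simp
  | insert i s hi ih =>
    rw [Finset.sum_insert hi]
    have h1 := h i (Finset.mem_insert_self _ _)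
    have h2 := ih fun j hj => h j (Finset.mem_insert_of_mem hj)
    by_cases h3 : f i = 0
    · rw [h3, zero_add]; exact h2
    by_cases h4 : (∑ i ∈ s, f i) = 0
    · rw [h4, add_zero]; exact h1
    by_cases h5 : f i + ∑ i ∈ s, f i = 0
    · exact Or.inl h5
    · right
      refine lt_of_lt_of_le (lt_min ?_ ?_) (V.add' h3 h4 h5)
      · exact h1.resolve_left h3
      · exact h2.resolve_left h4

/-- zero or of value at least `r` (in real part) -/
def Big (r : ℝ) (q : A) : Prop := q = 0 ∨ r ≤ r1 (V.v q)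

variable {V}

theorem Big.mono {r r' : ℝ} {q : A} (h : V.Big r q) (hr : r' ≤ r) : V.Big r' q :=
  h.imp id fun h => hr.trans h

theorem Big.zero (r : ℝ) : V.Big r (0 : A) := Or.inl rfl

theorem Big.add {r : ℝ} {p q : A} (hp : V.Big r p) (hq : V.Big r q) : V.Big r (p + q) := by
  by_cases h1 : p = 0
  · rw [h1, zero_add]; exact hq
  by_cases h2 : q = 0
  · rw [h2, add_zero]; exact hp
  by_cases h3 : p + q = 0
  · exact Or.inl h3
  right
  have h4 := r1_mono (V.add' h1 h2 h3)
  refine le_trans ?_ h4
  rcases min_cases (V.v p) (V.v q) with h5 | h5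
  · rw [h5.1]; exact hp.resolve_left h1
  · rw [h5.1]; exact hq.resolve_left h2

theorem Big.neg {r : ℝ} {p : A} (hp : V.Big r p) : V.Big r (-p) := by
  rcases hp with h | h
  · rw [h, neg_zero]; exact Big.zero r
  · right; rw [V.v_neg]; exact h

theorem Big.sub {r : ℝ} {p q : A} (hp : V.Big r p) (hq : V.Big r q) : V.Big r (p - q) := by
  rw [sub_eq_add_neg]
  exact hp.add hq.neg

theorem Big.mul {r s : ℝ} {p q : A} (hp : V.Big r p) (hq : V.Big s q) :
    V.Big (r + s) (p * q) := by
  by_cases h1 : p = 0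
  · rw [h1, zero_mul]; exact Big.zero _
  by_cases h2 : q = 0
  · rw [h2, mul_zero]; exact Big.zero _
  right
  rw [V.mul' h1 h2, r1_add]
  have := hp.resolve_left h1
  have := hq.resolve_left h2
  linarith

theorem Big.one : V.Big 0 (1 : A) := by
  right; rw [V.v_one]; simp

theorem Big.pow {r : ℝ} {p : A} (hp : V.Big r p) (n : ℕ) : V.Big (n * r) (p ^ n) := by
  induction n with
  | zero =>
    rw [pow_zero]
    refine Big.one.mono ?_
    simp
  | succ n ih =>
    rw [pow_succ]
    refine (ih.mul hp).mono (le_of_eq ?_)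
    push_cast
    ring

theorem Big.self (q : A) : V.Big (r1 (V.v q)) q := Or.inr le_rfl

/-- a small error does not change the value -/
theorem order_of_error {r : ℝ} {p q : A} (hp : p ≠ 0) (hr : r1 (V.v p) < r)
    (h : V.Big r (q - p)) : q ≠ 0 ∧ V.v q = V.v p := by
  have e : q = p + (q - p) := by ring
  have := V.add_eq (x := p) (y := q - p) hp (h.imp id fun h => lt_of_r1_lt (hr.trans_le h))
  rwa [← e] at this

end Val

section Mon

variable {A : Type*} [CommRing A] [IsDomain A] {M : Type*} [AddCommMonoid M]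

/-- lower bound for the values of all terms -/
def GeM (V : Val A) (w : M →+ Gam) (g : Gam) (P : AddMonoidAlgebra A M) : Prop :=
  ∀ p, P.coeff p ≠ 0 → g ≤ V.v (P.coeff p) + w p

/-- strict lower bound for the values of all terms -/
def GtM (V : Val A) (w : M →+ Gam) (g : Gam) (P : AddMonoidAlgebra A M) : Prop :=
  ∀ p, P.coeff p ≠ 0 → g < V.v (P.coeff p) + w p

theorem GtM.add {V : Val A} {w : M →+ Gam} {g : Gam} {P Q : AddMonoidAlgebra A M}
    (hP : GtM V w g P) (hQ : GtM V w g Q) : GtM V w g (P + Q) := by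
  intro p hp
  have e : (P + Q).coeff p = P.coeff p + Q.coeff p := rfl
  rw [e] at hp ⊢
  by_cases h1 : P.coeff p = 0
  · rw [h1, zero_add] at hp ⊢; exact hQ p hp
  by_cases h2 : Q.coeff p = 0
  · rw [h2, add_zero] at hp ⊢; exact hP p hp
  have h3 := V.add' h1 h2 hp
  have h4 := hP p h1
  have h5 := hQ p h2
  rcases min_le_iff.1 h3 with h6 | h6
  · exact h4.trans_le (by gcongr)
  · exact h5.trans_le (by gcongr)

theorem GtM.zero {V : Val A} {w : M →+ Gam} {g : Gam} :
    GtM V w g (0 : AddMonoidAlgebra A M) := fun _ hp => absurd rfl hp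

theorem GtM.sum {V : Val A} {w : M →+ Gam} {g : Gam} {ι : Type*} (s : Finset ι)
    (f : ι → AddMonoidAlgebra A M) (h : ∀ i ∈ s, GtM V w g (f i)) :
    GtM V w g (∑ i ∈ s, f i) := by
  classical
  induction s using Finset.induction_on with
  | empty => exact GtM.zero
  | insert i s hi ih =>
    rw [Finset.sum_insert hi]
    exact (h i (Finset.mem_insert_self _ _)).add
      (ih fun j hj => h j (Finset.mem_insert_of_mem hj))

theorem GtM.single {V : Val A} {w : M →+ Gam} {g : Gam} {p : M} {a : A}
    (h : a ≠ 0 → g < V.v a + w p) : GtM V w g (AddMonoidAlgebra.single p a) := by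
  classical
  intro q hq
  rw [AddMonoidAlgebra.coeff_single, Finsupp.single_apply] at hq ⊢
  by_cases hpq : p = q
  · rw [if_pos hpq] at hq ⊢
    rw [← hpq]; exact h hq
  · rw [if_neg hpq] at hq
    exact absurd rfl hq

theorem GtM.mul_right {V : Val A} {w : M →+ Gam} {g d : Gam} {P Q : AddMonoidAlgebra A M}
    (hP : GtM V w g P) (hQ : GeM V w d Q) : GtM V w (g + d) (P * Q) := by
  rw [AddMonoidAlgebra.mul_def]
  refine GtM.sum _ _ fun p hp => GtM.sum _ _ fun q hq => GtM.single fun _ => ?_
  have h1 := Finsupp.mem_support_iff.1 hp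
  have h2 := Finsupp.mem_support_iff.1 hq
  rw [V.mul' h1 h2, map_add]
  have h3 := hP p h1
  have h4 := hQ q h2
  calc g + d < (V.v (P.coeff p) + w p) + (V.v (Q.coeff q) + w q) := add_lt_add_of_lt_of_le h3 h4
    _ = _ := by abel

/-- leading exponent -/
def IsLead (V : Val A) (w : M →+ Gam) (P : AddMonoidAlgebra A M) (p : M) : Prop :=
  P.coeff p ≠ 0 ∧ ∀ q, q ≠ p → P.coeff q ≠ 0 → V.v (P.coeff p) + w p < V.v (P.coeff q) + w q

/-- independence of the weights -/
def IndW (V : Val A) (w : M →+ Gam) : Prop :=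
  ∀ a b : A, a ≠ 0 → b ≠ 0 → ∀ p q, V.v a + w p = V.v b + w q → p = q

theorem exists_lead {V : Val A} {w : M →+ Gam} (hI : IndW V w) {P : AddMonoidAlgebra A M}
    (hP : P ≠ 0) : ∃ p, IsLead V w P p := by
  have hne : P.coeff.support.Nonempty := by
    rw [Finsupp.support_nonempty_iff]
    exact fun h => hP (AddMonoidAlgebra.coeff_eq_zero.1 h)
  obtain ⟨p, hp, hmin⟩ := Finset.exists_min_image P.coeff.support
    (fun p => V.v (P.coeff p) + w p) hne
  have hp0 := Finsupp.mem_support_iff.1 hp
  refine ⟨p, hp0, fun q hqp hq => lt_of_le_of_ne (hmin q (Finsupp.mem_support_iff.2 hq)) ?_⟩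
  intro h
  exact hqp (hI _ _ hq hp0 _ _ h.symm)

theorem IsLead.unique {V : Val A} {w : M →+ Gam} {P : AddMonoidAlgebra A M} {p q : M}
    (hp : IsLead V w P p) (hq : IsLead V w P q) : p = q := by
  by_contra hne
  exact lt_asymm (hp.2 q (Ne.symm hne) hq.1) (hq.2 p hne hp.1)

theorem IsLead.ge {V : Val A} {w : M →+ Gam} {P : AddMonoidAlgebra A M} {p : M}
    (hp : IsLead V w P p) : GeM V w (V.v (P.coeff p) + w p) P := by
  intro q hq
  by_cases h : q = p
  · rw [h]
  · exact (hp.2 q h hq).le

open Classical in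
theorem IsLead.mul {V : Val A} {w : M →+ Gam} (hI : IndW V w) {P Q : AddMonoidAlgebra A M}
    {p q : M} (hp : IsLead V w P p) (hq : IsLead V w Q q) :
    IsLead V w (P * Q) (p + q) ∧ V.v ((P * Q).coeff (p + q)) + w (p + q) =
      (V.v (P.coeff p) + w p) + (V.v (Q.coeff q) + w q) := by
  obtain ⟨P', hP'⟩ : ∃ P', P' = P - AddMonoidAlgebra.single p (P.coeff p) := ⟨_, rfl⟩
  obtain ⟨Q', hQ'⟩ : ∃ Q', Q' = Q - AddMonoidAlgebra.single q (Q.coeff q) := ⟨_, rfl⟩
  have hgt : ∀ (R R' : AddMonoidAlgebra A M) (r : M), IsLead V w R r →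
      R' = R - AddMonoidAlgebra.single r (R.coeff r) →
      GtM V w (V.v (R.coeff r) + w r) R' := by
    intro R R' r hr hR' u hu
    have e : R'.coeff u = R.coeff u - (if r = u then R.coeff r else 0) := by
      rw [hR']
      have : (R - AddMonoidAlgebra.single r (R.coeff r)).coeff u =
        R.coeff u - (Finsupp.single r (R.coeff r)) u := rfl
      rw [this, Finsupp.single_apply]
    by_cases hru : r = u
    · rw [e, if_pos hru, ← hru, sub_self] at hu
      exact absurd rfl hu
    · rw [e, if_neg hru, sub_zero] at hu ⊢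
      exact hr.2 u (Ne.symm hru) hu
  have hgP := hgt P P' p hp hP'
  have hgQ := hgt Q Q' q hq hQ'
  have hsq : GeM V w (V.v (Q.coeff q) + w q) Q := hq.ge
  have hsp : GeM V w (V.v (P.coeff p) + w p) (AddMonoidAlgebra.single p (P.coeff p)) := by
    intro u hu
    rw [AddMonoidAlgebra.coeff_single, Finsupp.single_apply] at hu ⊢
    by_cases hpu : p = u
    · rw [if_pos hpu, hpu]
    · rw [if_neg hpu] at hu
      exact absurd rfl hu
  obtain ⟨X, hX⟩ : ∃ X, X = P' * Q + Q' * AddMonoidAlgebra.single p (P.coeff p) := ⟨_, rfl⟩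
  have hPQ : P * Q = AddMonoidAlgebra.single (p + q) (P.coeff p * Q.coeff q) + X := by
    rw [← AddMonoidAlgebra.single_mul_single, hX, hP', hQ']
    ring
  have hXgt : GtM V w ((V.v (P.coeff p) + w p) + (V.v (Q.coeff q) + w q)) X := by
    rw [hX]
    refine (hgP.mul_right hsq).add ?_
    have := hgQ.mul_right hsp
    rwa [add_comm] at this
  have hab : P.coeff p * Q.coeff q ≠ 0 := mul_ne_zero hp.1 hq.1
  have hc : (P * Q).coeff (p + q) = P.coeff p * Q.coeff q + X.coeff (p + q) := by
    rw [hPQ]
    have : (AddMonoidAlgebra.single (p + q) (P.coeff p * Q.coeff q) + X).coeff (p + q) =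
      (Finsupp.single (p + q) (P.coeff p * Q.coeff q)) (p + q) + X.coeff (p + q) := rfl
    rw [this, Finsupp.single_eq_same]
  have h1 : (P * Q).coeff (p + q) ≠ 0 ∧ V.v ((P * Q).coeff (p + q)) =
      V.v (P.coeff p * Q.coeff q) := by
    rw [hc]
    apply V.add_eq hab
    by_cases hx : X.coeff (p + q) = 0
    · exact Or.inl hx
    · right
      have h2 := hXgt _ hx
      rw [V.mul' hp.1 hq.1]
      rw [map_add w p q] at h2
      have h3 : (V.v (P.coeff p) + V.v (Q.coeff q)) + (w p + w q) <
          V.v (X.coeff (p + q)) + (w p + w q) := by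
        calc _ = V.v (P.coeff p) + w p + (V.v (Q.coeff q) + w q) := by abel
          _ < _ := h2
      exact lt_of_add_lt_add_right h3
  have hval : V.v ((P * Q).coeff (p + q)) + w (p + q) =
      (V.v (P.coeff p) + w p) + (V.v (Q.coeff q) + w q) := by
    rw [h1.2, V.mul' hp.1 hq.1, map_add]
    abel
  refine ⟨⟨h1.1, fun u hu hu0 => ?_⟩, hval⟩
  rw [hval]
  have e : (P * Q).coeff u = X.coeff u := by
    rw [hPQ]
    have : (AddMonoidAlgebra.single (p + q) (P.coeff p * Q.coeff q) + X).coeff u =
      (Finsupp.single (p + q) (P.coeff p * Q.coeff q)) u + X.coeff u := rfl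
    rw [this, Finsupp.single_eq_of_ne hu, zero_add]
  rw [e] at hu0 ⊢
  exact hXgt u hu0

open Classical in
/-- the value of an element of the monoid algebra -/
noncomputable def vM (V : Val A) (w : M →+ Gam) (P : AddMonoidAlgebra A M) : Gam :=
  if h : ∃ p, IsLead V w P p then V.v (P.coeff h.choose) + w h.choose else 0

theorem vM_eq {V : Val A} {w : M →+ Gam} {P : AddMonoidAlgebra A M} {p : M}
    (hp : IsLead V w P p) : vM V w P = V.v (P.coeff p) + w p := by
  have h : ∃ p, IsLead V w P p := ⟨p, hp⟩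
  unfold vM
  rw [dif_pos h]
  rw [h.choose_spec.unique hp]

theorem vM_le {V : Val A} {w : M →+ Gam} (hI : IndW V w) {P : AddMonoidAlgebra A M} {q : M}
    (hq : P.coeff q ≠ 0) : vM V w P ≤ V.v (P.coeff q) + w q := by
  have hP : P ≠ 0 := by
    intro h
    rw [h] at hq
    exact hq rfl
  obtain ⟨p, hp⟩ := exists_lead hI hP
  rw [vM_eq hp]
  exact hp.ge q hq

/-- monoid algebras over a domain have no zero divisors when weights are independent -/
theorem mul_ne_zero_mon {V : Val A} {w : M →+ Gam} (hI : IndW V w) {P Q : AddMonoidAlgebra A M}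
    (hP : P ≠ 0) (hQ : Q ≠ 0) : P * Q ≠ 0 := by
  obtain ⟨p, hp⟩ := exists_lead hI hP
  obtain ⟨q, hq⟩ := exists_lead hI hQ
  have h := (hp.mul hI hq).1.1
  intro h0
  rw [h0] at h
  exact h rfl

/-- the extension of a valuation to the monoid algebra -/
noncomputable def valM (V : Val A) (w : M →+ Gam) (hI : IndW V w) :
    Val (AddMonoidAlgebra A M) where
  v := vM V w
  mul' := by
    intro P Q hP hQ
    obtain ⟨p, hp⟩ := exists_lead hI hP
    obtain ⟨q, hq⟩ := exists_lead hI hQ
    obtain ⟨h1, h2⟩ := hp.mul hI hq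
    rw [vM_eq h1, vM_eq hp, vM_eq hq, h2]
  add' := by
    intro P Q hP hQ hPQ
    obtain ⟨p, hp⟩ := exists_lead hI hPQ
    rw [vM_eq hp]
    have e : (P + Q).coeff p = P.coeff p + Q.coeff p := rfl
    have h0 := hp.1
    rw [e] at h0 ⊢
    by_cases h1 : P.coeff p = 0
    · rw [h1, zero_add] at h0 ⊢
      exact (min_le_right _ _).trans (vM_le hI h0)
    by_cases h2 : Q.coeff p = 0
    · rw [h2, add_zero] at h0 ⊢
      exact (min_le_left _ _).trans (vM_le hI h0)
    have h3 := V.add' h1 h2 h0
    rcases min_le_iff.1 h3 with h4 | h4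
    · exact (min_le_left _ _).trans ((vM_le hI h1).trans (by gcongr))
    · exact (min_le_right _ _).trans ((vM_le hI h2).trans (by gcongr))

theorem valM_single {V : Val A} {w : M →+ Gam} (hI : IndW V w) (p : M) {a : A} (ha : a ≠ 0) :
    (valM V w hI).v (AddMonoidAlgebra.single p a) = V.v a + w p := by
  classical
  have hp : IsLead V w (AddMonoidAlgebra.single p a) p := by
    have e : ∀ q, (AddMonoidAlgebra.single p a).coeff q = if p = q then a else 0 := by
      intro q
      rw [AddMonoidAlgebra.coeff_single, Finsupp.single_apply]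
    refine ⟨?_, ?_⟩
    · rw [e, if_pos rfl]; exact ha
    · intro q hq h
      rw [e, if_neg (Ne.symm hq)] at h
      exact absurd rfl h
  change vM V w _ = _
  rw [vM_eq hp, AddMonoidAlgebra.coeff_single, Finsupp.single_eq_same]

end Mon

section Frac

variable {A F : Type*} [CommRing A] [IsDomain A] [Field F] [Algebra A F] [IsFractionRing A F]

open Classical in
/-- the value of a fraction -/
noncomputable def vF (V : Val A) (F : Type*) [Field F] [Algebra A F] (x : F) : Gam :=
  if h : ∃ p : A × A, p.2 ≠ 0 ∧ x = algebraMap A F p.1 / algebraMap A F p.2 then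
    V.v h.choose.1 - V.v h.choose.2 else 0

theorem vF_eq (V : Val A) {a b : A} (ha : a ≠ 0) (hb : b ≠ 0) :
    vF V F (algebraMap A F a / algebraMap A F b) = V.v a - V.v b := by
  have hinj : Function.Injective (algebraMap A F) := IsFractionRing.injective A F
  have h : ∃ p : A × A, p.2 ≠ 0 ∧ algebraMap A F a / algebraMap A F b =
      algebraMap A F p.1 / algebraMap A F p.2 := ⟨(a, b), hb, rfl⟩
  unfold vF
  rw [dif_pos h]
  obtain ⟨h1, h2⟩ := h.choose_spec
  generalize h.choose = p at h1 h2 ⊢
  have hb' : algebraMap A F b ≠ 0 := (map_ne_zero_iff _ hinj).2 hb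
  have hp' : algebraMap A F p.2 ≠ 0 := (map_ne_zero_iff _ hinj).2 h1
  rw [div_eq_div_iff hb' hp', ← map_mul, ← map_mul] at h2
  have h3 := hinj h2
  have hp1 : p.1 ≠ 0 := by
    intro h0
    rw [h0, zero_mul] at h3
    exact (mul_ne_zero ha h1) h3
  have h4 := V.mul' ha h1
  have h5 := V.mul' hp1 hb
  rw [h3, h5] at h4
  rw [sub_eq_sub_iff_add_eq_add, h4]

/-- the extension of a valuation to the fraction field -/
noncomputable def valF (V : Val A) (F : Type*) [Field F] [Algebra A F] [IsFractionRing A F] :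
    Val F where
  v := vF V F
  mul' := by
    intro x y hx hy
    have hinj : Function.Injective (algebraMap A F) := IsFractionRing.injective A F
    obtain ⟨a, b, hb, rfl⟩ := IsFractionRing.div_surjective (A := A) x
    obtain ⟨c, d, hd, rfl⟩ := IsFractionRing.div_surjective (A := A) y
    have hb := nonZeroDivisors.ne_zero hb
    have hd := nonZeroDivisors.ne_zero hd
    have ha : a ≠ 0 := by rintro rfl; simp at hx
    have hc : c ≠ 0 := by rintro rfl; simp at hy
    rw [div_mul_div_comm, ← map_mul, ← map_mul, vF_eq V (mul_ne_zero ha hc) (mul_ne_zero hb hd),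
      vF_eq V ha hb, vF_eq V hc hd, V.mul' ha hc, V.mul' hb hd]
    abel
  add' := by
    intro x y hx hy hxy
    have hinj : Function.Injective (algebraMap A F) := IsFractionRing.injective A F
    obtain ⟨a, b, hb, rfl⟩ := IsFractionRing.div_surjective (A := A) x
    obtain ⟨c, d, hd, rfl⟩ := IsFractionRing.div_surjective (A := A) y
    have hb := nonZeroDivisors.ne_zero hb
    have hd := nonZeroDivisors.ne_zero hd
    have ha : a ≠ 0 := by rintro rfl; simp at hx
    have hc : c ≠ 0 := by rintro rfl; simp at hy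
    have hb' : algebraMap A F b ≠ 0 := (map_ne_zero_iff _ hinj).2 hb
    have hd' : algebraMap A F d ≠ 0 := (map_ne_zero_iff _ hinj).2 hd
    have e : algebraMap A F a / algebraMap A F b + algebraMap A F c / algebraMap A F d =
        algebraMap A F (a * d + b * c) / algebraMap A F (b * d) := by
      rw [div_add_div _ _ hb' hd', map_add, map_mul, map_mul, map_mul]
    rw [e] at hxy ⊢
    have h0 : a * d + b * c ≠ 0 := by
      intro h0
      rw [h0, map_zero, zero_div] at hxy
      exact hxy rfl
    rw [vF_eq V h0 (mul_ne_zero hb hd), vF_eq V ha hb, vF_eq V hc hd, V.mul' hb hd]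
    have h1 := V.add' (mul_ne_zero ha hd) (mul_ne_zero hb hc) h0
    rw [V.mul' ha hd, V.mul' hb hc] at h1
    rw [le_sub_iff_add_le]
    refine le_trans ?_ h1
    rw [le_min_iff]
    constructor
    · calc min (V.v a - V.v b) (V.v c - V.v d) + (V.v b + V.v d)
          ≤ (V.v a - V.v b) + (V.v b + V.v d) := by gcongr; exact min_le_left _ _
        _ = _ := by abel
    · calc min (V.v a - V.v b) (V.v c - V.v d) + (V.v b + V.v d)
          ≤ (V.v c - V.v d) + (V.v b + V.v d) := by gcongr; exact min_le_right _ _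
        _ = _ := by abel

theorem valF_algebraMap (V : Val A) {a : A} (ha : a ≠ 0) :
    (valF V F).v (algebraMap A F a) = V.v a := by
  have h := vF_eq (F := F) V ha one_ne_zero
  rw [map_one, div_one, V.v_one, sub_zero] at h
  exact h

end Frac

end Pool.Agent.Y206.V
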