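import Pool.Agent.Y206.V.Nbhd
import Pool.Agent.Y206.V.Abs

set_option autoImplicit false
set_option linter.unusedSectionVars false
set_option linter.unusedVariables false

/-!
# Weak approximation for good configurations
-/

namespace Pool.Agent.Y206.V

open Pool.Agent.Y206 Topology

universe u w

theorem ball {n : ℕ} (hn : 9 < n) (hsq : ¬ IsSquare n) {K : Type u} [Field K]
    (b : AbsoluteValue K ℝ) (hb : IsNonarchimedean b) {μ s : K} (h0 : 0 < b μ) (h1 : b μ < 1)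
    (hs : b s = b μ ^ bet n) {c : Fin n → K} (hc : ∀ i, b (c i) = 1)
    (hcc : ∀ i j, i ≠ j → b (c i - c j) = 1) :
    ∃ (P₀ : Fin n → Fin 3 → K) (δ : ℝ), 0 < δ ∧ ∀ P : Fin n → Fin 3 → K,
      (∀ i j, b (P i j - P₀ i j) < δ) → (∀ i, P i ≠ 0) ∧ Good P := by
  let : NormedField K := b.toNormedField
  have : IsUltrametricDist K := by
    refine ⟨fun x y z => ?_⟩
    change b (-x + z) ≤ max (b (-x + y)) (b (-y + z))
    have := hb (-x + y) (-y + z)
    rwa [show -x + y + (-y + z) = -x + z by ring] at this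
  have h := nbhd hn hsq (K := K) (μ := μ) (s := s) h0 h1 hs hc hcc
  obtain ⟨δ, hδ, h⟩ := Metric.eventually_nhds_iff.1 h
  refine ⟨fun i => ptY (⌊3 * √(n : ℝ)⌋₊ - 5) μ s (c i) 1, δ, hδ, fun P hP => h ?_⟩
  rw [dist_pi_lt_iff hδ]
  intro i
  rw [dist_pi_lt_iff hδ]
  intro j
  rw [dist_eq_norm]
  exact hP i j

theorem weak_one {K : Type u} [Field K] {ι : Type w} [Finite ι] (v : ι → AbsoluteValue K ℝ)
    (hv : ∀ l, (v l).IsNontrivial) (hvv : Pairwise fun l l' => ¬ (v l).IsEquiv (v l'))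
    (b : AbsoluteValue K ℝ) (hbn : b.IsNontrivial) (hbv : ∀ l, ¬ (v l).IsEquiv b) (x₀ : K)
    {δ : ℝ} (hδ : 0 < δ) (x : ι → K) {ε : ℝ} (hε : 0 < ε) :
    ∃ y : K, b (y - x₀) < δ ∧ ∀ l, v l (y - x l) < ε := by
  classical
  have := Fintype.ofFinite ι
  obtain ⟨v', hv'⟩ : ∃ v' : Option ι → AbsoluteValue K ℝ, v' = fun o => o.elim b v := ⟨_, rfl⟩
  have h1 : ∀ o, (v' o).IsNontrivial := by
    intro o
    rw [hv']
    rcases o with _ | l
    · exact hbn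
    · exact hv l
  have h2 : Pairwise fun o o' => ¬ (v' o).IsEquiv (v' o') := by
    intro o o' hoo'
    rw [hv']
    rcases o with _ | l <;> rcases o' with _ | l'
    · exact absurd rfl hoo'
    · exact fun h => hbv l' h.symm
    · exact hbv l
    · exact hvv fun h => hoo' (by rw [h])
  have h3 := AbsoluteValue.denseRange_algebraMap_pi h1 h2
  obtain ⟨y, hy⟩ := Metric.denseRange_iff.1 h3
    (fun o => WithAbs.toAbs (v' o) (o.elim x₀ x)) (min δ ε) (lt_min hδ hε)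
  rw [dist_comm, dist_pi_lt_iff (lt_min hδ hε)] at hy
  have h4 : ∀ o : Option ι, v' o (y - o.elim x₀ x) < min δ ε := by
    intro o
    have := hy o
    rw [dist_eq_norm] at this
    exact this
  refine ⟨y, ?_, fun l => ?_⟩
  · have := (h4 none).trans_le (min_le_left _ _)
    rw [hv'] at this
    exact this
  · have := (h4 (some l)).trans_le (min_le_right _ _)
    rw [hv'] at this
    exact this

theorem weak_b {n : ℕ} (hn : 9 < n) (hsq : ¬ IsSquare n) {K : Type u} [Field K]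
    (b : AbsoluteValue K ℝ) (hb : IsNonarchimedean b) {μ s : K} (h0 : 0 < b μ) (h1 : b μ < 1)
    (hs : b s = b μ ^ bet n) {c : Fin n → K} (hc : ∀ i, b (c i) = 1)
    (hcc : ∀ i j, i ≠ j → b (c i - c j) = 1)
    {ι : Type w} [Finite ι] (v : ι → AbsoluteValue K ℝ)
    (hv : ∀ l, (v l).IsNontrivial) (hvv : Pairwise fun l l' => ¬ (v l).IsEquiv (v l'))
    (hbv : ∀ l, ¬ (v l).IsEquiv b) (Q : ι → Fin n → Fin 3 → K) {ε : ℝ} (hε : 0 < ε) :
    ∃ P : Fin n → Fin 3 → K, (∀ l i j, v l (P i j - Q l i j) < ε) ∧ (∀ i, P i ≠ 0) ∧ Good P := by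
  obtain ⟨P₀, δ, hδ, h⟩ := ball hn hsq b hb h0 h1 hs hc hcc
  have hbn : b.IsNontrivial := ⟨μ, fun h => by rw [h, map_zero] at h0; exact lt_irrefl _ h0, h1.ne⟩
  choose P hP1 hP2 using fun (i : Fin n) (j : Fin 3) =>
    weak_one v hv hvv b hbn hbv (P₀ i j) hδ (fun l => Q l i j) hε
  exact ⟨P, fun l i j => hP2 i j l, h P hP1⟩

theorem weak_R {R : Type*} [CommRing R] [IsDomain R] [UniqueFactorizationMonoid R] {K : Type u}
    [Field K] [Algebra R K] {s : K} (hs : Transcendental R s) {n : ℕ} (hn : 9 < n)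
    (hsq : ¬ IsSquare n) (hR : ∀ a : R, a ≠ 0 → ∃ ϖ : R, Prime ϖ ∧ ¬ ϖ ∣ a ∧ ∃ c : Fin n → R,
      (∀ i, ¬ ϖ ∣ c i) ∧ ∀ i j, i ≠ j → ¬ ϖ ∣ c i - c j)
    {ι : Type w} [Finite ι] (v : ι → AbsoluteValue K ℝ)
    (hv : ∀ l, (v l).IsNontrivial) (hvv : Pairwise fun l l' => ¬ (v l).IsEquiv (v l'))
    (Q : ι → Fin n → Fin 3 → K) {ε : ℝ} (hε : 0 < ε) :
    ∃ P : Fin n → Fin 3 → K, (∀ l i j, v l (P i j - Q l i j) < ε) ∧ (∀ i, P i ≠ 0) ∧ Good P := by
  classical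
  have := Fintype.ofFinite ι
  have hirr : Irrational (√(n : ℝ)) := by
    rw [irrational_sqrt_natCast_iff]
    exact hsq
  obtain ⟨_, _, hβ, _⟩ := bet_facts hn hirr
  choose b hb1 hb2 hb3 hb4 using fun ϖ : {ϖ : R // Prime ϖ} => exists_abs hs hβ ϖ.2
  obtain ⟨a, ha⟩ : ∃ a : ι → R, ∀ l, a l ≠ 0 ∧ ∀ ϖ : {ϖ : R // Prime ϖ}, (v l).IsEquiv (b ϖ) →
      ∃ ϖ' : {ϖ : R // Prime ϖ}, (v l).IsEquiv (b ϖ') ∧ a l = ϖ'.1 := by
    have h1 : ∀ l, ∃ x : R, x ≠ 0 ∧ ∀ ϖ : {ϖ : R // Prime ϖ}, (v l).IsEquiv (b ϖ) →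
      ∃ ϖ' : {ϖ : R // Prime ϖ}, (v l).IsEquiv (b ϖ') ∧ x = ϖ'.1 := by
      intro l
      by_cases h : ∃ ϖ : {ϖ : R // Prime ϖ}, (v l).IsEquiv (b ϖ)
      · obtain ⟨ϖ, hϖ⟩ := h
        exact ⟨ϖ.1, ϖ.2.ne_zero, fun _ _ => ⟨ϖ, hϖ, rfl⟩⟩
      · exact ⟨1, one_ne_zero, fun ϖ hϖ => absurd ⟨ϖ, hϖ⟩ h⟩
    choose a ha using h1
    exact ⟨a, ha⟩
  obtain ⟨ϖ, hϖ, hϖa, c, hc, hcc⟩ := hR (∏ l, a l) (Finset.prod_ne_zero_iff.2 fun l _ => (ha l).1)
  have hlt : ∀ ϖ : {ϖ : R // Prime ϖ}, b ϖ (algebraMap R K ϖ.1) < 1 := by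
    intro ϖ
    rw [hb2]
    exact Real.exp_lt_one_iff.2 (by norm_num)
  refine weak_b hn hsq (b ⟨ϖ, hϖ⟩) (hb1 _) (μ := algebraMap R K ϖ) (s := s) ?_ (hlt _) ?_
    (c := fun i => algebraMap R K (c i)) (fun i => hb4 _ _ (hc i)) ?_ v hv hvv ?_ Q hε
  · rw [hb2 ⟨ϖ, hϖ⟩]
    exact Real.exp_pos _
  · rw [hb3, hb2 ⟨ϖ, hϖ⟩, ← Real.exp_mul]
    congr 1
    ring
  · intro i j hij
    change b _ (algebraMap R K (c i) - algebraMap R K (c j)) = 1
    rw [← map_sub]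
    exact hb4 _ _ (hcc i j hij)
  · intro l hl
    obtain ⟨ϖ', h1, h2⟩ := (ha l).2 _ hl
    have h3 : ¬ ϖ ∣ ϖ'.1 := by
      rw [← h2]
      exact fun h => hϖa (h.trans (Finset.dvd_prod_of_mem a (Finset.mem_univ l)))
    have h4 : ¬ ϖ'.1 ∣ ϖ := by
      intro h
      exact h3 ((ϖ'.2.dvd_prime_iff_associated hϖ).1 h).symm.dvd
    have h5 := hb4 ϖ' ϖ h4
    have h6 : (b ⟨ϖ, hϖ⟩).IsEquiv (b ϖ') := hl.symm.trans h1
    have h7 := h6.lt_one_iff.1 (hlt ⟨ϖ, hϖ⟩)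
    rw [h5] at h7
    exact lt_irrefl _ h7

theorem hR_int (n : ℕ) : ∀ a : ℤ, a ≠ 0 → ∃ ϖ : ℤ, Prime ϖ ∧ ¬ ϖ ∣ a ∧ ∃ c : Fin n → ℤ,
      (∀ i, ¬ ϖ ∣ c i) ∧ ∀ i j, i ≠ j → ¬ ϖ ∣ c i - c j := by
  intro a ha
  obtain ⟨p, hp1, hp2⟩ := Nat.exists_infinite_primes (n + a.natAbs + 1)
  have key : ∀ x : ℤ, x ≠ 0 → x.natAbs < p → ¬ (p : ℤ) ∣ x := by
    intro x hx hxp h
    have h1 := Int.natAbs_dvd_natAbs.2 h
    rw [Int.natAbs_natCast] at h1
    have h2 := Nat.le_of_dvd (Int.natAbs_pos.2 hx) h1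
    omega
  refine ⟨(p : ℤ), Nat.prime_iff_prime_int.1 hp2, key a ha (by omega), fun i => (i : ℤ) + 1, ?_, ?_⟩
  · intro i
    have := i.2
    change ¬ (p : ℤ) ∣ (i : ℤ) + 1
    exact key _ (by omega) (by omega)
  · intro i j hij
    have h1 := i.2
    have h2 := j.2
    have h3 : (i : ℕ) ≠ j := fun h => hij (Fin.ext h)
    change ¬ (p : ℤ) ∣ ((i : ℤ) + 1) - ((j : ℤ) + 1)
    exact key _ (by omega) (by omega)

theorem hR_poly (k : Type*) [Field k] (n : ℕ) : ∀ a : Polynomial k, a ≠ 0 →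
    ∃ ϖ : Polynomial k, Prime ϖ ∧ ¬ ϖ ∣ a ∧ ∃ c : Fin n → Polynomial k,
      (∀ i, ¬ ϖ ∣ c i) ∧ ∀ i j, i ≠ j → ¬ ϖ ∣ c i - c j := by
  classical
  intro a ha
  obtain ⟨c, hc⟩ : ∃ c : Fin n → Polynomial k, ∀ i, c i = Polynomial.X ^ ((i : ℕ) + 1) :=
    ⟨_, fun _ => rfl⟩
  obtain ⟨D, hD⟩ : ∃ D : Polynomial k, D = a * ((∏ i, c i) *
    ∏ q ∈ (Finset.univ : Finset (Fin n × Fin n)).filter (fun q => q.1 ≠ q.2), (c q.1 - c q.2)) :=
    ⟨_, rfl⟩
  have hc0 : ∀ i, c i ≠ 0 := fun i => by rw [hc]; exact pow_ne_zero _ Polynomial.X_ne_zero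
  have hcc0 : ∀ i j, i ≠ j → c i - c j ≠ 0 := by
    intro i j hij h
    rw [sub_eq_zero, hc, hc] at h
    have h1 := congrArg Polynomial.natDegree h
    rw [Polynomial.natDegree_X_pow, Polynomial.natDegree_X_pow] at h1
    exact hij (Fin.ext (by omega))
  have hD0 : D ≠ 0 := by
    rw [hD]
    refine mul_ne_zero ha (mul_ne_zero (Finset.prod_ne_zero_iff.2 fun i _ => hc0 i)
      (Finset.prod_ne_zero_iff.2 fun q hq => hcc0 _ _ (Finset.mem_filter.1 hq).2))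
  have hdeg : (1 + Polynomial.X * D).natDegree = D.natDegree + 1 := by
    have h1 : (Polynomial.X * D).natDegree = D.natDegree + 1 := Polynomial.natDegree_X_mul hD0
    rw [add_comm, Polynomial.natDegree_add_eq_left_of_natDegree_lt, h1]
    rw [h1, Polynomial.natDegree_one]
    omega
  have hnu : ¬ IsUnit (1 + Polynomial.X * D) := by
    intro h
    have := Polynomial.natDegree_eq_zero_of_isUnit h
    omega
  have hne : (1 + Polynomial.X * D) ≠ 0 := by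
    intro h
    rw [h, Polynomial.natDegree_zero] at hdeg
    omega
  obtain ⟨ϖ, hϖ1, hϖ2⟩ := WfDvdMonoid.exists_irreducible_factor hnu hne
  have hϖD : ¬ ϖ ∣ D := by
    intro h
    have h1 : ϖ ∣ 1 := (dvd_add_left (h.mul_left Polynomial.X)).1 hϖ2
    exact hϖ1.not_isUnit (isUnit_of_dvd_one h1)
  refine ⟨ϖ, hϖ1.prime, fun h => hϖD ?_, c, fun i h => hϖD ?_, fun i j hij h => hϖD ?_⟩
  · rw [hD]
    exact h.mul_right _
  · rw [hD]
    exact (h.trans ((Finset.dvd_prod_of_mem c (Finset.mem_univ i)).mul_right _)).mul_left _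
  · rw [hD]
    exact (h.trans ((Finset.dvd_prod_of_mem (fun q : Fin n × Fin n => c q.1 - c q.2)
      (Finset.mem_filter.2 ⟨Finset.mem_univ (i, j), hij⟩)).mul_left _)).mul_left _

theorem isAlgebraic_mono {A B K : Type*} [CommRing A] [CommRing B] [Field K] [Algebra A K]
    [Algebra B K] (f : A →+* B) (hf : (algebraMap B K).comp f = algebraMap A K)
    (hinj : Function.Injective f) {x : K} (h : IsAlgebraic A x) : IsAlgebraic B x := by
  obtain ⟨p, hp, hpx⟩ := h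
  refine ⟨p.map f, (Polynomial.map_ne_zero_iff hinj).2 hp, ?_⟩
  rw [Polynomial.aeval_def, Polynomial.eval₂_map, hf, ← Polynomial.aeval_def]
  exact hpx

/-- **Weak approximation** -/
theorem weak {K : Type u} [Field K] (hK : (∃ s : K, Transcendental ℤ s) ∨
      ∃ (k : Subfield K) (x : Fin 2 → K), AlgebraicIndependent k x)
    {n : ℕ} (hn : 9 < n) (hsq : ¬ IsSquare n)
    {ι : Type w} [Finite ι] (v : ι → AbsoluteValue K ℝ)
    (hv : ∀ l, (v l).IsNontrivial) (hvv : Pairwise fun l l' => ¬ (v l).IsEquiv (v l'))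
    (Q : ι → Fin n → Fin 3 → K) {ε : ℝ} (hε : 0 < ε) :
    ∃ P : Fin n → Fin 3 → K, (∀ l i j, v l (P i j - Q l i j) < ε) ∧ (∀ i, P i ≠ 0) ∧ Good P := by
  rcases hK with ⟨s, hs⟩ | ⟨k, x, hx⟩
  · exact weak_R hs hn hsq (hR_int n) v hv hvv Q hε
  · let : Algebra (Polynomial k) K := (Polynomial.aeval (x 0) : Polynomial k →ₐ[k] K).toAlgebra
    have hs : Transcendental (Polynomial k) (x 1) := by
      have h1 : AlgebraicIndependent k (fun o : Option (Fin 1) => o.elim (x 1) fun _ => x 0) := by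
        have h2 := hx.comp (fun o : Option (Fin 1) => o.elim (1 : Fin 2) fun _ => 0) (by
          intro o1 o2 h
          rcases o1 with _ | b1 <;> rcases o2 with _ | b2
          · rfl
          · exact absurd h (by simp)
          · exact absurd h (by simp)
          · rw [Subsingleton.elim b1 b2])
        convert h2 using 1
        funext o
        rcases o with _ | b <;> rfl
      rw [AlgebraicIndependent.option_iff] at h1
      obtain ⟨h3, h4⟩ := h1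
      have h5 : Function.Injective (Polynomial.aeval (x 0) : Polynomial k →ₐ[k] K) :=
        transcendental_iff_injective.1 (hx.transcendental 0)
      intro h
      apply h4
      refine isAlgebraic_mono ((Polynomial.aeval (x 0) : Polynomial k →ₐ[k] K).toRingHom.codRestrict
        (Algebra.adjoin k (Set.range fun _ : Fin 1 => x 0)) ?_) ?_ ?_ h
      · intro p
        have h6 : Polynomial.aeval (x 0) p ∈ Algebra.adjoin k {x 0} :=
          Polynomial.aeval_mem_adjoin_singleton _ _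
        refine Algebra.adjoin_mono ?_ h6
        rintro _ rfl
        exact ⟨0, rfl⟩
      · rfl
      · intro p q hpq
        exact h5 (congrArg (fun z : Algebra.adjoin k (Set.range fun _ : Fin 1 => x 0) => (z : K)) hpq)
    exact weak_R hs hn hsq (hR_poly k n) v hv hvv Q hε

end Pool.Agent.Y206.V
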